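import Pool.Agent.Lib_helper39.TB.Defs

/-!
# T2', block TDG: one exceptional set for a sequence of functions (MP_892e4c_nt)
-/

namespace Pool.Agent.T2

open Filter Topology

/-- a common exceptional set of logarithmic density zero -/
theorem tdg_diag (a : ℕ → ℕ → ℝ) (ha : ∀ j x, 0 ≤ a j x)
    (h : ∀ j, ∀ ε : ℝ, 0 < ε → ∃ X₀ : ℕ, ∀ X : ℕ, X₀ ≤ X →
      ∑ x ∈ Finset.Icc 1 X, a j x / (x : ℝ) ≤ ε * Real.log X) :
    ∃ E : Set ℕ, LogNull E ∧ ∀ j, ∀ ε : ℝ, 0 < ε → ∃ x₀ : ℕ, ∀ x : ℕ, x₀ ≤ x → x ∉ E →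
      a j x ≤ ε := by
  classical
  -- thresholds
  have hT : ∀ k : ℕ, ∃ T : ℕ, ∀ X : ℕ, T ≤ X →
      ((k : ℝ) + 1) * ∑ j ∈ Finset.range (k + 1), ∑ x ∈ Finset.Icc 1 X, a j x / (x : ℝ) ≤
        1 / ((k : ℝ) + 1) * Real.log X := by
    intro k
    have h1 : ∀ j, ∃ X₀ : ℕ, ∀ X : ℕ, X₀ ≤ X →
        ∑ x ∈ Finset.Icc 1 X, a j x / (x : ℝ) ≤ 1 / ((k : ℝ) + 1) ^ 3 * Real.log X :=
      fun j => h j _ (by positivity)
    choose T hT using h1
    refine ⟨(Finset.range (k + 1)).sup T, fun X hX => ?_⟩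
    have h2 : ∑ j ∈ Finset.range (k + 1), ∑ x ∈ Finset.Icc 1 X, a j x / (x : ℝ) ≤
        ∑ j ∈ Finset.range (k + 1), 1 / ((k : ℝ) + 1) ^ 3 * Real.log X := by
      refine Finset.sum_le_sum fun j hj => hT j X ((Finset.le_sup hj).trans hX)
    rw [Finset.sum_const, Finset.card_range, nsmul_eq_mul] at h2
    push_cast at h2
    calc ((k : ℝ) + 1) * ∑ j ∈ Finset.range (k + 1), ∑ x ∈ Finset.Icc 1 X, a j x / (x : ℝ)
        ≤ ((k : ℝ) + 1) * (((k : ℝ) + 1) * (1 / ((k : ℝ) + 1) ^ 3 * Real.log X)) :=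
          mul_le_mul_of_nonneg_left h2 (by positivity)
      _ = 1 / ((k : ℝ) + 1) * Real.log X := by field_simp
  choose T hT using hT
  set P : ℕ → ℕ → Prop := fun x k => ∀ i ≤ k, T i ≤ x with hP
  set K : ℕ → ℕ := fun x => Nat.findGreatest (P x) x with hK
  have hmono : ∀ x y : ℕ, x ≤ y → K x ≤ K y := by
    intro x y hxy
    refine Nat.findGreatest_mono (fun k hk i hi => (hk i hi).trans hxy) hxy
  have hspec : ∀ x : ℕ, T 0 ≤ x → T (K x) ≤ x := by
    intro x hx
    have h1 : P x (K x) := by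
      refine Nat.findGreatest_spec (m := 0) (Nat.zero_le _) ?_
      intro i hi
      have : i = 0 := by omega
      rw [this]; exact hx
    exact h1 _ le_rfl
  have hlarge : ∀ k : ℕ, ∃ x₀ : ℕ, ∀ x : ℕ, x₀ ≤ x → k ≤ K x := by
    intro k
    refine ⟨max k ((Finset.range (k + 1)).sup T), fun x hx => ?_⟩
    refine Nat.le_findGreatest (le_trans (le_max_left _ _) hx) ?_
    intro i hi
    have h1 : T i ≤ (Finset.range (k + 1)).sup T :=
      Finset.le_sup (Finset.mem_range.2 (by omega))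
    exact h1.trans (le_trans (le_max_right _ _) hx)
  set E : Set ℕ := {x | ∃ j ≤ K x, 1 / ((K x : ℝ) + 1) < a j x} with hE
  refine ⟨E, ?_, ?_⟩
  · unfold LogNull
    rw [Metric.tendsto_atTop]
    intro ε hε
    obtain ⟨k, hk⟩ := exists_nat_gt (1 / ε)
    obtain ⟨x₀, hx₀⟩ := hlarge k
    refine ⟨max x₀ (max (T 0) 2), fun X hX => ?_⟩
    have hX0 : x₀ ≤ X := le_trans (le_max_left _ _) hX
    have hXT : T 0 ≤ X := le_trans (le_trans (le_max_left _ _) (le_max_right _ _)) hX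
    have hX2 : 2 ≤ X := le_trans (le_trans (le_max_right _ _) (le_max_right _ _)) hX
    have hlog : 0 < Real.log X := Real.log_pos (by exact_mod_cast hX2)
    set n := K X with hn
    have hkn : k ≤ n := hx₀ X hX0
    have hTn : T n ≤ X := hspec X hXT
    have h1 : ∀ x ∈ Finset.Icc 1 X, (if x ∈ E then 1 / (x : ℝ) else 0) ≤
        ((n : ℝ) + 1) * ∑ j ∈ Finset.range (n + 1), a j x / (x : ℝ) := by
      intro x hx
      rw [Finset.mem_Icc] at hx
      have hx0 : (0 : ℝ) < x := by exact_mod_cast hx.1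
      have hnn : 0 ≤ ((n : ℝ) + 1) * ∑ j ∈ Finset.range (n + 1), a j x / (x : ℝ) :=
        mul_nonneg (by positivity) (Finset.sum_nonneg fun j _ => div_nonneg (ha _ _) hx0.le)
      split_ifs with hxE
      · obtain ⟨j, hj, hja⟩ := hxE
        have hKn : K x ≤ n := hmono x X hx.2
        have hjn : j ∈ Finset.range (n + 1) := Finset.mem_range.2 (by omega)
        have h2 : a j x / (x : ℝ) ≤ ∑ j ∈ Finset.range (n + 1), a j x / (x : ℝ) :=
          Finset.single_le_sum (f := fun j => a j x / (x : ℝ))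
            (fun i _ => div_nonneg (ha _ _) hx0.le) hjn
        have h3 : 1 / ((n : ℝ) + 1) ≤ 1 / ((K x : ℝ) + 1) := by
          apply one_div_le_one_div_of_le (by positivity)
          have : (K x : ℝ) ≤ n := by exact_mod_cast hKn
          linarith
        have h4 : 1 / ((n : ℝ) + 1) ≤ a j x := h3.trans hja.le
        have h5 : 1 ≤ ((n : ℝ) + 1) * a j x := by
          rw [div_le_iff₀ (by positivity)] at h4
          linarith
        calc 1 / (x : ℝ) ≤ ((n : ℝ) + 1) * a j x / x := div_le_div_of_nonneg_right h5 hx0.le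
          _ = ((n : ℝ) + 1) * (a j x / x) := by ring
          _ ≤ _ := mul_le_mul_of_nonneg_left h2 (by positivity)
      · exact hnn
    have h2 : ∑ x ∈ (Finset.Icc 1 X).filter (fun x => x ∈ E), 1 / (x : ℝ) ≤
        1 / ((n : ℝ) + 1) * Real.log X := by
      rw [Finset.sum_filter]
      refine (Finset.sum_le_sum h1).trans ?_
      rw [← Finset.mul_sum, Finset.sum_comm]
      exact hT n X hTn
    have h3 : 0 ≤ ∑ x ∈ (Finset.Icc 1 X).filter (fun x => x ∈ E), 1 / (x : ℝ) :=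
      Finset.sum_nonneg fun _ _ => by positivity
    suffices hs : |1 / Real.log X *
        ∑ x ∈ (Finset.Icc 1 X).filter (fun x => x ∈ E), 1 / (x : ℝ)| < ε by
      rw [Real.dist_eq, sub_zero]
      convert hs
    rw [abs_of_nonneg (mul_nonneg (by positivity) h3)]
    have h4 : 1 / ((n : ℝ) + 1) < ε := by
      have h5 : (k : ℝ) ≤ n := by exact_mod_cast hkn
      rw [div_lt_iff₀ hε] at hk
      rw [div_lt_iff₀ (by positivity)]
      nlinarith
    calc 1 / Real.log X * ∑ x ∈ (Finset.Icc 1 X).filter (fun x => x ∈ E), 1 / (x : ℝ)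
        ≤ 1 / Real.log X * (1 / ((n : ℝ) + 1) * Real.log X) :=
          mul_le_mul_of_nonneg_left h2 (by positivity)
      _ = 1 / ((n : ℝ) + 1) := by field_simp
      _ < ε := h4
  · intro j ε hε
    obtain ⟨k, hk⟩ := exists_nat_gt (1 / ε)
    obtain ⟨x₀, hx₀⟩ := hlarge (max j k)
    refine ⟨x₀, fun x hx hxE => ?_⟩
    have h1 := hx₀ x hx
    have h2 : ¬ 1 / ((K x : ℝ) + 1) < a j x := by
      intro hc
      exact hxE ⟨j, (le_max_left _ _).trans h1, hc⟩
    push Not at h2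
    refine h2.trans ?_
    have h3 : (k : ℝ) ≤ K x := by exact_mod_cast (le_max_right _ _).trans h1
    rw [div_lt_iff₀ hε] at hk
    rw [div_le_iff₀ (by positivity)]
    nlinarith

end Pool.Agent.T2
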