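import Pool.Agent.Lib_helper39.TB.TFN
import Pool.Agent.Lib_helper39.TB.TDG

/-!
# T2', block TDN: the theorem for almost all scales (MP_892e4c_nt)
-/

namespace Pool.Agent.T2

open Filter Topology

theorem tdn_nonneg (α β : ℝ) (n : ℕ) : 0 ≤ Wdiv α β n := Nat.cast_nonneg _

theorem tdn_add {a b c : ℝ} (hab : a ≤ b) (hbc : b ≤ c) (n : ℕ) :
    Wdiv a c n = Wdiv a b n + Wdiv b c n := by
  classical
  unfold Wdiv
  rw [← Nat.cast_add]
  congr 1
  have h : (n ^ 2 + 1).divisors.filter (fun d : ℕ => a * n < (d : ℝ) ∧ (d : ℝ) ≤ c * n) =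
      (n ^ 2 + 1).divisors.filter (fun d : ℕ => a * n < (d : ℝ) ∧ (d : ℝ) ≤ b * n) ∪
      (n ^ 2 + 1).divisors.filter (fun d : ℕ => b * n < (d : ℝ) ∧ (d : ℝ) ≤ c * n) := by
    ext d
    rw [Finset.mem_union, Finset.mem_filter, Finset.mem_filter, Finset.mem_filter]
    have hn : (0 : ℝ) ≤ n := Nat.cast_nonneg _
    have h1 := mul_le_mul_of_nonneg_right hab hn
    have h2 := mul_le_mul_of_nonneg_right hbc hn
    constructor
    · rintro ⟨h3, h4, h5⟩
      rcases le_or_gt (d : ℝ) (b * n) with h6 | h6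
      · exact Or.inl ⟨h3, h4, h6⟩
      · exact Or.inr ⟨h3, h6, h5⟩
    · rintro (⟨h3, h4, h5⟩ | ⟨h3, h4, h5⟩)
      · exact ⟨h3, h4, h5.trans h2⟩
      · exact ⟨h3, lt_of_le_of_lt h1 h4, h5⟩
  rw [h, Finset.card_union_of_disjoint]
  rw [Finset.disjoint_left]
  intro d h1 h2
  rw [Finset.mem_filter] at h1 h2
  linarith [h1.2.2, h2.2.1]

/-- an upper bound for the sum of the weights -/
theorem tdn_win : ∃ C : ℝ, 1 ≤ C ∧ ∀ α β : ℝ, 0 < α → α < β → ∃ x₀ : ℕ, ∀ x : ℕ, x₀ ≤ x →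
    ∑ n ∈ Finset.Icc 1 x, Wdiv α β n ≤ C * (1 / α - 1 / β) * β * x := by
  classical
  obtain ⟨C, hC, hwin⟩ := win_count
  refine ⟨C, hC, fun α β hα hβ => ?_⟩
  have hβ0 : 0 < β := hα.trans hβ
  have hd0 : 0 < 1 / α - 1 / β := by
    have := one_div_lt_one_div_of_lt hα hβ
    linarith
  obtain ⟨Y₁, hY₁⟩ := hwin 1 (1 / β) (1 / α) one_ne_zero (by linarith)
  obtain ⟨κ, hκ⟩ := exists_nat_gt (β + 2 / α)
  have hp0 : 0 < 2 / α := by positivity
  obtain ⟨x₀, hx₀⟩ := exists_nat_gt (Y₁ / β)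
  refine ⟨x₀, fun x hx => ?_⟩
  rw [trg_card hα (κ := κ) (by linarith) (by linarith)]
  have hxY : Y₁ ≤ β * x := by
    have h1 : (x₀ : ℝ) ≤ x := by exact_mod_cast hx
    have h2 : Y₁ / β < x := lt_of_lt_of_le hx₀ h1
    rw [div_lt_iff₀ hβ0] at h2
    linarith
  have h1 := hY₁ (β * x) hxY
  set S := trgT α β x (κ * x) with hS
  have hsub : (S : Set (G × G)) ⊆ {p : G × G | Prm p.1 ∧ det p.1 p.2 = 1 ∧
      (nn p.1 : ℝ) ≤ β * x ∧ 1 / β * (nn p.1 : ℝ) ≤ (ip p.1 p.2 : ℝ) ∧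
        (ip p.1 p.2 : ℝ) < 1 / α * (nn p.1 : ℝ)} := by
    intro t ht
    rw [Finset.mem_coe, hS] at ht
    unfold trgT at ht
    rw [Finset.mem_filter] at ht
    obtain ⟨-, a1, a2, a3, a4, a5⟩ := ht
    have b1 : 1 / β * (nn t.1 : ℝ) ≤ (ip t.1 t.2 : ℝ) := by
      rw [one_div, inv_mul_le_iff₀ hβ0]; exact a5
    have b2 : (ip t.1 t.2 : ℝ) < 1 / α * (nn t.1 : ℝ) := by
      rw [one_div, lt_inv_mul_iff₀ hα]; exact a4
    refine ⟨(zco_prm a1).1, a1, ?_, b1, b2⟩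
    have a3' : (ip t.1 t.2 : ℝ) ≤ x := by exact_mod_cast a3
    exact a5.trans (mul_le_mul_of_nonneg_left a3' hβ0.le)
  have h3 := Set.ncard_le_ncard hsub (zcw_win_fin 1 one_ne_zero _ _ _)
  rw [Set.ncard_coe_finset] at h3
  have h4 : (S.card : ℝ) ≤ C * (1 / α - 1 / β) * (β * x) := (by exact_mod_cast h3 :
    (S.card : ℝ) ≤ ({p : G × G | Prm p.1 ∧ det p.1 p.2 = 1 ∧
      (nn p.1 : ℝ) ≤ β * x ∧ 1 / β * (nn p.1 : ℝ) ≤ (ip p.1 p.2 : ℝ) ∧
        (ip p.1 p.2 : ℝ) < 1 / α * (nn p.1 : ℝ)}.ncard : ℝ)).trans h1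
  have h5 : (0 : ℝ) ≤ S.card := Nat.cast_nonneg _
  linarith

/-- the change of the sum when the window changes -/
theorem tdn_change {a α b β : ℝ} (haα : a ≤ α) (hαb : α ≤ b) (hbβ : b ≤ β) (x : ℕ) :
    |SW α β x - SW a b x| ≤ ∑ n ∈ Finset.Icc 1 x, Wdiv a α n +
      ∑ n ∈ Finset.Icc 1 x, Wdiv b β n := by
  unfold SW
  rw [← Finset.sum_sub_distrib, ← Finset.sum_add_distrib]
  refine (Finset.abs_sum_le_sum_abs _ _).trans (Finset.sum_le_sum fun n _ => ?_)
  have h1 := tdn_add haα (hαb.trans hbβ) n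
  have h2 := tdn_add (haα.trans hαb) hbβ n
  have h3 : Wdiv α β n - Wdiv a b n = Wdiv b β n - Wdiv a α n := by linarith
  rw [← mul_sub, abs_mul, h3]
  have h4 := lam_abs (n ^ 2 + 1)
  have h5 : |Wdiv b β n - Wdiv a α n| ≤ Wdiv a α n + Wdiv b β n := by
    have := tdn_nonneg a α n
    have := tdn_nonneg b β n
    rw [abs_le]
    constructor <;> linarith
  exact (mul_le_of_le_one_left (abs_nonneg _) h4).trans h5

/-- the theorem for almost all scales -/
theorem almost_all_scales : ∃ E : Set ℕ, LogNull E ∧ ∀ α β : ℝ, 0 < α → α < β →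
    ∀ ε : ℝ, 0 < ε → ∃ x₀ : ℕ, ∀ x : ℕ, x₀ ≤ x → x ∉ E → |SW α β x| ≤ ε * x := by
  classical
  set e : ℕ ≃ ℚ × ℚ := (Denumerable.eqv (ℚ × ℚ)).symm with he
  set a : ℕ → ℕ → ℝ := fun j x => if 0 < (e j).1 ∧ (e j).1 < (e j).2 then
    |SW ((e j).1 : ℝ) ((e j).2 : ℝ) x| / x else 0 with ha
  obtain ⟨E, hE, hEa⟩ := tdg_diag a (by
    intro j x
    rw [ha]
    simp only
    split_ifs
    · positivity
    · exact le_rfl) (by
    intro j ε hε
    by_cases hj : 0 < (e j).1 ∧ (e j).1 < (e j).2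
    · obtain ⟨X₀, hX₀⟩ := sw_avg (α := ((e j).1 : ℝ)) (β := ((e j).2 : ℝ))
        (by exact_mod_cast hj.1) (by exact_mod_cast hj.2) ε hε
      refine ⟨X₀, fun X hX => ?_⟩
      refine le_trans (le_of_eq ?_) (hX₀ X hX)
      refine Finset.sum_congr rfl fun x _ => ?_
      rw [ha]
      simp only
      rw [if_pos hj, div_div, pow_two]
    · refine ⟨1, fun X hX => ?_⟩
      have h1 : ∑ x ∈ Finset.Icc 1 X, a j x / (x : ℝ) = 0 := by
        refine Finset.sum_eq_zero fun x _ => ?_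
        rw [ha]
        simp only
        rw [if_neg hj, zero_div]
      rw [h1]
      exact mul_nonneg hε.le (Real.log_nonneg (by exact_mod_cast hX)))
  refine ⟨E, hE, fun α β hα hβ ε hε => ?_⟩
  obtain ⟨C, hC, hwin⟩ := tdn_win
  have hβ0 : 0 < β := hα.trans hβ
  have hC0 : 0 < C := by linarith
  -- rational end points
  obtain ⟨a', ha1, ha2⟩ := exists_rat_btwn (show max (α / 2) (α - ε * α / (8 * C)) < α from by
    refine max_lt (by linarith) ?_
    have : 0 < ε * α / (8 * C) := by positivity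
    linarith)
  obtain ⟨b', hb1, hb2⟩ := exists_rat_btwn
    (show max α (max (β / 2) (β - ε * β / (8 * C))) < β from by
      refine max_lt hβ (max_lt (by linarith) ?_)
      have : 0 < ε * β / (8 * C) := by positivity
      linarith)
  have a1 : α / 2 < a' := lt_of_le_of_lt (le_max_left _ _) ha1
  have a2 : α - ε * α / (8 * C) < a' := lt_of_le_of_lt (le_max_right _ _) ha1
  have b0 : α < b' := lt_of_le_of_lt (le_max_left _ _) hb1
  have b1 : β / 2 < b' :=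
    lt_of_le_of_lt (le_trans (le_max_left _ _) (le_max_right _ _)) hb1
  have b2 : β - ε * β / (8 * C) < b' :=
    lt_of_le_of_lt (le_trans (le_max_right _ _) (le_max_right _ _)) hb1
  have a'0 : (0 : ℝ) < a' := by linarith
  have b'0 : (0 : ℝ) < b' := by linarith
  obtain ⟨x₁, hx₁⟩ := hwin a' α a'0 ha2
  obtain ⟨x₂, hx₂⟩ := hwin b' β b'0 hb2
  have key : ∀ s t : ℝ, 0 < t → 0 < s → t / 2 < s → t - ε * t / (8 * C) < s → s < t →
      C * (1 / s - 1 / t) * t ≤ ε / 4 := by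
    intro s t ht hs h1 h2 h3
    have e1 : C * (1 / s - 1 / t) * t = C * (t - s) / s := by
      field_simp
    rw [e1, div_le_iff₀ hs]
    have h4 : t - s < ε * t / (8 * C) := by linarith
    rw [lt_div_iff₀ (by positivity)] at h4
    nlinarith
  have k1 := key a' α hα a'0 a1 a2 ha2
  have k2 := key b' β hβ0 b'0 b1 b2 hb2
  set j := e.symm (a', b') with hj
  have hej : e j = (a', b') := by rw [hj, Equiv.apply_symm_apply]
  obtain ⟨x₃, hx₃⟩ := hEa j (ε / 2) (by positivity)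
  refine ⟨x₁ + x₂ + x₃ + 1, fun x hx hxE => ?_⟩
  have hx0 : (0 : ℝ) < x := by exact_mod_cast (by omega : 0 < x)
  have h1 := hx₃ x (by omega) hxE
  have h2 : |SW (a' : ℝ) (b' : ℝ) x| ≤ ε / 2 * x := by
    rw [ha] at h1
    simp only at h1
    rw [hej] at h1
    simp only at h1
    rw [if_pos] at h1
    · rwa [div_le_iff₀ hx0] at h1
    · refine ⟨by exact_mod_cast a'0, ?_⟩
      have : (a' : ℝ) < b' := by linarith
      exact_mod_cast this
  have h3 := tdn_change ha2.le b0.le hb2.le x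
  have h4 := hx₁ x (by omega)
  have h5 := hx₂ x (by omega)
  have h6 := mul_le_mul_of_nonneg_right k1 hx0.le
  have h7 := mul_le_mul_of_nonneg_right k2 hx0.le
  have h8 : |SW α β x| ≤ |SW α β x - SW a' b' x| + |SW a' b' x| := by
    have := abs_add_le (SW α β x - SW a' b' x) (SW a' b' x)
    simpa using this
  linarith

end Pool.Agent.T2
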