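import Pool.Agent.Lib_helper39.TA.Defs
import Pool.Agent.Lib_helper10.T2.DefsB
import Pool.Agent.Lib_helper10.T2.DefsZ

/-!
# T2', almost all scales: definitions (MP_892e4c_nt)
-/

namespace Pool.Agent.T2

open Filter Topology

/-- weights on pairs of cells -/
structure WOK (B N : ℕ) (ω : ℕ → ℕ → ℝ) : Prop where
  bd : ∀ c d, |ω c d| ≤ 1
  supp : ∀ c d, ω c d ≠ 0 → N ≤ B * c ∧ N ≤ B * d ∧ c < N ∧ d < N

/-- the correlation of determinant `p` at an element, with a weight on the cells -/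
noncomputable def FC (ω : ℕ → ℕ → ℝ) (N L Y p : ℕ) (u : G) : ℝ :=
  ∑ m ∈ Finset.Icc 1 (L / 2), if det u (it Y m u) = (p : ℤ) then
    ω (ce N Y u) (ce N Y (it Y m u)) * (gl u * gl (it Y m u)) else 0

open Classical in
/-- the observable of a word and a frame -/
noncomputable def Pc (ω : ℕ → ℕ → ℝ) (B N M L Y p : ℕ) (u : G) (t : ℤ × ℤ) : ℝ :=
  if Tm B N M L Y u then (1 / ((L / 2 : ℕ) : ℝ)) * ∑ a ∈ Finset.range (L / 2),
    FC ω N L Y p (it Y a u) *
      ((if (p : ℤ) ∣ det (it Y a u) (nx Y u) * t.1 + det u (it Y a u) * t.2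
        then (p : ℝ) + 1 else 0) - 1)
  else 0

open Classical in
/-- the sum over the pairs of determinant `D`, with a weight on the cells -/
noncomputable def CR (ω : ℕ → ℕ → ℝ) (N D Y : ℕ) : ℝ :=
  ∑ t ∈ (PN Y ×ˢ PN Y).filter (fun t => det t.1 t.2 = (D : ℤ) ∧ 0 < ip t.1 t.2),
    ω (ce N Y t.1) (ce N Y t.2) * (gl t.1 * gl t.2)

open Classical in
/-- the part of `CR` in which the first element is divisible by `pel p` -/
noncomputable def CRd (ω : ℕ → ℕ → ℝ) (N p Y : ℕ) : ℝ :=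
  ∑ t ∈ (PN Y ×ˢ PN Y).filter (fun t => det t.1 t.2 = (p : ℤ) ∧ 0 < ip t.1 t.2 ∧
    pel p ∣ t.1), ω (ce N Y t.1) (ce N Y t.2) * (gl t.1 * gl t.2)

/-- the sum of `λ(n² + 1) W(n)` over `n ≤ x` -/
noncomputable def SW (α β : ℝ) (x : ℕ) : ℝ :=
  ∑ n ∈ Finset.Icc 1 x, lam (n ^ 2 + 1) * Wdiv α β n

open Classical in
/-- the set `E` has logarithmic density zero -/
def LogNull (E : Set ℕ) : Prop :=
  Tendsto (fun X : ℕ => (1 / Real.log X) * ∑ x ∈ (Finset.Icc 1 X).filter (fun x => x ∈ E),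
    1 / (x : ℝ)) atTop (𝓝 0)

end Pool.Agent.T2
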