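import Pool.Agent.Lib_helper39.TB.Defs
import Pool.Agent.Lib_helper10.T2F.AIT
import Pool.Agent.Lib_helper10.T2F.ANX
import Pool.Agent.Lib_helper10.T2F.AWD
import Pool.Agent.Lib_helper10.T2F.AWI
import Pool.Agent.Lib_helper10.T2F.AFH
import Pool.Agent.Lib_helper10.T2F.AFR
import Pool.Agent.Lib_helper10.T2F.APK
import Pool.Agent.Lib_helper10.T2F.APH
import Pool.Agent.Lib_helper10.T2F.ARE
import Pool.Agent.Lib_helper10.T2F.AQA
import Pool.Agent.Lib_helper10.T2F.BAS

/-! T2', general weights: words, bounds for the correlation and the observable, pairs -/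

namespace Pool.Agent.T2

open Filter Topology

theorem word_FC (ω : ℕ → ℕ → ℝ) (p : ℕ) {N L Y : ℕ} {u u' : G} (hu : u ∈ PN Y) (hu' : u' ∈ PN Y)
    (h : Wd (nx Y) (ltr N Y) L u = Wd (nx Y) (ltr N Y) L u')
    (hs : Wd (nx Y) sgb L u = Wd (nx Y) sgb L u') (a : ℕ) (ha : a < L / 2) :
    FC ω N L Y p (it Y a u) = FC ω N L Y p (it Y a u') := by
  unfold FC
  refine Finset.sum_congr rfl fun m hm => ?_
  rw [Finset.mem_Icc] at hm
  rw [← it_add, ← it_add, word_det hu hu' h a (m + a) (by omega) (by omega),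
    word_cell h a (by omega), word_cell h (m + a) (by omega),
    word_sign hu hu' hs a (by omega), word_sign hu hu' hs (m + a) (by omega)]

theorem word_Pc (ω : ℕ → ℕ → ℝ) (B M p : ℕ) {N L Y : ℕ} {u u' : G} (hu : u ∈ PN Y) (hu' : u' ∈ PN Y)
    (h : Wd (nx Y) (ltr N Y) L u = Wd (nx Y) (ltr N Y) L u')
    (hs : Wd (nx Y) sgb L u = Wd (nx Y) sgb L u') (t : ℤ × ℤ) :
    Pc ω B N M L Y p u t = Pc ω B N M L Y p u' t := by
  unfold Pc
  have hT := word_Tm B M hu hu' h
  by_cases hu1 : Tm B N M L Y u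
  · rw [if_pos hu1, if_pos (hT.mp hu1)]
    congr 1
    refine Finset.sum_congr rfl fun a ha => ?_
    rw [Finset.mem_range] at ha
    have e1 : ∀ v : G, nx Y v = it Y 1 v := fun v => by rw [it_succ, it_zero]
    have e0 := word_det hu hu' h 0 a (by omega) (by omega)
    rw [it_zero, it_zero] at e0
    rw [word_FC ω p hu hu' h hs a ha, e1, e1,
      word_det hu hu' h a 1 (by omega) (by omega), e0]
  · rw [if_neg hu1, if_neg (fun h' => hu1 (hT.mpr h'))]

theorem FC_ne {B N : ℕ} {ω : ℕ → ℕ → ℝ} (hω : WOK B N ω) {L Y p : ℕ} {u : G}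
    (h : FC ω N L Y p u ≠ 0) : N ≤ B * ce N Y u := by
  classical
  unfold FC at h
  obtain ⟨m, _, hm⟩ := Finset.exists_ne_zero_of_sum_ne_zero h
  split_ifs at hm with hd
  · exact (hω.supp _ _ (left_ne_zero_of_mul hm)).1
  · exact absurd rfl hm

theorem FC_le {B N : ℕ} {ω : ℕ → ℕ → ℝ} (hω : WOK B N ω) {L Y p : ℕ} {u : G} (hB : 1 ≤ B)
    (hN : 1 ≤ N)
    (hL : 16 * (L + 1) ^ 2 ≤ Y) (hu : u ∈ PN Y) :
    |FC ω N L Y p u| ≤ 2 * (B : ℝ) := by
  classical
  have hB' : (1 : ℝ) ≤ B := by exact_mod_cast hB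
  have hnu : (0 : ℤ) < nn u := by
    have := nn_pos.mpr (prm_ne (mem_PN.mp hu).1)
    exact_mod_cast this
  have hwin : ∀ m ∈ Finset.Icc 1 (L / 2), 0 < det u (it Y m u) ∧ 0 < ip u (it Y m u) := by
    intro m hm
    rw [Finset.mem_Icc] at hm
    have h := nx_window hu L hL 0 m (by omega) (by omega)
    rw [it_zero] at h
    exact ⟨h.1, h.2.1⟩
  unfold FC
  set S := (Finset.Icc 1 (L / 2)).filter (fun m => det u (it Y m u) = (p : ℤ) ∧
    ω (ce N Y u) (ce N Y (it Y m u)) ≠ 0) with hS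
  have h1 : |∑ m ∈ Finset.Icc 1 (L / 2), if det u (it Y m u) = (p : ℤ) then
      ω (ce N Y u) (ce N Y (it Y m u)) * (gl u * gl (it Y m u)) else 0| ≤
      ∑ m ∈ Finset.Icc 1 (L / 2), (if det u (it Y m u) = (p : ℤ) ∧
        ω (ce N Y u) (ce N Y (it Y m u)) ≠ 0 then (1 : ℝ) else 0) := by
    refine (Finset.abs_sum_le_sum_abs _ _).trans (Finset.sum_le_sum fun m _ => ?_)
    by_cases hd : det u (it Y m u) = (p : ℤ)
    · rw [if_pos hd]
      by_cases hw : ω (ce N Y u) (ce N Y (it Y m u)) = 0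
      · rw [hw]
        simp
      · rw [if_pos ⟨hd, hw⟩, abs_mul, abs_mul]
        have h3 := hω.bd (ce N Y u) (ce N Y (it Y m u))
        have h4 : |gl u| * |gl (it Y m u)| ≤ 1 :=
          mul_le_one₀ (gl_abs u) (abs_nonneg _) (gl_abs _)
        calc |ω (ce N Y u) (ce N Y (it Y m u))| * (|gl u| * |gl (it Y m u)|) ≤
            1 * 1 := mul_le_mul h3 h4 (by positivity) (by positivity)
          _ = 1 := mul_one _
    · rw [if_neg hd, if_neg (fun h => hd h.1)]
      simp
  refine h1.trans ?_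
  rw [← Finset.sum_filter, Finset.sum_const, nsmul_eq_mul]
  have hcard : S.card ≤ B + 1 := by
    rw [← Finset.card_range (B + 1)]
    refine Finset.card_le_card_of_injOn
      (fun m => (ip u (it Y m u) / (nn u : ℤ)).toNat) ?_ ?_
    · intro m hm
      rw [Finset.mem_coe, hS, Finset.mem_filter] at hm
      obtain ⟨hm1, hd, hw⟩ := hm
      rw [Finset.coe_range, Set.mem_Iio]
      have hi := (hwin m hm1).2
      have h2 : N ≤ B * ce N Y u := (hω.supp _ _ hw).1
      -- `Y ≤ B nn u`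
      have hYB : (Y : ℤ) ≤ B * nn u := by
        have h3 : ce N Y u * Y ≤ N * nn u := by
          unfold ce
          exact Nat.div_mul_le_self _ _
        have h4 : N * Y ≤ N * (B * nn u) := by
          calc N * Y ≤ B * ce N Y u * Y := Nat.mul_le_mul_right _ h2
            _ = B * (ce N Y u * Y) := by ring
            _ ≤ B * (N * nn u) := Nat.mul_le_mul_left _ h3
            _ = N * (B * nn u) := by ring
        have h5 := Nat.le_of_mul_le_mul_left h4 (by omega)
        exact_mod_cast h5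
      have hipY : ip u (it Y m u) ≤ Y := by
        have h6 := ip_sq_add u (it Y m u)
        have h7 : (nn u : ℤ) ≤ Y := by exact_mod_cast (mem_PN.mp hu).2
        have h8 : (nn (it Y m u) : ℤ) ≤ Y := by exact_mod_cast (mem_PN.mp (it_mem hu m)).2
        have h9 : (nn u : ℤ) * nn (it Y m u) ≤ Y * Y :=
          mul_le_mul h7 h8 (by positivity) (by positivity)
        have h10 : ip u (it Y m u) ^ 2 ≤ (Y : ℤ) ^ 2 := by nlinarith [sq_nonneg (det u (it Y m u))]
        exact abs_le_of_sq_le_sq' h10 (by positivity) |>.2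
      have h11 : ip u (it Y m u) / (nn u : ℤ) ≤ B := by
        refine (Int.ediv_le_ediv hnu (hipY.trans hYB)).trans ?_
        rw [Int.mul_ediv_cancel _ hnu.ne']
      show (ip u (it Y m u) / (nn u : ℤ)).toNat < B + 1
      omega
    · intro m hm m' hm' heq
      rw [Finset.mem_coe, hS, Finset.mem_filter] at hm hm'
      obtain ⟨hm1, hd, hw⟩ := hm
      obtain ⟨hm1', hd', hw'⟩ := hm'
      have hi := (hwin m hm1).2
      have hi' := (hwin m' hm1').2
      simp only at heq
      have hq : ip u (it Y m u) / (nn u : ℤ) = ip u (it Y m' u) / (nn u : ℤ) := by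
        have h2 : 0 ≤ ip u (it Y m u) / (nn u : ℤ) := Int.ediv_nonneg hi.le hnu.le
        have h3 : 0 ≤ ip u (it Y m' u) / (nn u : ℤ) := Int.ediv_nonneg hi'.le hnu.le
        omega
      have hz : det u (it Y m u - it Y m' u) = 0 := by
        have : det u (it Y m u - it Y m' u) = det u (it Y m u) - det u (it Y m' u) := by
          unfold det
          simp only [Zsqrtd.re_sub, Zsqrtd.im_sub]
          ring
        rw [this, hd, hd', sub_self]
      obtain ⟨j, hj⟩ := afh_mult (mem_PN.mp hu).1 hz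
      have hj' : it Y m u = it Y m' u + (j : G) * u := by rw [← hj]; ring
      rw [hj', afh_ip, Int.add_mul_ediv_right _ _ hnu.ne'] at hq
      have hj0 : j = 0 := by linarith
      rw [hj0] at hj'
      simp only [Int.cast_zero, zero_mul, add_zero] at hj'
      rw [Finset.mem_Icc] at hm1 hm1'
      have hself : ∀ a : G, det a a = 0 := by
        intro a
        unfold det
        ring
      rcases lt_trichotomy m m' with h | h | h
      · have := (nx_window hu L hL m m' h (by omega)).1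
        rw [hj', hself] at this
        exact absurd this (lt_irrefl 0)
      · exact h
      · have := (nx_window hu L hL m' m h (by omega)).1
        rw [hj', hself] at this
        exact absurd this (lt_irrefl 0)
  have hcard' : (S.card : ℝ) ≤ B + 1 := by exact_mod_cast hcard
  calc (S.card : ℝ) * 1 ≤ B + 1 := by rw [mul_one]; exact hcard'
    _ ≤ 2 * (B : ℝ) := by linarith

theorem Pc_zero (ω : ℕ → ℕ → ℝ) {B N M L Y p : ℕ} {u : G} (hp : p.Prime) (hu : u ∈ PN Y) :
    ∑ t ∈ Ep p, Pc ω B N M L Y p u t = 0 := by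
  classical
  unfold Pc
  by_cases hT : Tm B N M L Y u
  · simp only [hT, if_true]
    rw [← Finset.mul_sum, Finset.sum_comm]
    have h : ∀ a ∈ Finset.range (L / 2), ∑ t ∈ Ep p, FC ω N L Y p (it Y a u) *
      ((if (p : ℤ) ∣ det (it Y a u) (nx Y u) * t.1 + det u (it Y a u) * t.2
        then (p : ℝ) + 1 else 0) - 1) = 0 := by
      intro a _
      rw [← Finset.mul_sum, Finset.sum_sub_distrib, ← Finset.sum_filter, Finset.sum_const,
        Finset.sum_const]
      have hc := aph_coprime hu (it_mem hu a)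
      obtain ⟨h1, h2⟩ := Ep_count hp _ _ hc
      have h2' : ((Ep p).filter (fun t : ℤ × ℤ => (p : ℤ) ∣ det (it Y a u) (nx Y u) * t.1 +
          det u (it Y a u) * t.2)).card = p - 1 := by
        convert h2
      rw [h1, h2']
      have hp1 : 1 ≤ p := hp.one_lt.le
      have hp2 : 1 ≤ p ^ 2 := Nat.one_le_pow _ _ hp1
      rw [nsmul_eq_mul, nsmul_eq_mul, Nat.cast_sub hp1, Nat.cast_sub hp2]
      push_cast
      ring
    rw [Finset.sum_eq_zero h, mul_zero]
  · simp only [hT, if_false, Finset.sum_const_zero]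

open Classical in
theorem Pc_value (ω : ℕ → ℕ → ℝ) {B N M L Y : ℕ} {Q : Finset ℕ} (hQ : Pset Q) {u : G}
    (hu : u ∈ PN Y) (p : Q) : Pc ω B N M L Y (p : ℕ) u (fr Q Y u p) =
      if Tm B N M L Y u then (1 / ((L / 2 : ℕ) : ℝ)) * ∑ a ∈ Finset.range (L / 2),
        FC ω N L Y (p : ℕ) (it Y a u) * th (p : ℕ) (it Y a u) else 0 := by
  unfold Pc th
  simp only [fr_div hQ hu p]

theorem Pc_le {B N : ℕ} {ω : ℕ → ℕ → ℝ} (hω : WOK B N ω) {M L Y p : ℕ} {u : G} (hB : 1 ≤ B)
    (hN : 1 ≤ N) (hM : 1 ≤ M)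
    (hL2 : 2 ≤ L) (hp : p.Prime) (hpL : p ≤ L) (hL : 16 * (L + 1) ^ 2 ≤ Y) (hu : u ∈ PN Y)
    {t : ℤ × ℤ} (ht : t ∈ Ep p) : |Pc ω B N M L Y p u t| ≤ 100 * (B : ℝ) ^ 2 * M := by
  classical
  have hB1 : (1 : ℝ) ≤ B := by exact_mod_cast hB
  have hM1 : (1 : ℝ) ≤ M := by exact_mod_cast hM
  unfold Pc
  by_cases hT : Tm B N M L Y u
  · rw [if_pos hT]
    set H : ℕ := L / 2 with hH
    have hH1 : 1 ≤ H := by omega
    have hLH : L ≤ 3 * H := by omega
    have hHr : (1 : ℝ) ≤ H := by exact_mod_cast hH1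
    have hLr : (L : ℝ) ≤ 3 * H := by exact_mod_cast hLH
    have hpr : (p : ℝ) ≤ 3 * H := le_trans (by exact_mod_cast hpL) hLr
    have hp0 : (0 : ℝ) < p := by exact_mod_cast hp.pos
    have hp1 : (1 : ℝ) ≤ p := by exact_mod_cast hp.one_lt.le
    set D : ℕ → Prop := fun a => (p : ℤ) ∣ det (it Y a u) (nx Y u) * t.1 +
      det u (it Y a u) * t.2 with hD
    set S : Finset ℕ := (Finset.range H).filter
      (fun a => D a ∧ FC ω N L Y p (it Y a u) ≠ 0) with hS
    have hpack := packing hB hN hp.one_lt.le hL hu hT S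
      (by
        intro i hi
        rw [hS, Finset.mem_filter, Finset.mem_range] at hi
        exact ⟨by omega, FC_ne hω hi.2.2⟩)
      (by
        intro i hi j hj
        rw [hS, Finset.mem_filter, Finset.mem_range] at hi hj
        rw [aph_det hu]
        exact Ep_pair hp ht hi.2.1 hj.2.1)
    have hterm : ∀ a ∈ Finset.range H, |FC ω N L Y p (it Y a u) *
        ((if D a then (p : ℝ) + 1 else 0) - 1)| ≤
        2 * (B : ℝ) + if (D a ∧ FC ω N L Y p (it Y a u) ≠ 0) then 2 * (B : ℝ) * p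
          else 0 := by
      intro a ha
      have h1 := FC_le hω (p := p) hB hN hL (it_mem hu a)
      have h0 : (0 : ℝ) ≤ 2 * (B : ℝ) := by positivity
      rw [abs_mul]
      by_cases hDa : D a
      · by_cases hF : FC ω N L Y p (it Y a u) = 0
        · rw [hF]
          simp only [abs_zero, zero_mul, ne_eq, not_true_eq_false, and_false, if_false, add_zero]
          exact h0
        · rw [if_pos hDa, if_pos ⟨hDa, hF⟩]
          have h2 : |(p : ℝ) + 1 - 1| = p := by
            rw [add_sub_cancel_right, abs_of_pos hp0]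
          rw [h2]
          have h3 := mul_le_mul_of_nonneg_right h1 hp0.le
          linarith
      · rw [if_neg hDa, if_neg (fun h => hDa h.1)]
        have h2 : |(0 : ℝ) - 1| = 1 := by norm_num
        rw [h2, mul_one, add_zero]
        exact h1
    have hsum : |∑ a ∈ Finset.range H, FC ω N L Y p (it Y a u) *
        ((if D a then (p : ℝ) + 1 else 0) - 1)| ≤
        H * (2 * (B : ℝ)) + S.card * (2 * (B : ℝ) * p) := by
      refine (Finset.abs_sum_le_sum_abs _ _).trans ((Finset.sum_le_sum hterm).trans ?_)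
      rw [Finset.sum_add_distrib, ← Finset.sum_filter, Finset.sum_const, Finset.sum_const,
        Finset.card_range, nsmul_eq_mul, nsmul_eq_mul]
    have hSp : (S.card : ℝ) * p ≤ p + 2 * B * M * L := by
      have h3 := mul_le_mul_of_nonneg_right hpack hp0.le
      refine h3.trans (le_of_eq ?_)
      field_simp
    have hfin : H * (2 * (B : ℝ)) + S.card * (2 * (B : ℝ) * p) ≤
        100 * (B : ℝ) ^ 2 * M * H := by
      have h4 : S.card * (2 * (B : ℝ) * p) = 2 * (B : ℝ) * (S.card * p) := by ring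
      rw [h4]
      have h5 : 2 * (B : ℝ) * (S.card * p) ≤ 2 * (B : ℝ) * (3 * H + 2 * B * M * (3 * H)) := by
        apply mul_le_mul_of_nonneg_left _ (by positivity)
        have h6 : 2 * (B : ℝ) * M * L ≤ 2 * B * M * (3 * H) :=
          mul_le_mul_of_nonneg_left hLr (by positivity)
        linarith
      have h7 : (1 : ℝ) ≤ B * M := by nlinarith
      have h8 : 0 ≤ (B : ℝ) * H := by positivity
      have h9 : (B : ℝ) * H ≤ (B : ℝ) * H * (B * M) := by nlinarith
      nlinarith
    rw [abs_mul, abs_of_nonneg (by positivity)]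
    have h10 : (1 / (H : ℝ)) * |∑ a ∈ Finset.range H, FC ω N L Y p (it Y a u) *
        ((if D a then (p : ℝ) + 1 else 0) - 1)| ≤ (1 / (H : ℝ)) * (100 * (B : ℝ) ^ 2 * M * H) :=
      mul_le_mul_of_nonneg_left (hsum.trans hfin) (by positivity)
    refine h10.trans (le_of_eq ?_)
    field_simp
  · rw [if_neg hT, abs_zero]
    positivity

open Classical in
theorem fcp_FC {B N : ℕ} {ω : ℕ → ℕ → ℝ} (hω : WOK B N ω) {L Y p : ℕ} (hB : 1 ≤ B)
    (hN : 1 ≤ N) (hp : 1 ≤ p)
    (hpL : 2 * p * B ≤ L / 2) (hL : 16 * (L + 1) ^ 2 ≤ Y) {u : G} (hu : u ∈ PN Y) :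
    FC ω N L Y p u =
      ∑ w ∈ (PN Y).filter (fun w => det u w = (p : ℤ) ∧ 0 < ip u w),
        ω (ce N Y u) (ce N Y w) * (gl u * gl w) := by
  have hinj : Set.InjOn (fun m => it Y m u)
      (((Finset.Icc 1 (L / 2)).filter (fun m => det u (it Y m u) = (p : ℤ)) : Finset ℕ) : Set ℕ) := by
    have key : ∀ m m' : ℕ, m < m' → m' ≤ L → it Y m u ≠ it Y m' u := by
      intro m m' h1 h2 h3
      have := (nx_window hu L hL m m' h1 h2).1
      rw [h3] at this
      have h0 : det (it Y m' u) (it Y m' u) = 0 := by unfold det; ring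
      omega
    intro m hm m' hm' h
    simp only [Finset.coe_filter, Finset.mem_Icc, Set.mem_ofPred_eq] at hm hm'
    have hL2 : L / 2 ≤ L := Nat.div_le_self _ _
    rcases lt_trichotomy m m' with h1 | h1 | h1
    · exact absurd h (key m m' h1 (by omega))
    · exact h1
    · exact absurd h.symm (key m' m h1 (by omega))
  unfold FC
  rw [← Finset.sum_filter]
  rw [← Finset.sum_image (s := (Finset.Icc 1 (L / 2)).filter (fun m => det u (it Y m u) = (p : ℤ)))
    (g := fun m => it Y m u) (f := fun w => ω (ce N Y u) (ce N Y w) * (gl u * gl w)) hinj]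
  apply Finset.sum_subset
  · intro w hw
    rw [Finset.mem_image] at hw
    obtain ⟨m, hm, rfl⟩ := hw
    rw [Finset.mem_filter, Finset.mem_Icc] at hm
    rw [Finset.mem_filter]
    refine ⟨it_mem hu m, hm.2, ?_⟩
    have hL2 : L / 2 ≤ L := Nat.div_le_self _ _
    have := (nx_window hu L hL 0 m (by omega) (by omega)).2.1
    rwa [it_zero] at this
  · intro w hw hw'
    rw [Finset.mem_filter] at hw
    obtain ⟨hw1, hw2, hw3⟩ := hw
    by_contra hne
    have hwt : ω (ce N Y u) (ce N Y w) ≠ 0 := by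
      intro h0
      apply hne
      rw [h0, zero_mul]
    have hc := hω.supp _ _ hwt
    · have h1 : Y ≤ B * nn u := aqa_ce hN hc.1
      have h2 : Y ≤ B * nn w := aqa_ce hN hc.2.1
      obtain ⟨m, hm1, hm2, hm3⟩ := nx_reach hu hw1 p B hp hB hw2 hw3.le h1 h2
      apply hw'
      rw [Finset.mem_image]
      refine ⟨m, ?_, hm3⟩
      rw [Finset.mem_filter, Finset.mem_Icc]
      refine ⟨⟨hm1, hm2.trans hpL⟩, ?_⟩
      rw [hm3]; exact hw2

open Classical in
theorem FC_pairs {B N : ℕ} {ω : ℕ → ℕ → ℝ} (hω : WOK B N ω) {L Y p : ℕ} (hB : 1 ≤ B)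
    (hN : 1 ≤ N) (hp : 1 ≤ p)
    (hpL : 2 * p * B ≤ L / 2) (hL : 16 * (L + 1) ^ 2 ≤ Y) (θ : G → ℝ) :
    ∑ u ∈ PN Y, θ u * FC ω N L Y p u =
      ∑ t ∈ (PN Y ×ˢ PN Y).filter (fun t => det t.1 t.2 = (p : ℤ) ∧ 0 < ip t.1 t.2),
        θ t.1 * (ω (ce N Y t.1) (ce N Y t.2) * (gl t.1 * gl t.2)) := by
  rw [Finset.sum_filter, Finset.sum_product]
  apply Finset.sum_congr rfl
  intro u hu
  rw [fcp_FC hω hB hN hp hpL hL hu, Finset.mul_sum, Finset.sum_filter]

end Pool.Agent.T2
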