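import Pool.Agent.Lib_helper39.TB.Defs
import Pool.Agent.Lib_helper10.T2F.AQT
import Pool.Agent.Lib_helper10.T2F.AWB
import Pool.Agent.Lib_helper10.T2F.AST
import Pool.Agent.Lib_helper10.T2F.CNT
import Pool.Agent.Lib_helper10.T2F.ZBI

/-! T2', counting lemmas -/

namespace Pool.Agent.T2

open Filter Topology

theorem tcb_swap_det (u v : G) : det v u = -det u v := by
  unfold det; ring

theorem tcb_swap_ip (u v : G) : ip v u = ip u v := by
  unfold ip; ring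

theorem tcb_col {B Y : ℕ} (D : ℤ) (T : Finset (G × G)) (V : Finset G)
    (hT : ∀ t ∈ T, t.2 ∈ V ∧ t.1 ∈ PN Y ∧ t.2 ∈ PN Y ∧ det t.1 t.2 = D ∧ 0 < ip t.1 t.2 ∧
      Y ≤ B * nn t.2) : T.card ≤ (B + 1) * V.card := by
  classical
  have h1 : (T.image Prod.swap).card = T.card :=
    Finset.card_image_of_injective _ Prod.swap_injective
  rw [← h1]
  refine aqt_card (Y := Y) (-D) _ V fun t ht => ?_
  rw [Finset.mem_image] at ht
  obtain ⟨s, hs, rfl⟩ := ht
  obtain ⟨a1, a2, a3, a4, a5, a6⟩ := hT s hs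
  refine ⟨a1, a3, a2, ?_, ?_, a6⟩
  · show det s.2 s.1 = -D
    rw [tcb_swap_det, a4]
  · show 0 < ip s.2 s.1
    rw [tcb_swap_ip]
    exact a5

/-- the elements of `PN Y` which are multiples of `d` -/
theorem tcb_multiples {C : ℝ} (hC : ∀ x : ℝ, 0 ≤ x → ((Bl x).card : ℝ) ≤ C * x) {d : G}
    (hd : d ≠ 0) (Y : ℕ) (V : Finset G) (hV : ∀ v ∈ V, v ∈ PN Y ∧ d ∣ v) :
    (V.card : ℝ) ≤ C * (Y / nn d) := by
  classical
  have hp0 : (0 : ℝ) < nn d := by exact_mod_cast nn_pos.2 hd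
  have h1 : V ⊆ (Bl ((Y : ℝ) / nn d)).image (fun w => d * w) := by
    intro v hv
    obtain ⟨h2, w, rfl⟩ := hV v hv
    rw [Finset.mem_image]
    refine ⟨w, ?_, rfl⟩
    obtain ⟨h3, h5⟩ := mem_PN.1 h2
    rw [mem_Bl]
    refine ⟨fun h => prm_ne h3 (by rw [h, mul_zero]), ?_⟩
    rw [nn_mul] at h5
    rw [le_div_iff₀ hp0, mul_comm]
    exact_mod_cast h5
  calc (V.card : ℝ) ≤ ((Bl ((Y : ℝ) / nn d)).image (fun w => d * w)).card := by
        exact_mod_cast Finset.card_le_card h1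
    _ ≤ (Bl ((Y : ℝ) / nn d)).card := by exact_mod_cast Finset.card_image_le
    _ ≤ _ := hC _ (by positivity)

/-- two reals with different integer parts have an integer between them -/
theorem tcb_floor {a b n m : ℕ} (hn : 0 < n) (hm : 0 < m) (h : a / n ≠ b / m) :
    ∃ j : ℤ, |(a : ℝ) / n - (j : ℝ)| ≤ |(b : ℝ) / m - (a : ℝ) / n| := by
  have hn0 : (0 : ℝ) < n := by exact_mod_cast hn
  have hm0 : (0 : ℝ) < m := by exact_mod_cast hm
  have a1 : (a : ℝ) < ((a / n : ℕ) + 1) * n := by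
    have : a < (a / n + 1) * n := by
      rw [mul_comm]; exact Nat.lt_mul_div_succ a hn
    exact_mod_cast this
  have a2 : ((a / n : ℕ) : ℝ) * n ≤ a := by
    exact_mod_cast Nat.div_mul_le_self a n
  have b1 : (b : ℝ) < ((b / m : ℕ) + 1) * m := by
    have : b < (b / m + 1) * m := by
      rw [mul_comm]; exact Nat.lt_mul_div_succ b hm
    exact_mod_cast this
  have b2 : ((b / m : ℕ) : ℝ) * m ≤ b := by
    exact_mod_cast Nat.div_mul_le_self b m
  rw [← div_lt_iff₀ hn0] at a1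
  rw [← le_div_iff₀ hn0] at a2
  rw [← div_lt_iff₀ hm0] at b1
  rw [← le_div_iff₀ hm0] at b2
  rcases lt_or_gt_of_ne h with h | h
  · refine ⟨((b / m : ℕ) : ℤ), ?_⟩
    have h' : ((a / n : ℕ) : ℝ) + 1 ≤ ((b / m : ℕ) : ℝ) := by exact_mod_cast h
    rw [Int.cast_natCast, abs_sub_comm, abs_of_nonneg (by linarith), abs_of_nonneg (by linarith)]
    linarith
  · refine ⟨((a / n : ℕ) : ℤ), ?_⟩
    have h' : ((b / m : ℕ) : ℝ) + 1 ≤ ((a / n : ℕ) : ℝ) := by exact_mod_cast h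
    rw [Int.cast_natCast, abs_of_nonneg (by linarith), abs_sub_comm,
      abs_of_nonneg (by linarith)]
    linarith

/-- the weight is supported on large elements -/
theorem tcb_large {B N Y c : ℕ} (hN : 1 ≤ N) {v : G} (h : N ≤ B * c) (hc : c = N * nn v / Y) :
    Y ≤ B * nn v := by
  subst hc
  have h1 : N * nn v / Y * Y ≤ N * nn v := Nat.div_mul_le_self _ _
  have h2 : N * Y ≤ N * (B * nn v) := by
    calc N * Y ≤ (B * (N * nn v / Y)) * Y := Nat.mul_le_mul_right _ h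
      _ = B * (N * nn v / Y * Y) := by ring
      _ ≤ B * (N * nn v) := Nat.mul_le_mul_left _ h1
      _ = N * (B * nn v) := by ring
  exact Nat.le_of_mul_le_mul_left h2 (by omega)

/-- weighted sums which are eventually small -/
theorem tcb_tail (F : ℕ → ℝ) (ε : ℝ) (hε : 0 < ε) (Y₀ : ℕ) (h : ∀ Y : ℕ, Y₀ ≤ Y → F Y ≤ ε * Y) :
    ∃ X₀ : ℕ, ∀ X : ℕ, X₀ ≤ X → ∑ Y ∈ Finset.Icc 1 X, F Y / (Y : ℝ) ^ 2 ≤ 3 * ε * Real.log X := by
  set A : ℝ := ∑ Y ∈ Finset.range Y₀, |F Y| / (Y : ℝ) ^ 2 with hA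
  have hA0 : 0 ≤ A := Finset.sum_nonneg fun _ _ => by positivity
  obtain ⟨X₀, hX₀⟩ := exists_nat_gt (Real.exp (A / ε + 1))
  refine ⟨max X₀ 1, fun X hX => ?_⟩
  have hX1 : 1 ≤ X := le_trans (le_max_right _ _) hX
  have hX0 : (0 : ℝ) < X := by exact_mod_cast hX1
  have hXX : Real.exp (A / ε + 1) < X :=
    lt_of_lt_of_le hX₀ (by exact_mod_cast le_trans (le_max_left _ _) hX)
  have hlog : A / ε + 1 < Real.log X := by rwa [Real.lt_log_iff_exp_lt hX0]
  have hAe : A ≤ ε * (Real.log X - 1) := by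
    have : A / ε ≤ Real.log X - 1 := by linarith
    rw [div_le_iff₀ hε] at this
    linarith
  have h1 : ∀ Y ∈ Finset.Icc 1 X, F Y / (Y : ℝ) ^ 2 ≤
      (if Y < Y₀ then |F Y| / (Y : ℝ) ^ 2 else 0) + ε * (1 / (Y : ℝ)) := by
    intro Y hY
    rw [Finset.mem_Icc] at hY
    have hY0 : (0 : ℝ) < Y := by exact_mod_cast hY.1
    have h2 : 0 ≤ ε * (1 / (Y : ℝ)) := by positivity
    by_cases hc : Y < Y₀
    · rw [if_pos hc]
      have : F Y / (Y : ℝ) ^ 2 ≤ |F Y| / (Y : ℝ) ^ 2 := by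
        gcongr
        exact le_abs_self _
      linarith
    · rw [if_neg hc, zero_add, div_le_iff₀ (by positivity)]
      have h3 := h Y (not_lt.1 hc)
      calc F Y ≤ ε * Y := h3
        _ = ε * (1 / Y) * Y ^ 2 := by field_simp
  refine (Finset.sum_le_sum h1).trans ?_
  rw [Finset.sum_add_distrib, ← Finset.mul_sum]
  have h4 : ∑ Y ∈ Finset.Icc 1 X, (if Y < Y₀ then |F Y| / (Y : ℝ) ^ 2 else 0) ≤ A := by
    rw [← Finset.sum_filter, hA]
    refine Finset.sum_le_sum_of_subset_of_nonneg (fun Y hY => ?_) fun _ _ _ => by positivity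
    rw [Finset.mem_filter] at hY
    exact Finset.mem_range.2 hY.2
  have h5 : ∑ Y ∈ Finset.Icc 1 X, 1 / (Y : ℝ) ≤ 1 + Real.log X := by
    have h6 := harmonic_le_one_add_log X
    rw [harmonic_eq_sum_Icc] at h6
    push_cast at h6
    simpa [one_div] using h6
  have h7 : ε * ∑ Y ∈ Finset.Icc 1 X, 1 / (Y : ℝ) ≤ ε * (1 + Real.log X) :=
    mul_le_mul_of_nonneg_left h5 hε.le
  have hl0 : 0 < Real.log X := by
    have : 0 ≤ A / ε := by positivity
    linarith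
  nlinarith

end Pool.Agent.T2
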