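import Pool.Agent.Lib_helper39.TB.Defs
import Pool.Agent.Lib_helper39.TB.TCB
import Pool.Agent.Lib_helper10.T2F.BFI
import Pool.Agent.Lib_helper10.T2F.AST
import Pool.Agent.Lib_helper10.T2F.ZBI

/-!
# T2', block TBW: the weighted correlation sums over the primes of `QP η P` are small on average
(MP_892e4c_nt)
-/

namespace Pool.Agent.T2

open Filter Topology

theorem tbw_min {ι : Type*} (S : Finset ι) (f : ι → ℝ) (hf : ∀ i ∈ S, 0 < f i) :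
    ∃ δ : ℝ, 0 < δ ∧ ∀ i ∈ S, δ ≤ f i := by
  classical
  rcases S.eq_empty_or_nonempty with rfl | hS
  · exact ⟨1, one_pos, fun i hi => absurd hi (Finset.notMem_empty i)⟩
  · obtain ⟨i, hi, h⟩ := S.exists_min_image f hS
    exact ⟨f i, hf i hi, h⟩

theorem tbw_max {ι : Type*} (S : Finset ι) (f : ι → ℕ) :
    ∃ M : ℕ, ∀ i ∈ S, f i ≤ M := ⟨S.sup f, fun _ hi => Finset.le_sup hi⟩

/-- the cell with respect to `(c/N, (c+1)/N]` -/
def cu (N Y : ℕ) (u : G) : ℕ := (N * nn u - 1) / Y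

theorem tbw_cel {N Y c : ℕ} (hN : 1 ≤ N) (hY : 1 ≤ Y) {u : G} (hu : u ∈ PN Y) :
    u ∈ Cel ((c : ℝ) / N) (((c : ℝ) + 1) / N) Y ↔ cu N Y u = c := by
  have hN0 : (0 : ℝ) < N := by exact_mod_cast hN
  have hu1 : 1 ≤ nn u := nn_pos.2 (prm_ne (mem_PN.1 hu).1)
  have h1 : 1 ≤ N * nn u := Nat.mul_pos hN hu1
  have hu' : u ∈ PB (Y : ℝ) := hu
  unfold Cel cu
  rw [Finset.mem_filter]
  have e1 : (c : ℝ) / N * Y < nn u ↔ c * Y < N * nn u := by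
    rw [div_mul_eq_mul_div, div_lt_iff₀ hN0]
    constructor
    · intro h
      have : ((c * Y : ℕ) : ℝ) < ((N * nn u : ℕ) : ℝ) := by push_cast; linarith
      exact_mod_cast this
    · intro h
      have : ((c * Y : ℕ) : ℝ) < ((N * nn u : ℕ) : ℝ) := by exact_mod_cast h
      push_cast at this; linarith
  have e2 : (nn u : ℝ) ≤ ((c : ℝ) + 1) / N * Y ↔ N * nn u ≤ (c + 1) * Y := by
    rw [div_mul_eq_mul_div, le_div_iff₀ hN0]
    constructor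
    · intro h
      have : ((N * nn u : ℕ) : ℝ) ≤ (((c + 1) * Y : ℕ) : ℝ) := by push_cast; linarith
      exact_mod_cast this
    · intro h
      have : ((N * nn u : ℕ) : ℝ) ≤ (((c + 1) * Y : ℕ) : ℝ) := by exact_mod_cast h
      push_cast at this; linarith
  rw [e1, e2, Nat.div_eq_iff (by omega)]
  constructor
  · rintro ⟨-, h2, h3⟩
    have e4 : (c + 1) * Y = c * Y + Y := by ring
    exact ⟨by omega, by omega⟩
  · rintro ⟨h2, h3⟩
    have e4 : (c + 1) * Y = c * Y + Y := by ring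
    refine ⟨hu', by omega, by omega⟩

theorem tbw_cu_le (N Y : ℕ) (u : G) : cu N Y u ≤ ce N Y u :=
  Nat.div_le_div_right (Nat.sub_le _ _)

theorem tbw_exc {N Y : ℕ} (hY : 1 ≤ Y) {u : G} (h : ce N Y u ≠ cu N Y u) {δ : ℝ}
    (hδ : 1 / (Y : ℝ) ≤ δ) : ∃ j : ℤ, |(N : ℝ) * (nn u : ℝ) / (Y : ℝ) - (j : ℝ)| ≤ δ := by
  obtain ⟨j, hj⟩ := tcb_floor (n := Y) (m := Y) hY hY h
  refine ⟨j, ?_⟩
  have h1 : 1 ≤ N * nn u := by
    by_contra hc
    have : N * nn u = 0 := by omega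
    exact h (by unfold ce cu; rw [this])
  have h2 : ((N * nn u - 1 : ℕ) : ℝ) / Y - ((N * nn u : ℕ) : ℝ) / Y = -(1 / (Y : ℝ)) := by
    rw [Nat.cast_sub h1]
    push_cast
    ring
  rw [h2, abs_neg, abs_of_nonneg (by positivity : (0 : ℝ) ≤ 1 / (Y : ℝ))] at hj
  push_cast at hj
  exact hj.trans hδ

open Classical in
/-- all the pairs -/
noncomputable def tbwT (B : Finset ℕ) (Y : ℕ) : Finset (G × G) :=
  (PN Y ×ˢ PN Y).filter (fun t => 0 < ip t.1 t.2 ∧ ∃ p ∈ B, det t.1 t.2 = (p : ℤ))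

open Classical in
theorem tbw_BQ (a b a' b' : ℝ) (B : Finset ℕ) (Y : ℕ) : BQ a b a' b' B Y =
    ∑ t ∈ tbwT B Y, if t.1 ∈ Cel a b Y ∧ t.2 ∈ Cel a' b' Y then gl t.1 * gl t.2 else 0 := by
  unfold BQ
  have h1 : ∑ u ∈ Cel a b Y, ∑ w ∈ (Cel a' b' Y).filter (fun w => 0 < ip u w ∧
      ∃ p ∈ B, det u w = (p : ℤ)), gl u * gl w =
      ∑ t ∈ Cel a b Y ×ˢ Cel a' b' Y, if 0 < ip t.1 t.2 ∧ ∃ p ∈ B, det t.1 t.2 = (p : ℤ)
        then gl t.1 * gl t.2 else 0 := by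
    rw [Finset.sum_product]
    refine Finset.sum_congr rfl fun u _ => ?_
    rw [Finset.sum_filter]
  rw [h1, ← Finset.sum_filter, ← Finset.sum_filter]
  refine Finset.sum_congr ?_ fun _ _ => rfl
  ext t
  unfold tbwT
  simp only [Finset.mem_filter, Finset.mem_product, Cel, PN]
  tauto

open Classical in
theorem tbw_sum {B N : ℕ} {ω : ℕ → ℕ → ℝ} (hω : WOK B N ω) (hN : 1 ≤ N) (S : Finset ℕ) {Y : ℕ}
    (hY : 1 ≤ Y) : ∑ s ∈ Finset.Ico 1 N ×ˢ Finset.Ico 1 N, ω s.1 s.2 *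
      BQ ((s.1 : ℝ) / N) (((s.1 : ℝ) + 1) / N) ((s.2 : ℝ) / N) (((s.2 : ℝ) + 1) / N) S Y =
    ∑ t ∈ tbwT S Y, ω (cu N Y t.1) (cu N Y t.2) * (gl t.1 * gl t.2) := by
  simp_rw [tbw_BQ, Finset.mul_sum]
  rw [Finset.sum_comm]
  refine Finset.sum_congr rfl fun t ht => ?_
  unfold tbwT at ht
  rw [Finset.mem_filter, Finset.mem_product] at ht
  obtain ⟨⟨h1, h2⟩, -⟩ := ht
  have e1 : ∀ s ∈ Finset.Ico 1 N ×ˢ Finset.Ico 1 N, (ω s.1 s.2 *
      if t.1 ∈ Cel ((s.1 : ℝ) / N) (((s.1 : ℝ) + 1) / N) Y ∧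
        t.2 ∈ Cel ((s.2 : ℝ) / N) (((s.2 : ℝ) + 1) / N) Y then gl t.1 * gl t.2 else 0) =
      if (cu N Y t.1, cu N Y t.2) = s then ω (cu N Y t.1) (cu N Y t.2) * (gl t.1 * gl t.2)
        else 0 := by
    intro s _
    simp only [tbw_cel hN hY h1, tbw_cel hN hY h2]
    by_cases h : (cu N Y t.1, cu N Y t.2) = s
    · rw [if_pos h, ← h]
      simp
    · rw [if_neg h, if_neg, mul_zero]
      rintro ⟨h3, h4⟩
      exact h (Prod.ext h3 h4)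
  rw [Finset.sum_congr rfl e1, Finset.sum_ite_eq]
  by_cases h : (cu N Y t.1, cu N Y t.2) ∈ Finset.Ico 1 N ×ˢ Finset.Ico 1 N
  · rw [if_pos h]
  · rw [if_neg h]
    have h3 : ω (cu N Y t.1) (cu N Y t.2) = 0 := by
      by_contra hne
      obtain ⟨a1, a2, a3, a4⟩ := hω.supp _ _ hne
      refine h ?_
      rw [Finset.mem_product, Finset.mem_Ico, Finset.mem_Ico]
      refine ⟨⟨?_, a3⟩, ⟨?_, a4⟩⟩
      · show 1 ≤ cu N Y t.1
        by_contra hc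
        have : cu N Y t.1 = 0 := by omega
        rw [this] at a1
        omega
      · show 1 ≤ cu N Y t.2
        by_contra hc
        have : cu N Y t.2 = 0 := by omega
        rw [this] at a2
        omega
    rw [h3, zero_mul]

open Classical in
theorem tbw_CR (ω : ℕ → ℕ → ℝ) (N : ℕ) (S : Finset ℕ) (Y : ℕ) :
    ∑ p ∈ S, CR ω N p Y = ∑ t ∈ tbwT S Y, ω (ce N Y t.1) (ce N Y t.2) * (gl t.1 * gl t.2) := by
  unfold CR
  have e1 : ∀ p ∈ S, ∑ t ∈ (PN Y ×ˢ PN Y).filter (fun t => det t.1 t.2 = (p : ℤ) ∧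
      0 < ip t.1 t.2), ω (ce N Y t.1) (ce N Y t.2) * (gl t.1 * gl t.2) =
      ∑ t ∈ tbwT S Y, if det t.1 t.2 = (p : ℤ) then
        ω (ce N Y t.1) (ce N Y t.2) * (gl t.1 * gl t.2) else 0 := by
    intro p hp
    rw [← Finset.sum_filter]
    refine Finset.sum_congr ?_ fun _ _ => rfl
    ext t
    unfold tbwT
    simp only [Finset.mem_filter]
    constructor
    · rintro ⟨h1, h2, h3⟩
      exact ⟨⟨h1, h3, p, hp, h2⟩, h2⟩
    · rintro ⟨⟨h1, h3, -⟩, h2⟩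
      exact ⟨h1, h2, h3⟩
  rw [Finset.sum_congr rfl e1, Finset.sum_comm]
  refine Finset.sum_congr rfl fun t ht => ?_
  unfold tbwT at ht
  rw [Finset.mem_filter] at ht
  obtain ⟨-, -, p, hp, h⟩ := ht
  rw [Finset.sum_eq_single_of_mem p hp]
  · rw [if_pos h]
  · intro q _ hq
    rw [if_neg]
    rw [h]
    intro hc
    exact hq (by exact_mod_cast hc.symm)

open Classical in
theorem tbw_diff {B N : ℕ} {ω : ℕ → ℕ → ℝ} (hω : WOK B N ω) (hN : 1 ≤ N) (S : Finset ℕ) {Y : ℕ}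
    (hY : 1 ≤ Y) {δ : ℝ} (hδ : 1 / (Y : ℝ) ≤ δ) :
    |∑ p ∈ S, CR ω N p Y - ∑ s ∈ Finset.Ico 1 N ×ˢ Finset.Ico 1 N, ω s.1 s.2 *
      BQ ((s.1 : ℝ) / N) (((s.1 : ℝ) + 1) / N) ((s.2 : ℝ) / N) (((s.2 : ℝ) + 1) / N) S Y| ≤
      4 * ((B : ℝ) + 1) * S.card * (((PN Y).filter (fun u => ∃ j : ℤ,
        |(N : ℝ) * (nn u : ℝ) / (Y : ℝ) - (j : ℝ)| ≤ δ)).card : ℝ) := by
  rw [tbw_sum hω hN S hY, tbw_CR, ← Finset.sum_sub_distrib]
  set V := (PN Y).filter (fun u => ∃ j : ℤ,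
        |(N : ℝ) * (nn u : ℝ) / (Y : ℝ) - (j : ℝ)| ≤ δ) with hV
  set U := (tbwT S Y).filter (fun t => (ce N Y t.1 ≠ cu N Y t.1 ∨ ce N Y t.2 ≠ cu N Y t.2) ∧
    Y ≤ B * nn t.1 ∧ Y ≤ B * nn t.2) with hU
  have h1 : ∀ t ∈ tbwT S Y, |ω (ce N Y t.1) (ce N Y t.2) * (gl t.1 * gl t.2) -
      ω (cu N Y t.1) (cu N Y t.2) * (gl t.1 * gl t.2)| ≤ if t ∈ U then 2 else 0 := by
    intro t ht
    have g3 : |gl t.1 * gl t.2| ≤ 1 := by
      rw [abs_mul]; exact mul_le_one₀ (gl_abs _) (abs_nonneg _) (gl_abs _)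
    split_ifs with h
    · have b1 := abs_le.1 (hω.bd (ce N Y t.1) (ce N Y t.2))
      have b2 := abs_le.1 (hω.bd (cu N Y t.1) (cu N Y t.2))
      rw [← sub_mul, abs_mul]
      have b3 : |ω (ce N Y t.1) (ce N Y t.2) - ω (cu N Y t.1) (cu N Y t.2)| ≤ 2 := by
        rw [abs_le]; constructor <;> linarith [b1.1, b1.2, b2.1, b2.2]
      calc _ ≤ 2 * 1 := mul_le_mul b3 g3 (abs_nonneg _) (by norm_num)
        _ = 2 := by norm_num
    · by_cases hc : ce N Y t.1 = cu N Y t.1 ∧ ce N Y t.2 = cu N Y t.2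
      · rw [hc.1, hc.2, sub_self, abs_zero]
      · have hc' : ce N Y t.1 ≠ cu N Y t.1 ∨ ce N Y t.2 ≠ cu N Y t.2 := by
          by_contra hcc
          push Not at hcc
          exact hc hcc
        have hz : ¬ (Y ≤ B * nn t.1 ∧ Y ≤ B * nn t.2) := by
          intro hh
          exact h (by rw [hU, Finset.mem_filter]; exact ⟨ht, hc', hh⟩)
        have z1 : ω (ce N Y t.1) (ce N Y t.2) = 0 := by
          by_contra hne
          obtain ⟨a1, a2, -, -⟩ := hω.supp _ _ hne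
          exact hz ⟨tcb_large hN a1 rfl, tcb_large hN a2 rfl⟩
        have z2 : ω (cu N Y t.1) (cu N Y t.2) = 0 := by
          by_contra hne
          obtain ⟨a1, a2, -, -⟩ := hω.supp _ _ hne
          exact hz ⟨tcb_large hN (a1.trans (Nat.mul_le_mul_left _ (tbw_cu_le _ _ _))) rfl,
            tcb_large hN (a2.trans (Nat.mul_le_mul_left _ (tbw_cu_le _ _ _))) rfl⟩
        rw [z1, z2, zero_mul, sub_self, abs_zero]
  have h2 : |∑ t ∈ tbwT S Y, (ω (ce N Y t.1) (ce N Y t.2) * (gl t.1 * gl t.2) -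
      ω (cu N Y t.1) (cu N Y t.2) * (gl t.1 * gl t.2))| ≤ 2 * (U.card : ℝ) := by
    refine (Finset.abs_sum_le_sum_abs _ _).trans ((Finset.sum_le_sum h1).trans ?_)
    rw [← Finset.sum_filter, Finset.sum_const, nsmul_eq_mul, mul_comm]
    refine mul_le_mul_of_nonneg_left ?_ (by norm_num)
    exact_mod_cast Finset.card_le_card (fun t ht => (Finset.mem_filter.1 ht).2)
  refine h2.trans ?_
  have h3 : U.card ≤ S.card * (2 * ((B + 1) * V.card)) := by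
    have h4 : U ⊆ S.biUnion (fun p => U.filter (fun t => det t.1 t.2 = (p : ℤ))) := by
      intro t ht
      have ht' := ht
      rw [hU, Finset.mem_filter] at ht'
      have h5 := ht'.1
      unfold tbwT at h5
      rw [Finset.mem_filter] at h5
      obtain ⟨-, -, p, hp, h⟩ := h5
      rw [Finset.mem_biUnion]
      exact ⟨p, hp, Finset.mem_filter.2 ⟨ht, h⟩⟩
    refine (Finset.card_le_card h4).trans (Finset.card_biUnion_le_card_mul _ _ _ fun p _ => ?_)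
    have h6 : U.filter (fun t => det t.1 t.2 = (p : ℤ)) ⊆
        (U.filter (fun t => det t.1 t.2 = (p : ℤ) ∧ ce N Y t.1 ≠ cu N Y t.1)) ∪
        (U.filter (fun t => det t.1 t.2 = (p : ℤ) ∧ ce N Y t.2 ≠ cu N Y t.2)) := by
      intro t ht
      rw [Finset.mem_filter] at ht
      obtain ⟨h7, h8⟩ := ht
      have h9 := h7
      rw [hU, Finset.mem_filter] at h9
      refine Finset.mem_union.2 ?_
      rcases h9.2.1 with h | h
      · exact Or.inl (Finset.mem_filter.2 ⟨h7, h8, h⟩)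
      · exact Or.inr (Finset.mem_filter.2 ⟨h7, h8, h⟩)
    have c1 : (U.filter (fun t => det t.1 t.2 = (p : ℤ) ∧ ce N Y t.1 ≠ cu N Y t.1)).card ≤
        (B + 1) * V.card := by
      refine aqt_card (Y := Y) (p : ℤ) _ V fun t ht => ?_
      rw [Finset.mem_filter] at ht
      obtain ⟨h7, h8, h9⟩ := ht
      rw [hU, Finset.mem_filter] at h7
      obtain ⟨h7, -, h10, -⟩ := h7
      unfold tbwT at h7
      rw [Finset.mem_filter, Finset.mem_product] at h7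
      obtain ⟨⟨m1, m2⟩, m3, -⟩ := h7
      exact ⟨Finset.mem_filter.2 ⟨m1, tbw_exc hY h9 hδ⟩, m1, m2, h8, m3, h10⟩
    have c2 : (U.filter (fun t => det t.1 t.2 = (p : ℤ) ∧ ce N Y t.2 ≠ cu N Y t.2)).card ≤
        (B + 1) * V.card := by
      refine tcb_col (Y := Y) (p : ℤ) _ V fun t ht => ?_
      rw [Finset.mem_filter] at ht
      obtain ⟨h7, h8, h9⟩ := ht
      rw [hU, Finset.mem_filter] at h7
      obtain ⟨h7, -, -, h10⟩ := h7
      unfold tbwT at h7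
      rw [Finset.mem_filter, Finset.mem_product] at h7
      obtain ⟨⟨m1, m2⟩, m3, -⟩ := h7
      exact ⟨Finset.mem_filter.2 ⟨m2, tbw_exc hY h9 hδ⟩, m1, m2, h8, m3, h10⟩
    calc _ ≤ _ := Finset.card_le_card h6
      _ ≤ _ := Finset.card_union_le _ _
      _ ≤ (B + 1) * V.card + (B + 1) * V.card := Nat.add_le_add c1 c2
      _ = 2 * ((B + 1) * V.card) := by ring
  have h4 : (U.card : ℝ) ≤ S.card * (2 * (((B : ℝ) + 1) * V.card)) := by exact_mod_cast h3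
  calc 2 * (U.card : ℝ) ≤ 2 * (S.card * (2 * (((B : ℝ) + 1) * V.card))) := by linarith
    _ = _ := by ring

/-- the average over the primes of `QP η P` -/
theorem bil_w {B N : ℕ} {ω : ℕ → ℕ → ℝ} (hω : WOK B N ω) (hN : 1 ≤ N) (ε : ℝ) (hε : 0 < ε) :
    ∃ η₀ : ℝ, 0 < η₀ ∧ ∀ η : ℝ, 0 < η → η ≤ η₀ → ∃ P₀ : ℕ, ∀ P : ℕ, P₀ ≤ P →
      ∃ X₀ : ℕ, ∀ X : ℕ, X₀ ≤ X → ∑ Y ∈ Finset.Icc 1 X, |∑ p ∈ QP η P, CR ω N p Y| /
        (Y : ℝ) ^ 2 ≤ ε * ((QP η P).card : ℝ) * Real.log X := by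
  classical
  set I : Finset (ℕ × ℕ) := Finset.Ico 1 N ×ˢ Finset.Ico 1 N with hI
  have hN0 : (0 : ℝ) < N := by exact_mod_cast hN
  obtain ⟨C, hC, hstrip⟩ := cell_strip
  set e : ℝ := ε / (2 * (N : ℝ) ^ 2) with he
  have he0 : 0 < e := by positivity
  have hbil : ∀ s ∈ I, ∃ η₀ : ℝ, 0 < η₀ ∧ ∀ η : ℝ, 0 < η → η ≤ η₀ →
      ∃ P₀ : ℕ, ∀ P : ℕ, P₀ ≤ P → ∃ X₀ : ℝ, ∀ X : ℝ, X₀ ≤ X →
      ∑ Y ∈ Finset.Icc 1 ⌊X⌋₊, |BQ ((s.1 : ℝ) / N) (((s.1 : ℝ) + 1) / N) ((s.2 : ℝ) / N)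
        (((s.2 : ℝ) + 1) / N) (QP η P) Y| / (Y : ℝ) ^ 2 ≤
        e * ((QP η P).card : ℝ) * Real.log X := by
    intro s hs
    rw [hI, Finset.mem_product, Finset.mem_Ico, Finset.mem_Ico] at hs
    obtain ⟨⟨h1, h2⟩, h3, h4⟩ := hs
    have h1' : (0 : ℝ) < s.1 := by exact_mod_cast h1
    have h3' : (0 : ℝ) < s.2 := by exact_mod_cast h3
    have h2' : (s.1 : ℝ) + 1 ≤ N := by exact_mod_cast h2
    have h4' : (s.2 : ℝ) + 1 ≤ N := by exact_mod_cast h4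
    refine bilinear _ _ _ _ e (by positivity) ?_ ?_ (by positivity) ?_ ?_ he0
    · exact div_lt_div_of_pos_right (by linarith) hN0
    · rwa [div_le_one hN0]
    · exact div_lt_div_of_pos_right (by linarith) hN0
    · rwa [div_le_one hN0]
  choose! η₁ hη₁ hbil using hbil
  obtain ⟨η₀, hη₀, hmin⟩ := tbw_min I η₁ hη₁
  refine ⟨η₀, hη₀, fun η hη hηle => ?_⟩
  have hP : ∀ s ∈ I, ∃ P₀ : ℕ, ∀ P : ℕ, P₀ ≤ P → ∃ X₀ : ℝ, ∀ X : ℝ, X₀ ≤ X →
      ∑ Y ∈ Finset.Icc 1 ⌊X⌋₊, |BQ ((s.1 : ℝ) / N) (((s.1 : ℝ) + 1) / N) ((s.2 : ℝ) / N)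
        (((s.2 : ℝ) + 1) / N) (QP η P) Y| / (Y : ℝ) ^ 2 ≤
        e * ((QP η P).card : ℝ) * Real.log X := fun s hs => hbil s hs η hη (hηle.trans (hmin s hs))
  choose! P₁ hP₁ using hP
  obtain ⟨P₀, hP₀⟩ := tbw_max I P₁
  refine ⟨P₀, fun P hP => ?_⟩
  rcases Nat.eq_zero_or_pos (QP η P).card with hz | hz
  · refine ⟨0, fun X _ => ?_⟩
    rw [Finset.card_eq_zero] at hz
    rw [hz]
    simp
  have hz0 : (0 : ℝ) < (QP η P).card := by exact_mod_cast hz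
  have hX : ∀ s ∈ I, ∃ X₀ : ℝ, ∀ X : ℝ, X₀ ≤ X →
      ∑ Y ∈ Finset.Icc 1 ⌊X⌋₊, |BQ ((s.1 : ℝ) / N) (((s.1 : ℝ) + 1) / N) ((s.2 : ℝ) / N)
        (((s.2 : ℝ) + 1) / N) (QP η P) Y| / (Y : ℝ) ^ 2 ≤
        e * ((QP η P).card : ℝ) * Real.log X := fun s hs => hP₁ s hs P ((hP₀ s hs).trans hP)
  choose! X₁ hX₁ using hX
  obtain ⟨X₂, hX₂⟩ := tbw_max I (fun s => ⌈X₁ s⌉₊)
  -- the exceptional elements
  set δ : ℝ := min 1 (ε / (24 * ((B : ℝ) + 1) * C)) with hδ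
  have hC0 : 0 < C := by linarith
  have hδ0 : 0 < δ := lt_min one_pos (by positivity)
  have hδ1 : δ ≤ 1 := min_le_left _ _
  have hδe : 4 * ((B : ℝ) + 1) * (C * δ) * 3 ≤ ε / 2 := by
    have : δ ≤ ε / (24 * ((B : ℝ) + 1) * C) := min_le_right _ _
    rw [le_div_iff₀ (by positivity)] at this
    linarith
  obtain ⟨Y₀, hY₀⟩ := hstrip N hN δ hδ0 hδ1
  obtain ⟨Y₁, hY₁⟩ := exists_nat_gt (1 / δ)
  set D : ℕ → ℝ := fun Y => |∑ p ∈ QP η P, CR ω N p Y - ∑ s ∈ I, ω s.1 s.2 *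
      BQ ((s.1 : ℝ) / N) (((s.1 : ℝ) + 1) / N) ((s.2 : ℝ) / N) (((s.2 : ℝ) + 1) / N)
        (QP η P) Y| with hD
  have hDb : ∀ Y : ℕ, Y₀ + Y₁ + 1 ≤ Y →
      D Y ≤ 4 * ((B : ℝ) + 1) * (QP η P).card * (C * δ) * Y := by
    intro Y hY
    have hYr : (Y₁ : ℝ) ≤ Y := by exact_mod_cast (by omega : Y₁ ≤ Y)
    have hY0 : (0 : ℝ) < Y := by exact_mod_cast (by omega : 0 < Y)
    have h1 : 1 / (Y : ℝ) ≤ δ := by
      rw [div_le_iff₀ hY0]
      have : 1 / δ < Y := lt_of_lt_of_le hY₁ hYr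
      rw [div_lt_iff₀ hδ0] at this
      linarith
    have h2 := tbw_diff hω hN (QP η P) (by omega : 1 ≤ Y) h1
    have h3 := hY₀ Y (by omega)
    refine h2.trans ?_
    calc 4 * ((B : ℝ) + 1) * (QP η P).card * _ ≤ 4 * ((B : ℝ) + 1) * (QP η P).card * (C * δ * Y) :=
          mul_le_mul_of_nonneg_left h3 (by positivity)
      _ = _ := by ring
  obtain ⟨X₃, hX₃⟩ := tcb_tail D (4 * ((B : ℝ) + 1) * (QP η P).card * (C * δ)) (by positivity)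
    (Y₀ + Y₁ + 1) hDb
  refine ⟨X₂ + X₃ + 1, fun X hX => ?_⟩
  have hX1 : (1 : ℝ) ≤ X := by exact_mod_cast (by omega : 1 ≤ X)
  have hlog : 0 ≤ Real.log X := Real.log_nonneg hX1
  have h1 : ∑ Y ∈ Finset.Icc 1 X, |∑ p ∈ QP η P, CR ω N p Y| / (Y : ℝ) ^ 2 ≤
      ∑ Y ∈ Finset.Icc 1 X, (D Y / (Y : ℝ) ^ 2 + ∑ s ∈ I, |BQ ((s.1 : ℝ) / N)
        (((s.1 : ℝ) + 1) / N) ((s.2 : ℝ) / N) (((s.2 : ℝ) + 1) / N) (QP η P) Y| /
          (Y : ℝ) ^ 2) := by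
    refine Finset.sum_le_sum fun Y hY => ?_
    rw [← Finset.sum_div, ← add_div]
    refine div_le_div_of_nonneg_right ?_ (by positivity)
    set A := ∑ p ∈ QP η P, CR ω N p Y
    set S := ∑ s ∈ I, ω s.1 s.2 *
      BQ ((s.1 : ℝ) / N) (((s.1 : ℝ) + 1) / N) ((s.2 : ℝ) / N) (((s.2 : ℝ) + 1) / N) (QP η P) Y
    have h2 : |A| ≤ |A - S| + |S| := by
      have := abs_add_le (A - S) S
      simpa using this
    have h3 : |S| ≤ ∑ s ∈ I, |BQ ((s.1 : ℝ) / N)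
        (((s.1 : ℝ) + 1) / N) ((s.2 : ℝ) / N) (((s.2 : ℝ) + 1) / N) (QP η P) Y| := by
      refine (Finset.abs_sum_le_sum_abs _ _).trans (Finset.sum_le_sum fun s _ => ?_)
      rw [abs_mul]
      exact mul_le_of_le_one_left (abs_nonneg _) (hω.bd _ _)
    linarith
  refine h1.trans ?_
  rw [Finset.sum_add_distrib, Finset.sum_comm]
  have h2 := hX₃ X (by omega)
  have h3 : ∑ s ∈ I, ∑ Y ∈ Finset.Icc 1 X, |BQ ((s.1 : ℝ) / N)
        (((s.1 : ℝ) + 1) / N) ((s.2 : ℝ) / N) (((s.2 : ℝ) + 1) / N) (QP η P) Y| /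
          (Y : ℝ) ^ 2 ≤ ∑ s ∈ I, e * ((QP η P).card : ℝ) * Real.log X := by
    refine Finset.sum_le_sum fun s hs => ?_
    have h4 := hX₁ s hs (X : ℝ) (by
      have h5 := hX₂ s hs
      have h6 : X₁ s ≤ (⌈X₁ s⌉₊ : ℝ) := Nat.le_ceil _
      have h7 : (⌈X₁ s⌉₊ : ℝ) ≤ X := by exact_mod_cast (by omega : ⌈X₁ s⌉₊ ≤ X)
      linarith)
    rwa [Nat.floor_natCast] at h4
  have h4 : (I.card : ℝ) ≤ (N : ℝ) ^ 2 := by
    have : I.card ≤ N ^ 2 := by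
      rw [hI, Finset.card_product, Nat.card_Ico, pow_two]
      exact Nat.mul_le_mul (Nat.sub_le _ _) (Nat.sub_le _ _)
    exact_mod_cast this
  have h5 : ∑ s ∈ I, e * ((QP η P).card : ℝ) * Real.log X ≤
      ε / 2 * ((QP η P).card : ℝ) * Real.log X := by
    rw [Finset.sum_const, nsmul_eq_mul]
    have h6 : (I.card : ℝ) * (e * ((QP η P).card : ℝ) * Real.log X) ≤
        (N : ℝ) ^ 2 * (e * ((QP η P).card : ℝ) * Real.log X) :=
      mul_le_mul_of_nonneg_right h4 (by positivity)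
    refine h6.trans (le_of_eq ?_)
    rw [he]
    field_simp
  have h6 : 3 * (4 * ((B : ℝ) + 1) * (QP η P).card * (C * δ)) * Real.log X ≤
      ε / 2 * ((QP η P).card : ℝ) * Real.log X := by
    refine mul_le_mul_of_nonneg_right ?_ hlog
    have := mul_le_mul_of_nonneg_right hδe hz0.le
    linarith
  linarith

end Pool.Agent.T2
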