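import Pool.Agent.Lib_helper39.TB.TCB
import Pool.Agent.Lib_helper10.T2F.ADI

/-! T2', dilation by a prime element, and change of the scale -/

namespace Pool.Agent.T2

open Filter Topology

open Classical in
/-- the sum over pairs of determinant one with the dilated cells -/
noncomputable def tdsS (ω : ℕ → ℕ → ℝ) (N p Y Y' : ℕ) : ℝ :=
  ∑ t ∈ (PN Y ×ˢ PN Y).filter (fun t => (det t.1 t.2 = 1 ∧ 0 < ip t.1 t.2) ∧
    ¬ star (pel p) ∣ t.1 ∧ ¬ star (pel p) ∣ t.2),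
    ω (N * (p * nn t.1) / Y') (N * (p * nn t.2) / Y') * (gl t.1 * gl t.2)

open Classical in
theorem tds_dil {B N : ℕ} {ω : ℕ → ℕ → ℝ} (hω : WOK B N ω) {p P Y Y' : ℕ} (hp : p.Prime)
    (h4 : p % 4 = 1) (hP : 1 ≤ P) (hPp : P ≤ p) (h1 : P * Y ≤ Y') (h2 : Y' < P * (Y + 1))
    (hY : 1 ≤ Y) : CRd ω N p Y' = tdsS ω N p Y Y' := by
  set π : G := pel p with hπ
  have hnπ : nn π = p := (pel_spec hp h4).1
  have hπ0 : π ≠ 0 := (pel_prime hp h4).ne_zero
  have hY'0 : 0 < Y' := lt_of_lt_of_le (Nat.mul_pos hP hY) h1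
  have hpZ : (0 : ℤ) < p := by exact_mod_cast hp.pos
  unfold CRd tdsS
  symm
  refine Finset.sum_bij_ne_zero (fun t _ _ => ((π * t.1, π * t.2) : G × G)) ?_ ?_ ?_ ?_
  · intro t ht hne
    rw [Finset.mem_filter, Finset.mem_product, mem_PN, mem_PN] at ht
    obtain ⟨⟨⟨a1, a2⟩, a3, a4⟩, ⟨a5, a6⟩, a7, a8⟩ := ht
    have hw := left_ne_zero_of_mul hne
    have hs := hω.supp _ _ hw
    have key : ∀ m : ℕ, N * (p * m) / Y' < N → p * m ≤ Y' := by
      intro m hm
      by_contra hc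
      push Not at hc
      have : N ≤ N * (p * m) / Y' := by
        rw [Nat.le_div_iff_mul_le hY'0]
        exact Nat.mul_le_mul_left _ hc.le
      omega
    rw [Finset.mem_filter, Finset.mem_product, mem_PN, mem_PN]
    refine ⟨⟨⟨(pel_prm_mul hp h4).2 ⟨a1, a7⟩, ?_⟩, (pel_prm_mul hp h4).2 ⟨a3, a8⟩, ?_⟩, ?_, ?_,
      dvd_mul_right _ _⟩
    · show nn (π * t.1) ≤ Y'
      rw [nn_mul, hnπ]
      exact key _ hs.2.2.1
    · show nn (π * t.2) ≤ Y'
      rw [nn_mul, hnπ]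
      exact key _ hs.2.2.2
    · show det (π * t.1) (π * t.2) = (p : ℤ)
      rw [det_mul, hnπ, a5, mul_one]
    · show 0 < ip (π * t.1) (π * t.2)
      rw [adi_ip_mul, hnπ]
      exact mul_pos hpZ a6
  · intro s _ _ t _ _ h
    have e1 := congrArg Prod.fst h
    have e2 := congrArg Prod.snd h
    exact Prod.ext (mul_left_cancel₀ hπ0 e1) (mul_left_cancel₀ hπ0 e2)
  · intro t ht hne
    rw [Finset.mem_filter, Finset.mem_product, mem_PN, mem_PN] at ht
    obtain ⟨⟨⟨a1, a2⟩, a3, a4⟩, a5, a6, a7⟩ := ht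
    have a8 := adi_dvd hp h4 a1 a5 a7
    obtain ⟨v, hv⟩ := a7
    obtain ⟨w, hw⟩ := a8
    rw [← hπ] at hv hw
    rw [hv] at a1 a2 a5 a6
    rw [hw] at a3 a4 a5 a6
    rw [nn_mul, hnπ] at a2 a4
    rw [det_mul, hnπ] at a5
    rw [adi_ip_mul, hnπ] at a6
    have b1 := (pel_prm_mul hp h4).1 a1
    have b2 := (pel_prm_mul hp h4).1 a3
    have b3 : det v w = 1 := by
      have : (p : ℤ) * det v w = p * 1 := by rw [a5, mul_one]
      exact mul_left_cancel₀ hpZ.ne' this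
    have b4 : 0 < ip v w := by
      by_contra hc
      exact absurd a6 (not_lt.2 (mul_nonpos_of_nonneg_of_nonpos hpZ.le (not_lt.1 hc)))
    have key : ∀ m : ℕ, p * m ≤ Y' → m ≤ Y := by
      intro m hm
      have h5 : P * m < P * (Y + 1) := lt_of_le_of_lt (le_trans (Nat.mul_le_mul_right _ hPp) hm) h2
      have := Nat.lt_of_mul_lt_mul_left h5
      omega
    refine ⟨(v, w), ?_, ?_, Prod.ext hv.symm hw.symm⟩
    · rw [Finset.mem_filter, Finset.mem_product, mem_PN, mem_PN]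
      exact ⟨⟨⟨b1.1, key _ a2⟩, b2.1, key _ a4⟩, ⟨b3, b4⟩, b1.2, b2.2⟩
    · have e : ω (ce N Y' t.1) (ce N Y' t.2) * (gl t.1 * gl t.2) =
          ω (N * (p * nn v) / Y') (N * (p * nn w) / Y') * (gl v * gl w) := by
        unfold ce
        rw [hv, hw, nn_mul, nn_mul, hnπ, gl_mul, gl_mul, pel_gl hp h4]
        ring
      rw [e] at hne
      exact hne
  · intro t ht hne
    show _ = ω (ce N Y' (π * t.1)) (ce N Y' (π * t.2)) * (gl (π * t.1) * gl (π * t.2))
    unfold ce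
    rw [nn_mul, nn_mul, hnπ, gl_mul, gl_mul, pel_gl hp h4]
    ring

open Classical in
theorem dil_shift : ∃ C : ℝ, 1 ≤ C ∧ ∀ (B N : ℕ) (ω : ℕ → ℕ → ℝ), WOK B N ω → 1 ≤ B → 1 ≤ N →
    ∀ η : ℝ, 0 < η → (N : ℝ) * η ≤ 1 → ∃ Y₀ : ℕ, ∀ Y : ℕ, Y₀ ≤ Y → ∀ P p Y' : ℕ, 1 ≤ P →
    p ∈ QP η P → P * Y ≤ Y' → Y' < P * (Y + 1) →
      |CRd ω N p Y' - CR ω N 1 Y| ≤ C * B * ((N : ℝ) * η + 1 / p) * Y := by
  obtain ⟨C₁, hC₁, hstrip⟩ := cell_strip
  obtain ⟨C₂, hC₂, hball⟩ := ball_le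
  refine ⟨12 * C₁ + 12 * C₂, by linarith, ?_⟩
  intro B N ω hω hB hN η hη hNη
  have hNr : (1 : ℝ) ≤ N := by exact_mod_cast hN
  have hBr : (1 : ℝ) ≤ B := by exact_mod_cast hB
  have hη1 : η ≤ 1 := by nlinarith
  obtain ⟨Y₁, hY₁⟩ := hstrip N hN (N * η) (by positivity) hNη
  obtain ⟨Y₂, hY₂⟩ := exists_nat_gt (1 / η)
  refine ⟨max (max Y₁ Y₂) 1, ?_⟩
  intro Y hY P p Y' hP hp h1 h2
  have hYY₁ : Y₁ ≤ Y := le_trans (le_trans (le_max_left _ _) (le_max_left _ _)) hY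
  have hYY₂ : Y₂ ≤ Y := le_trans (le_trans (le_max_right _ _) (le_max_left _ _)) hY
  have hY1 : 1 ≤ Y := le_trans (le_max_right _ _) hY
  have hY0 : (0 : ℝ) < Y := by exact_mod_cast hY1
  have hηY : 1 ≤ η * Y := by
    have : 1 / η < Y := lt_of_lt_of_le hY₂ (by exact_mod_cast hYY₂)
    rw [div_lt_iff₀ hη] at this
    linarith
  rw [zbi_QP η hη.le P, Finset.mem_filter, Finset.mem_Ioc] at hp
  obtain ⟨⟨hPp, hp2⟩, hpp, h4⟩ := hp
  have hp2' : (p : ℝ) ≤ (1 + η) * P := (Nat.le_floor_iff (by positivity)).1 hp2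
  have hPr : (1 : ℝ) ≤ P := by exact_mod_cast hP
  have hP0 : (0 : ℝ) < P := by linarith
  have hp0 : (0 : ℝ) < p := by exact_mod_cast hpp.pos
  have hPpr : (P : ℝ) < p := by exact_mod_cast hPp
  have hY'0 : 0 < Y' := lt_of_lt_of_le (Nat.mul_pos hP hY1) h1
  have hY'r : (0 : ℝ) < Y' := by exact_mod_cast hY'0
  have h1r : (P : ℝ) * Y ≤ Y' := by exact_mod_cast h1
  have h2r : (Y' : ℝ) < P * (Y + 1) := by exact_mod_cast h2
  rw [tds_dil hω hpp h4 hP hPp.le h1 h2 hY1]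
  set π : G := pel p with hπ
  set S := (PN Y ×ˢ PN Y).filter (fun t : G × G => det t.1 t.2 = 1 ∧ 0 < ip t.1 t.2) with hS
  set f : G × G → ℝ := fun t => ω (ce N Y t.1) (ce N Y t.2) * (gl t.1 * gl t.2) with hf
  set f' : G × G → ℝ := fun t =>
    ω (N * (p * nn t.1) / Y') (N * (p * nn t.2) / Y') * (gl t.1 * gl t.2) with hf'
  have hgl : ∀ t : G × G, |gl t.1 * gl t.2| ≤ 1 := by
    intro t
    rw [abs_mul]
    exact mul_le_one₀ (gl_abs _) (abs_nonneg _) (gl_abs _)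
  have hfb : ∀ t, |f t| ≤ 1 := by
    intro t
    simp only [hf, abs_mul]
    rw [← abs_mul (gl t.1)]
    exact mul_le_one₀ (hω.bd _ _) (abs_nonneg _) (hgl t)
  have hfb' : ∀ t, |f' t| ≤ 1 := by
    intro t
    simp only [hf', abs_mul]
    rw [← abs_mul (gl t.1)]
    exact mul_le_one₀ (hω.bd _ _) (abs_nonneg _) (hgl t)
  -- large elements
  have hlarge : ∀ t, f t ≠ 0 → Y ≤ 2 * B * nn t.1 ∧ Y ≤ 2 * B * nn t.2 := by
    intro t ht
    have hs := hω.supp _ _ (left_ne_zero_of_mul ht)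
    have a1 := tcb_large hN hs.1 rfl
    have a2 := tcb_large hN hs.2.1 rfl
    constructor <;> nlinarith
  have hlarge' : ∀ t, f' t ≠ 0 → Y ≤ 2 * B * nn t.1 ∧ Y ≤ 2 * B * nn t.2 := by
    intro t ht
    have hs := hω.supp _ _ (left_ne_zero_of_mul ht)
    have key : ∀ m : ℕ, N ≤ B * (N * (p * m) / Y') → Y ≤ 2 * B * m := by
      intro m hm
      have a1 : N * (p * m) / Y' * Y' ≤ N * (p * m) := Nat.div_mul_le_self _ _
      have a2 : N * Y' ≤ N * (B * (p * m)) := by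
        calc N * Y' ≤ (B * (N * (p * m) / Y')) * Y' := Nat.mul_le_mul_right _ hm
          _ = B * (N * (p * m) / Y' * Y') := by ring
          _ ≤ B * (N * (p * m)) := Nat.mul_le_mul_left _ a1
          _ = N * (B * (p * m)) := by ring
      have a3 := Nat.le_of_mul_le_mul_left a2 (by omega)
      have a4 : p ≤ 2 * P := by
        have : (p : ℝ) ≤ 2 * P := by nlinarith
        exact_mod_cast this
      have a5 : P * Y ≤ P * (2 * B * m) := by
        calc P * Y ≤ Y' := h1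
          _ ≤ B * (p * m) := a3
          _ ≤ B * (2 * P * m) := by gcongr
          _ = P * (2 * B * m) := by ring
      exact Nat.le_of_mul_le_mul_left a5 (by omega)
    exact ⟨key _ hs.1, key _ hs.2.1⟩
  -- the strip
  set V := (PN Y).filter (fun u : G => ∃ j : ℤ,
        |(N : ℝ) * (nn u : ℝ) / (Y : ℝ) - (j : ℝ)| ≤ N * η) with hV
  have hVc : (V.card : ℝ) ≤ C₁ * (N * η) * Y := hY₁ Y hYY₁
  have hdiff : ∀ v ∈ PN Y, ce N Y v ≠ N * (p * nn v) / Y' → v ∈ V := by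
    intro v hv hne
    rw [hV, Finset.mem_filter]
    refine ⟨hv, ?_⟩
    obtain ⟨j, hj⟩ := tcb_floor (a := N * nn v) (b := N * (p * nn v)) (n := Y) (m := Y')
      (by omega) hY'0 hne
    refine ⟨j, ?_⟩
    push_cast at hj
    refine hj.trans ?_
    have hnv : (nn v : ℝ) ≤ Y := by exact_mod_cast (mem_PN.1 hv).2
    have hnv0 : (0 : ℝ) ≤ nn v := Nat.cast_nonneg _
    have e : (N : ℝ) * (p * nn v) / Y' - N * nn v / Y =
        N * (nn v / Y) * ((p * Y - Y') / Y') := by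
      field_simp
    rw [e, abs_mul, abs_of_nonneg (by positivity)]
    have e2 : |((p : ℝ) * Y - Y') / Y'| ≤ η := by
      rw [abs_div, abs_of_pos hY'r, div_le_iff₀ hY'r, abs_le]
      constructor
      · have : (Y' : ℝ) - p * Y ≤ P := by nlinarith
        have : (P : ℝ) ≤ η * Y' := by nlinarith
        linarith
      · have : (p : ℝ) * Y ≤ (1 + η) * P * Y := by gcongr
        nlinarith
    have e3 : (nn v : ℝ) / Y ≤ 1 := by rw [div_le_one hY0]; exact hnv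
    calc (N : ℝ) * (nn v / Y) * |((p : ℝ) * Y - Y') / Y'| ≤ N * 1 * η := by gcongr
      _ = N * η := by ring
  -- the multiples
  have hnπ : nn (star π) = p := by rw [nn_star, hπ, (pel_spec hpp h4).1]
  have hsπ : star π ≠ 0 := (pel_star_prime hpp h4).ne_zero
  set W := (PN Y).filter (fun u : G => star π ∣ u) with hW
  have hWc : (W.card : ℝ) ≤ C₂ * (Y / p) := by
    have := tcb_multiples hball hsπ Y W (fun v hv => by
      rw [hW, Finset.mem_filter] at hv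
      exact hv)
    rwa [hnπ] at this
  -- the difference
  set S' := S.filter (fun t : G × G => ¬ star π ∣ t.1 ∧ ¬ star π ∣ t.2) with hS'
  have e1 : tdsS ω N p Y Y' = ∑ t ∈ S', f' t := by
    unfold tdsS
    rw [hS', hS, Finset.filter_filter]
  have e2 : CR ω N 1 Y = ∑ t ∈ S, f t := by
    unfold CR
    rw [hS]
    simp only [Nat.cast_one]
    rfl
  rw [e1, e2, hS', Finset.sum_filter, ← Finset.sum_sub_distrib]
  refine (Finset.abs_sum_le_sum_abs _ _).trans ?_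
  -- exceptional sets of pairs
  set T₁ := S.filter (fun t : G × G => t.1 ∈ V ∪ W ∧ Y ≤ 2 * B * nn t.1) with hT₁
  set T₂ := S.filter (fun t : G × G => t.2 ∈ V ∪ W ∧ Y ≤ 2 * B * nn t.2) with hT₂
  have hterm : ∀ t ∈ S, |(if ¬ star π ∣ t.1 ∧ ¬ star π ∣ t.2 then f' t else 0) - f t| ≤
      (if t.1 ∈ V ∪ W ∧ Y ≤ 2 * B * nn t.1 then 2 else 0) +
      (if t.2 ∈ V ∪ W ∧ Y ≤ 2 * B * nn t.2 then 2 else 0) := by
    intro t ht
    have ht' := ht
    rw [hS, Finset.mem_filter, Finset.mem_product] at ht'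
    obtain ⟨⟨b1, b2⟩, b3, b4⟩ := ht'
    set g : ℝ := (if ¬ star π ∣ t.1 ∧ ¬ star π ∣ t.2 then f' t else 0) with hg
    have hgb : |g| ≤ 1 := by
      rw [hg]
      split_ifs
      · exact hfb' t
      · simp
    have h2' : |g - f t| ≤ 2 := by
      have := abs_sub g (f t)
      have := hfb t
      linarith
    have n1 : (0 : ℝ) ≤ (if t.1 ∈ V ∪ W ∧ Y ≤ 2 * B * nn t.1 then 2 else 0) := by
      split_ifs <;> norm_num
    have n2 : (0 : ℝ) ≤ (if t.2 ∈ V ∪ W ∧ Y ≤ 2 * B * nn t.2 then 2 else 0) := by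
      split_ifs <;> norm_num
    by_cases hbig : Y ≤ 2 * B * nn t.1 ∧ Y ≤ 2 * B * nn t.2
    · by_cases c1 : t.1 ∈ V ∪ W
      · rw [if_pos ⟨c1, hbig.1⟩]
        linarith
      · by_cases c2 : t.2 ∈ V ∪ W
        · rw [if_pos (⟨c2, hbig.2⟩ : t.2 ∈ V ∪ W ∧ Y ≤ 2 * B * nn t.2)]
          linarith
        · have d1 : ce N Y t.1 = N * (p * nn t.1) / Y' := by
            by_contra hc
            exact c1 (Finset.mem_union_left _ (hdiff _ b1 hc))
          have d2 : ce N Y t.2 = N * (p * nn t.2) / Y' := by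
            by_contra hc
            exact c2 (Finset.mem_union_left _ (hdiff _ b2 hc))
          have d3 : ¬ star π ∣ t.1 := fun hc =>
            c1 (Finset.mem_union_right _ (Finset.mem_filter.2 ⟨b1, hc⟩))
          have d4 : ¬ star π ∣ t.2 := fun hc =>
            c2 (Finset.mem_union_right _ (Finset.mem_filter.2 ⟨b2, hc⟩))
          have : g - f t = 0 := by
            rw [hg, if_pos ⟨d3, d4⟩]
            simp only [hf, hf']
            rw [d1, d2, sub_self]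
          rw [this, abs_zero]
          linarith
    · have z1 : f t = 0 := by
        by_contra hc
        exact hbig (hlarge t hc)
      have z2 : f' t = 0 := by
        by_contra hc
        exact hbig (hlarge' t hc)
      have : g - f t = 0 := by
        rw [hg, z1, z2]
        simp
      rw [this, abs_zero]
      linarith
  refine (Finset.sum_le_sum hterm).trans ?_
  rw [Finset.sum_add_distrib, ← Finset.sum_filter, ← Finset.sum_filter, Finset.sum_const,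
    Finset.sum_const, nsmul_eq_mul, nsmul_eq_mul]
  have c1 : T₁.card ≤ (2 * B + 1) * (V ∪ W).card := by
    refine aqt_card (Y := Y) 1 T₁ (V ∪ W) fun t ht => ?_
    rw [hT₁, Finset.mem_filter, hS, Finset.mem_filter, Finset.mem_product] at ht
    exact ⟨ht.2.1, ht.1.1.1, ht.1.1.2, ht.1.2.1, ht.1.2.2, ht.2.2⟩
  have c2 : T₂.card ≤ (2 * B + 1) * (V ∪ W).card := by
    refine tcb_col (Y := Y) 1 T₂ (V ∪ W) fun t ht => ?_
    rw [hT₂, Finset.mem_filter, hS, Finset.mem_filter, Finset.mem_product] at ht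
    exact ⟨ht.2.1, ht.1.1.1, ht.1.1.2, ht.1.2.1, ht.1.2.2, ht.2.2⟩
  have c3 : ((V ∪ W).card : ℝ) ≤ C₁ * (N * η) * Y + C₂ * (Y / p) := by
    have : ((V ∪ W).card : ℝ) ≤ V.card + W.card := by exact_mod_cast Finset.card_union_le V W
    linarith
  have c1' : (T₁.card : ℝ) ≤ (2 * B + 1) * (V ∪ W).card := by exact_mod_cast c1
  have c2' : (T₂.card : ℝ) ≤ (2 * B + 1) * (V ∪ W).card := by exact_mod_cast c2
  have hu0 : (0 : ℝ) ≤ (V ∪ W).card := Nat.cast_nonneg _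
  have c4 : (2 * (B : ℝ) + 1) * (V ∪ W).card ≤ 3 * B * (C₁ * (N * η) * Y + C₂ * (Y / p)) := by
    apply mul_le_mul _ c3 hu0 (by positivity)
    linarith
  have c5 : (T₁.card : ℝ) * 2 + (T₂.card : ℝ) * 2 ≤
      4 * (3 * B * (C₁ * (N * η) * Y + C₂ * (Y / p))) := by linarith
  refine c5.trans ?_
  have e5 : 4 * (3 * B * (C₁ * (N * η) * Y + C₂ * (Y / p))) =
      12 * C₁ * B * (N * η) * Y + 12 * C₂ * B * (1 / p) * Y := by
    field_simp
    ring
  rw [e5]
  have q1 : 0 ≤ (B : ℝ) * (N * η) * Y := by positivity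
  have q2 : 0 ≤ (B : ℝ) * (1 / p) * Y := by positivity
  have e6 : (12 * C₁ + 12 * C₂) * B * ((N : ℝ) * η + 1 / p) * Y =
      12 * C₁ * B * (N * η) * Y + 12 * C₂ * B * (1 / p) * Y +
        (12 * C₂ * ((B : ℝ) * (N * η) * Y) + 12 * C₁ * ((B : ℝ) * (1 / p) * Y)) := by ring
  rw [e6]
  have q3 : 0 ≤ 12 * C₂ * ((B : ℝ) * (N * η) * Y) := by positivity
  have q4 : 0 ≤ 12 * C₁ * ((B : ℝ) * (1 / p) * Y) := by positivity
  linarith

end Pool.Agent.T2
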