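import Pool.Agent.Lib_helper39.TB.TRI
import Pool.Agent.Lib_helper10.T2F.EST
import Pool.Agent.Lib_helper10.T2F.ZWC
import Pool.Agent.Lib_helper10.T2F.ZCW

/-!
# T2', block TRG: the sum over `n` and the quantised sum over pairs (MP_892e4c_nt)
-/

namespace Pool.Agent.T2

open Filter Topology

open Classical in
/-- all the pairs of determinant one -/
noncomputable def trgU (Y : ℕ) : Finset (G × G) :=
  (PN Y ×ˢ PN Y).filter (fun t => det t.1 t.2 = ((1 : ℕ) : ℤ) ∧ 0 < ip t.1 t.2)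

open Classical in
theorem trg_diff {α β : ℝ} (hα : 0 < α) {κ B N x : ℕ} (h1 : β ≤ κ) (h2 : 2 / α ≤ κ) :
    |SW α β x - (1 / 4) * CR (trw α β κ B N) N 1 (κ * x)| ≤ (1 / 4) *
      (((trgU (κ * x)).filter (fun t => ¬ (t ∈ trgT α β x (κ * x) ↔
        trw α β κ B N (ce N (κ * x) t.1) (ce N (κ * x) t.2) = 1))).card : ℝ) := by
  rw [trg_SW hα h1 h2, ← mul_sub, abs_mul, abs_of_pos (by norm_num : (0 : ℝ) < 1 / 4)]
  refine mul_le_mul_of_nonneg_left ?_ (by norm_num)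
  set Y := κ * x with hY
  have e1 : ∑ t ∈ trgT α β x Y, gl t.1 * gl t.2 =
      ∑ t ∈ trgU Y, if t ∈ trgT α β x Y then gl t.1 * gl t.2 else 0 := by
    rw [← Finset.sum_filter]
    refine Finset.sum_congr ?_ fun _ _ => rfl
    ext t
    rw [Finset.mem_filter]
    constructor
    · intro h
      refine ⟨?_, h⟩
      unfold trgT at h
      unfold trgU
      rw [Finset.mem_filter] at h ⊢
      exact ⟨h.1, by simpa using h.2.1, h.2.2.1⟩
    · exact fun h => h.2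
  have e2 : CR (trw α β κ B N) N 1 Y =
      ∑ t ∈ trgU Y, trw α β κ B N (ce N Y t.1) (ce N Y t.2) * (gl t.1 * gl t.2) := rfl
  rw [e1, e2, ← Finset.sum_sub_distrib]
  refine (Finset.abs_sum_le_sum_abs _ _).trans ?_
  rw [Finset.card_filter]
  push_cast
  refine Finset.sum_le_sum fun t _ => ?_
  have g3 : |gl t.1 * gl t.2| ≤ 1 := by
    rw [abs_mul]; exact mul_le_one₀ (gl_abs _) (abs_nonneg _) (gl_abs _)
  have htr : trw α β κ B N (ce N Y t.1) (ce N Y t.2) = 0 ∨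
      trw α β κ B N (ce N Y t.1) (ce N Y t.2) = 1 := by
    unfold trw
    split_ifs
    · exact Or.inr rfl
    · exact Or.inl rfl
  by_cases hT : t ∈ trgT α β x Y
  · rcases htr with h | h
    · rw [h, if_pos hT, zero_mul, sub_zero, if_pos]
      · exact g3
      · simpa using hT
    · rw [h, if_pos hT, one_mul, sub_self, abs_zero]
      split_ifs <;> norm_num
  · rcases htr with h | h
    · rw [h, if_neg hT, zero_mul, sub_self, abs_zero]
      split_ifs <;> norm_num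
    · rw [h, if_neg hT, one_mul, zero_sub, abs_neg, if_pos]
      · exact g3
      · simpa using hT

theorem trg_strip : ∃ C : ℝ, 1 ≤ C ∧ ∀ r₀ τ L : ℝ, 0 < r₀ → 0 < τ → 0 ≤ L → ∀ φ : ℝ → ℝ,
    (∀ x y, |φ x - φ y| ≤ L * |x - y|) → ∃ Y₀ : ℝ, ∀ Y : ℕ, Y₀ ≤ Y → 1 ≤ Y →
      ∀ S : Finset (G × G), (∀ t ∈ S, det t.1 t.2 = 1 ∧ 0 < ip t.1 t.2 ∧ nn t.1 ≤ Y ∧
        r₀ ≤ Real.sqrt ((nn t.1 : ℝ) / Y) ∧
        |Real.sqrt ((nn t.2 : ℝ) / Y) - φ (Real.sqrt ((nn t.1 : ℝ) / Y))| ≤ τ) →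
        (S.card : ℝ) ≤ C * (τ / r₀) * Y := by
  obtain ⟨C, hC, h⟩ := strip_count
  refine ⟨C, hC, fun r₀ τ L hr hτ hL φ hφ => ?_⟩
  obtain ⟨Y₀, hY₀⟩ := h 1 0 one_ne_zero r₀ τ L hr hτ hL φ hφ
  refine ⟨Y₀, fun Y hY hY1 S hS => ?_⟩
  have h1 := hY₀ (Y : ℝ) hY
  have hfin := regs_finite 1 0 r₀ τ φ (Y : ℝ) hr (by exact_mod_cast hY1)
  have h2 : (S : Set (G × G)) ⊆ RegS 1 0 r₀ τ φ (Y : ℝ) := by
    intro t ht
    obtain ⟨a1, a2, a3, a4, a5⟩ := hS t ht
    refine ⟨a1, ?_, a2, by exact_mod_cast a3, a4, a5⟩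
    simp
  have h3 := Set.ncard_le_ncard h2 hfin
  rw [Set.ncard_coe_finset] at h3
  have h4 : (S.card : ℝ) ≤ ((RegS 1 0 r₀ τ φ (Y : ℝ)).ncard : ℝ) := by exact_mod_cast h3
  refine h4.trans (h1.trans (le_of_eq ?_))
  simp

open Classical in
theorem trg_small {α β : ℝ} (hα : 0 < α) (hβ : α < β) : ∃ K : ℝ, 1 ≤ K ∧ ∀ B : ℕ, 1 ≤ B →
    ∃ Y₀ : ℕ, ∀ Y : ℕ, Y₀ ≤ Y → ∀ x : ℕ, (((trgT α β x Y).filter
      (fun t => B * nn t.1 < 2 * Y ∨ B * nn t.2 < 2 * Y)).card : ℝ) ≤ K * Y / B := by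
  obtain ⟨C, hC, hwin⟩ := win_count
  have hβ0 : 0 < β := hα.trans hβ
  set M : ℝ := 1 / α + β with hM
  have hM0 : 0 < M := by positivity
  have hd0 : 0 < 1 / α - 1 / β := by
    have := one_div_lt_one_div_of_lt hα hβ
    linarith
  obtain ⟨Y₁, hY₁⟩ := hwin 1 (1 / β) (1 / α) one_ne_zero (by linarith)
  refine ⟨C * (1 / α - 1 / β) * (β * M * 2) + 1, ?_, fun B hB => ?_⟩
  · have : 0 ≤ C * (1 / α - 1 / β) * (β * M * 2) := by positivity
    linarith
  have hB0 : (0 : ℝ) < B := by exact_mod_cast hB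
  obtain ⟨Y₂, hY₂⟩ := exists_nat_gt (Y₁ * B / (β * M * 2))
  refine ⟨Y₂, fun Y hY x => ?_⟩
  set Y' : ℝ := β * M * 2 * (Y / B) with hY'
  have hY'1 : Y₁ ≤ Y' := by
    have h1 : (Y₂ : ℝ) ≤ Y := by exact_mod_cast hY
    have h2 : Y₁ * B / (β * M * 2) < Y := lt_of_lt_of_le hY₂ h1
    rw [div_lt_iff₀ (by positivity)] at h2
    rw [hY', ← mul_div_assoc, le_div_iff₀ hB0]
    linarith
  have h1 := hY₁ Y' hY'1
  set S := (trgT α β x Y).filter (fun t => B * nn t.1 < 2 * Y ∨ B * nn t.2 < 2 * Y) with hS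
  have hsub : (S : Set (G × G)) ⊆ {p : G × G | Prm p.1 ∧ det p.1 p.2 = 1 ∧
      (nn p.1 : ℝ) ≤ Y' ∧ 1 / β * (nn p.1 : ℝ) ≤ (ip p.1 p.2 : ℝ) ∧
        (ip p.1 p.2 : ℝ) < 1 / α * (nn p.1 : ℝ)} := by
    intro t ht
    rw [Finset.mem_coe, hS, Finset.mem_filter] at ht
    obtain ⟨ht, hs⟩ := ht
    unfold trgT at ht
    rw [Finset.mem_filter] at ht
    obtain ⟨-, a1, a2, a3, a4, a5⟩ := ht
    have e := trg_prod a1
    have hn1 : (1 : ℝ) ≤ ip t.1 t.2 := by exact_mod_cast a2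
    have b1 : 1 / β * (nn t.1 : ℝ) ≤ (ip t.1 t.2 : ℝ) := by
      rw [one_div, inv_mul_le_iff₀ hβ0]; exact a5
    have b2 : (ip t.1 t.2 : ℝ) < 1 / α * (nn t.1 : ℝ) := by
      rw [one_div, lt_inv_mul_iff₀ hα]; exact a4
    refine ⟨(zco_prm a1).1, a1, ?_, b1, b2⟩
    have hn : (ip t.1 t.2 : ℝ) ≤ M * (2 * (Y / B)) := by
      rcases hs with h | h
      · have h3 : (B : ℝ) * nn t.1 < 2 * Y := by exact_mod_cast h
        have h4 : (nn t.1 : ℝ) ≤ 2 * (Y / B) := by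
          rw [← mul_div_assoc, le_div_iff₀ hB0]; linarith
        calc (ip t.1 t.2 : ℝ) ≤ 1 / α * (nn t.1 : ℝ) := b2.le
          _ ≤ 1 / α * (2 * (Y / B)) := mul_le_mul_of_nonneg_left h4 (by positivity)
          _ ≤ M * (2 * (Y / B)) := mul_le_mul_of_nonneg_right (by rw [hM]; linarith)
            (by positivity)
      · have h3 : (B : ℝ) * nn t.2 < 2 * Y := by exact_mod_cast h
        have h4 : (nn t.2 : ℝ) ≤ 2 * (Y / B) := by
          rw [← mul_div_assoc, le_div_iff₀ hB0]; linarith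
        have h5 : (ip t.1 t.2 : ℝ) ≤ β * nn t.2 := by
          have h6 : (ip t.1 t.2 : ℝ) * ip t.1 t.2 ≤ ip t.1 t.2 * (β * nn t.2) := by
            have : (nn t.1 : ℝ) * nn t.2 ≤ β * ip t.1 t.2 * nn t.2 :=
              mul_le_mul_of_nonneg_right a5 (Nat.cast_nonneg _)
            nlinarith
          exact le_of_mul_le_mul_left h6 (by linarith)
        calc (ip t.1 t.2 : ℝ) ≤ β * nn t.2 := h5
          _ ≤ β * (2 * (Y / B)) := mul_le_mul_of_nonneg_left h4 hβ0.le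
          _ ≤ M * (2 * (Y / B)) := mul_le_mul_of_nonneg_right (by
              rw [hM]
              have : 0 ≤ 1 / α := by positivity
              linarith) (by positivity)
    calc (nn t.1 : ℝ) ≤ β * (ip t.1 t.2 : ℝ) := a5
      _ ≤ β * (M * (2 * (Y / B))) := mul_le_mul_of_nonneg_left hn hβ0.le
      _ = Y' := by rw [hY']; ring
  have h3 := Set.ncard_le_ncard hsub (zcw_win_fin 1 one_ne_zero _ _ _)
  rw [Set.ncard_coe_finset] at h3
  have h4 : (S.card : ℝ) ≤ C * (1 / α - 1 / β) * Y' := (by exact_mod_cast h3 : (S.card : ℝ) ≤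
    ({p : G × G | Prm p.1 ∧ det p.1 p.2 = 1 ∧
      (nn p.1 : ℝ) ≤ Y' ∧ 1 / β * (nn p.1 : ℝ) ≤ (ip p.1 p.2 : ℝ) ∧
        (ip p.1 p.2 : ℝ) < 1 / α * (nn p.1 : ℝ)}.ncard : ℝ)).trans h1
  refine h4.trans ?_
  have e1 : C * (1 / α - 1 / β) * Y' = C * (1 / α - 1 / β) * (β * M * 2) * Y / B := by
    rw [hY']; ring
  rw [e1]
  apply div_le_div_of_nonneg_right _ hB0.le
  apply mul_le_mul_of_nonneg_right _ (Nat.cast_nonneg _)
  linarith

theorem trg_lip {κ r₀ : ℝ} (hκ : 1 ≤ κ) (hr : 0 < r₀) (x y : ℝ) :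
    |1 / (κ * max x r₀) - 1 / (κ * max y r₀)| ≤ 1 / r₀ ^ 2 * |x - y| := by
  have hκ0 : 0 < κ := by linarith
  have hp : r₀ ≤ max x r₀ := le_max_right _ _
  have hq : r₀ ≤ max y r₀ := le_max_right _ _
  set p := max x r₀ with hpd
  set q := max y r₀ with hqd
  have hp0 : 0 < p := by linarith
  have hq0 : 0 < q := by linarith
  have h1 : |p - q| ≤ |x - y| := by
    rw [hpd, hqd]
    exact abs_max_sub_max_le_abs x y r₀
  have e : 1 / (κ * p) - 1 / (κ * q) = -((p - q) / (κ * p * q)) := by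
    field_simp
    ring
  rw [e, abs_neg, abs_div, abs_of_pos (by positivity : 0 < κ * p * q), one_div_mul_eq_div]
  apply div_le_div₀ (abs_nonneg _) h1 (by positivity)
  have h2 : r₀ ^ 2 ≤ p * q := by nlinarith
  have h3 : p * q ≤ κ * (p * q) := by nlinarith [mul_pos hp0 hq0]
  calc r₀ ^ 2 ≤ p * q := h2
    _ ≤ κ * (p * q) := h3
    _ = κ * p * q := by ring

open Classical in
/-- the sum over `n ≤ x` and the quantised sum over pairs at the scale `κ x` -/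
theorem region {α β : ℝ} (hα : 0 < α) (hβ : α < β) : ∃ κ : ℕ, 1 ≤ κ ∧ ∀ ε : ℝ, 0 < ε →
    ∃ (B N : ℕ) (ω : ℕ → ℕ → ℝ), 1 ≤ B ∧ 1 ≤ N ∧ WOK B N ω ∧ ∃ x₀ : ℕ, ∀ x : ℕ, x₀ ≤ x →
      |SW α β x - (1 / 4) * CR ω N 1 (κ * x)| ≤ ε * x := by
  have hβ0 : 0 < β := hα.trans hβ
  obtain ⟨κ, hκ⟩ := exists_nat_gt (β + 2 / α)
  have hp0 : 0 < 2 / α := by positivity
  have h1 : β < κ := by linarith
  have h2 : 2 / α < κ := by linarith
  have hκ0 : (0 : ℝ) < κ := by linarith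
  have hκn : 1 ≤ κ := by exact_mod_cast hκ0
  have hκ1 : (1 : ℝ) ≤ κ := by exact_mod_cast hκn
  refine ⟨κ, hκn, fun ε hε => ?_⟩
  obtain ⟨Cs, hCs, hstrip⟩ := trg_strip
  obtain ⟨K, hK, hsmall⟩ := trg_small hα hβ
  -- the parameters
  obtain ⟨B, hB⟩ := exists_nat_gt (K * κ / ε + 1)
  have hBr : (1 : ℝ) ≤ B := by
    have : 0 ≤ K * κ / ε := by positivity
    linarith
  have hB1 : 1 ≤ B := by exact_mod_cast hBr
  have hB0 : (0 : ℝ) < B := by linarith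
  have hBε : K * κ / B ≤ ε := by
    rw [div_le_iff₀ hB0]
    have : K * κ / ε ≤ B := by linarith
    rw [div_le_iff₀ hε] at this
    linarith
  set r₀ : ℝ := 1 / Real.sqrt B with hr₀
  have hr0 : 0 < r₀ := by rw [hr₀]; positivity
  set τ : ℝ := ε * r₀ / (Cs * κ) with hτ
  have hτ0 : 0 < τ := by positivity
  have hτε : Cs * (τ / r₀) * κ = ε := by
    rw [hτ]; field_simp
  obtain ⟨N, hN⟩ := exists_nat_gt ((B : ℝ) + 6 * κ ^ 2 / (r₀ * τ) +
    2 * (1 + α ^ 2) / (α * r₀ * τ) + 2 * (1 + β ^ 2) / (β * r₀ * τ))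
  have q1 : 0 < 6 * κ ^ 2 / (r₀ * τ) := by positivity
  have q2 : 0 < 2 * (1 + α ^ 2) / (α * r₀ * τ) := by positivity
  have q3 : 0 < 2 * (1 + β ^ 2) / (β * r₀ * τ) := by positivity
  have hBN : B ≤ N := by
    have : (B : ℝ) ≤ N := by linarith
    exact_mod_cast this
  have hN1 : 1 ≤ N := hB1.trans hBN
  have hN0 : (0 : ℝ) < N := by exact_mod_cast hN1
  have hNA : 3 * (κ : ℝ) ^ 2 / N / r₀ ≤ τ / 2 := by
    have h3 : 6 * κ ^ 2 / (r₀ * τ) ≤ N := by linarith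
    rw [div_le_iff₀ (by positivity)] at h3
    rw [div_div, div_le_div_iff₀ (by positivity) (by positivity)]
    nlinarith
  have hNB : ∀ γ : ℝ, 0 < γ → 2 * (1 + γ ^ 2) / (γ * r₀ * τ) ≤ N →
      (1 + γ ^ 2) / N / (γ * r₀) ≤ τ / 2 := by
    intro γ hγ h3
    rw [div_le_iff₀ (by positivity)] at h3
    rw [div_div, div_le_div_iff₀ (by positivity) (by positivity)]
    nlinarith
  -- the strips
  obtain ⟨YA, hYA⟩ := hstrip r₀ τ (1 / r₀ ^ 2) hr0 hτ0 (by positivity)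
    (fun r => 1 / (κ * max r r₀)) (fun x y => trg_lip hκ1 hr0 x y)
  have hlipB : ∀ γ : ℝ, 0 < γ → ∀ x y : ℝ, |x / γ - y / γ| ≤ 1 / γ * |x - y| := by
    intro γ hγ x y
    rw [← sub_div, abs_div, abs_of_pos hγ, one_div_mul_eq_div]
  obtain ⟨YB, hYB⟩ := hstrip r₀ τ (1 / α) hr0 hτ0 (by positivity)
    (fun r => r / α) (fun x y => hlipB α hα x y)
  obtain ⟨YC, hYC⟩ := hstrip r₀ τ (1 / β) hr0 hτ0 (by positivity)
    (fun r => r / β) (fun x y => hlipB β hβ0 x y)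
  obtain ⟨YS, hYS⟩ := hsmall B hB1
  obtain ⟨x₀, hx₀⟩ := exists_nat_gt (|YA| + |YB| + |YC| + YS + 1 + 2 / (r₀ * τ) +
    2 * α / (r₀ * τ) + 2 * β / (r₀ * τ))
  refine ⟨B, N, trw α β κ B N, hB1, hN1, trw_WOK _ _ _ _ _, x₀, fun x hx => ?_⟩
  have hxr : (x₀ : ℝ) ≤ x := by exact_mod_cast hx
  have p1 : 0 < 2 / (r₀ * τ) := by positivity
  have p2 : 0 < 2 * α / (r₀ * τ) := by positivity
  have p3 : 0 < 2 * β / (r₀ * τ) := by positivity
  have pA := abs_nonneg YA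
  have pB := abs_nonneg YB
  have pC := abs_nonneg YC
  have pS : (0 : ℝ) ≤ YS := Nat.cast_nonneg _
  have hx1 : (1 : ℝ) ≤ x := by linarith
  have hxn : 1 ≤ x := by exact_mod_cast hx1
  set Y := κ * x with hY
  have hYr : (Y : ℝ) = κ * x := by rw [hY]; push_cast; ring
  have hxY : (x : ℝ) ≤ Y := by rw [hYr]; nlinarith
  have hY1 : 1 ≤ Y := Nat.mul_pos hκn hxn
  have hY0 : (0 : ℝ) < Y := by exact_mod_cast hY1
  have hxA : 1 / (x : ℝ) ^ 2 / r₀ ≤ τ / 2 := by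
    have h3 : 2 / (r₀ * τ) ≤ x := by linarith
    rw [div_le_iff₀ (by positivity)] at h3
    rw [div_div, div_le_div_iff₀ (by positivity) (by positivity)]
    have h4 : (x : ℝ) ≤ x ^ 2 := by nlinarith
    have h5 : (x : ℝ) * (r₀ * τ) ≤ x ^ 2 * (r₀ * τ) :=
      mul_le_mul_of_nonneg_right h4 (by positivity)
    linarith
  have hxB : ∀ γ : ℝ, 0 < γ → 2 * γ / (r₀ * τ) ≤ x → γ ^ 2 / Y / (γ * r₀) ≤ τ / 2 := by
    intro γ hγ h3
    rw [div_le_iff₀ (by positivity)] at h3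
    rw [div_div, div_le_div_iff₀ (by positivity) (by positivity)]
    have h5 : (x : ℝ) * (r₀ * τ) ≤ Y * (r₀ * τ) := mul_le_mul_of_nonneg_right hxY (by positivity)
    have h6 := mul_le_mul_of_nonneg_left (h3.trans h5) hγ.le
    nlinarith
  refine (trg_diff hα h1.le h2.le).trans ?_
  rw [← hY]
  set D := (trgU Y).filter (fun t => ¬ (t ∈ trgT α β x Y ↔
        trw α β κ B N (ce N Y t.1) (ce N Y t.2) = 1)) with hD
  -- the four parts
  set D1 := (trgT α β x Y).filter (fun t => B * nn t.1 < 2 * Y ∨ B * nn t.2 < 2 * Y) with hD1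
  set DA := D.filter (fun t => Y ≤ B * nn t.1 ∧ ¬ (ip t.1 t.2 ≤ (x : ℤ) ↔
      κ ^ 2 * (ce N Y t.1 * ce N Y t.2) ≤ N ^ 2)) with hDA
  set DB := D.filter (fun t => Y ≤ B * nn t.1 ∧ ¬ (α * (ip t.1 t.2 : ℝ) < (nn t.1 : ℝ) ↔
        α ^ 2 * (ce N Y t.2 : ℝ) < (ce N Y t.1 : ℝ))) with hDB
  set DC := D.filter (fun t => Y ≤ B * nn t.1 ∧ ¬ (β * (ip t.1 t.2 : ℝ) < (nn t.1 : ℝ) ↔
        β ^ 2 * (ce N Y t.2 : ℝ) < (ce N Y t.1 : ℝ))) with hDC
  have memD : ∀ t ∈ D, t.1 ∈ PN Y ∧ t.2 ∈ PN Y ∧ det t.1 t.2 = 1 ∧ 0 < ip t.1 t.2 := by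
    intro t ht
    rw [hD, Finset.mem_filter] at ht
    have h3 := ht.1
    unfold trgU at h3
    rw [Finset.mem_filter, Finset.mem_product] at h3
    exact ⟨h3.1.1, h3.1.2, by simpa using h3.2.1, h3.2.2⟩
  have hsub : D ⊆ D1 ∪ (DA ∪ (DB ∪ DC)) := by
    intro t ht
    obtain ⟨a1, a2, a3, a4⟩ := memD t ht
    have h3 := (Finset.mem_filter.1 ht).2
    have h4 := trg_incl hα hβ (κ := κ) (B := B) (N := N) (x := x) h1 h2 hB1 hBN hxn a1 a2 a3 a4 h3
    rcases h4 with ⟨h5, h6⟩ | ⟨h5, h6 | h6 | h6⟩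
    · exact Finset.mem_union_left _ (Finset.mem_filter.2 ⟨h5, h6⟩)
    · exact Finset.mem_union_right _ (Finset.mem_union_left _ (Finset.mem_filter.2 ⟨ht, h5, h6⟩))
    · exact Finset.mem_union_right _ (Finset.mem_union_right _ (Finset.mem_union_left _
        (Finset.mem_filter.2 ⟨ht, h5, h6⟩)))
    · exact Finset.mem_union_right _ (Finset.mem_union_right _ (Finset.mem_union_right _
        (Finset.mem_filter.2 ⟨ht, h5, h6⟩)))
  have hlow : ∀ u : G, Y ≤ B * nn u → r₀ ≤ Real.sqrt ((nn u : ℝ) / Y) := by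
    intro u hu
    have hu' : (Y : ℝ) ≤ B * nn u := by exact_mod_cast hu
    have h3 : 1 / (B : ℝ) ≤ (nn u : ℝ) / Y := by
      rw [div_le_div_iff₀ hB0 hY0]; linarith
    have h4 := Real.sqrt_le_sqrt h3
    rw [Real.sqrt_div zero_le_one, Real.sqrt_one] at h4
    exact h4
  have bA : (DA.card : ℝ) ≤ ε * x := by
    have h3 := hYA Y (by
      have := le_abs_self YA
      linarith) hY1 DA (by
      intro t ht
      rw [hDA, Finset.mem_filter] at ht
      obtain ⟨t1, t2, t3⟩ := ht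
      obtain ⟨a1, a2, a3, a4⟩ := memD t t1
      have hv := (mem_PN.1 a1).2
      have hw := (mem_PN.1 a2).2
      refine ⟨a3, a4, hv, hlow _ t2, ?_⟩
      have h4 := trg_A hκn hN1 hxn a3 a4 hv hw t3
      have h5 := trg_A2 hκ1 hr0 (hlow _ t2) (by positivity) (by positivity) (by positivity) h4
      rw [max_eq_left (hlow _ t2)]
      refine h5.trans ?_
      rw [add_div]
      linarith)
    rw [hYr] at h3
    calc (DA.card : ℝ) ≤ Cs * (τ / r₀) * (κ * x) := h3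
      _ = Cs * (τ / r₀) * κ * x := by ring
      _ = ε * x := by rw [hτε]
  have bB : (DB.card : ℝ) ≤ ε * x := by
    have h3 := hYB Y (by
      have := le_abs_self YB
      linarith) hY1 DB (by
      intro t ht
      rw [hDB, Finset.mem_filter] at ht
      obtain ⟨t1, t2, t3⟩ := ht
      obtain ⟨a1, a2, a3, a4⟩ := memD t t1
      refine ⟨a3, a4, (mem_PN.1 a1).2, hlow _ t2, ?_⟩
      have h4 := trg_B hα hN1 hY1 a3 a4 t3
      have h5 := trg_B2 hα hr0 (hlow _ t2) (by positivity) (by positivity) h4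
      refine h5.trans ?_
      rw [add_div]
      have h6 := hNB α hα (by linarith)
      have h7 := hxB α hα (by linarith)
      linarith)
    rw [hYr] at h3
    calc (DB.card : ℝ) ≤ Cs * (τ / r₀) * (κ * x) := h3
      _ = Cs * (τ / r₀) * κ * x := by ring
      _ = ε * x := by rw [hτε]
  have bC : (DC.card : ℝ) ≤ ε * x := by
    have h3 := hYC Y (by
      have := le_abs_self YC
      linarith) hY1 DC (by
      intro t ht
      rw [hDC, Finset.mem_filter] at ht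
      obtain ⟨t1, t2, t3⟩ := ht
      obtain ⟨a1, a2, a3, a4⟩ := memD t t1
      refine ⟨a3, a4, (mem_PN.1 a1).2, hlow _ t2, ?_⟩
      have h4 := trg_B hβ0 hN1 hY1 a3 a4 t3
      have h5 := trg_B2 hβ0 hr0 (hlow _ t2) (by positivity) (by positivity) h4
      refine h5.trans ?_
      rw [add_div]
      have h6 := hNB β hβ0 (by linarith)
      have h7 := hxB β hβ0 (by linarith)
      linarith)
    rw [hYr] at h3
    calc (DC.card : ℝ) ≤ Cs * (τ / r₀) * (κ * x) := h3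
      _ = Cs * (τ / r₀) * κ * x := by ring
      _ = ε * x := by rw [hτε]
  have b1 : (D1.card : ℝ) ≤ ε * x := by
    have h3 := hYS Y (by
      have : (YS : ℝ) ≤ Y := by linarith
      exact_mod_cast this) x
    refine h3.trans ?_
    rw [hYr]
    have e1 : K * (κ * x) / B = K * κ / B * x := by ring
    rw [e1]
    exact mul_le_mul_of_nonneg_right hBε (Nat.cast_nonneg _)
  have hcard : (D.card : ℝ) ≤ D1.card + (DA.card + (DB.card + DC.card)) := by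
    have h3 : D.card ≤ D1.card + (DA.card + (DB.card + DC.card)) :=
      (Finset.card_le_card hsub).trans ((Finset.card_union_le _ _).trans (Nat.add_le_add_left
        ((Finset.card_union_le _ _).trans (Nat.add_le_add_left (Finset.card_union_le _ _) _)) _))
    exact_mod_cast h3
  linarith

end Pool.Agent.T2
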