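import Pool.Agent.Lib_helper39.TB.TMN
import Pool.Agent.Lib_helper39.TB.TRG

/-!
# T2', block TFN: the sums over `n ≤ x` are small for most scales (MP_892e4c_nt)
-/

namespace Pool.Agent.T2

open Filter Topology

theorem tfn_mult (f : ℕ → ℝ) (hf : ∀ Y, 0 ≤ f Y) {κ : ℕ} (hκ : 1 ≤ κ) (X : ℕ) :
    ∑ x ∈ Finset.Icc 1 X, f (κ * x) ≤ ∑ Y ∈ Finset.Icc 1 (κ * X), f Y := by
  classical
  have h1 : ∑ x ∈ Finset.Icc 1 X, f (κ * x) =
      ∑ Y ∈ (Finset.Icc 1 X).image (fun x => κ * x), f Y := by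
    rw [Finset.sum_image]
    intro a _ b _ h
    exact Nat.eq_of_mul_eq_mul_left hκ h
  rw [h1]
  refine Finset.sum_le_sum_of_subset_of_nonneg ?_ fun _ _ _ => hf _
  intro Y hY
  rw [Finset.mem_image] at hY
  obtain ⟨x, hx, rfl⟩ := hY
  rw [Finset.mem_Icc] at hx ⊢
  exact ⟨Nat.mul_pos hκ hx.1, Nat.mul_le_mul_left _ hx.2⟩

/-- the sums `SW` are small on average over the scales -/
theorem sw_avg {α β : ℝ} (hα : 0 < α) (hβ : α < β) (ε : ℝ) (hε : 0 < ε) :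
    ∃ X₀ : ℕ, ∀ X : ℕ, X₀ ≤ X →
      ∑ x ∈ Finset.Icc 1 X, |SW α β x| / (x : ℝ) ^ 2 ≤ ε * Real.log X := by
  obtain ⟨κ, hκ, hreg⟩ := region hα hβ
  have hκ0 : (0 : ℝ) < κ := by exact_mod_cast hκ
  obtain ⟨B, N, ω, hB, hN, hω, x₀, hx₀⟩ := hreg (ε / 6) (by positivity)
  obtain ⟨X₁, hX₁⟩ := main_w hω hB hN (ε / (κ : ℝ) ^ 2) (by positivity)
  obtain ⟨X₂, hX₂⟩ := tcb_tail (fun x => |SW α β x| - (1 / 4) * |CR ω N 1 (κ * x)|) (ε / 6)
    (by positivity) x₀ (by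
      intro x hx
      have h := hx₀ x hx
      have h1 : |SW α β x| ≤ |SW α β x - 1 / 4 * CR ω N 1 (κ * x)| +
          |1 / 4 * CR ω N 1 (κ * x)| := by
        have := abs_add_le (SW α β x - 1 / 4 * CR ω N 1 (κ * x)) (1 / 4 * CR ω N 1 (κ * x))
        simpa using this
      rw [abs_mul, abs_of_pos (by norm_num : (0 : ℝ) < 1 / 4)] at h1
      linarith)
  refine ⟨X₁ + X₂ + κ + 2, fun X hX => ?_⟩
  have hX1 : (1 : ℝ) ≤ X := by exact_mod_cast (by omega : 1 ≤ X)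
  have hlog : 0 ≤ Real.log X := Real.log_nonneg hX1
  have h1 := hX₂ X (by omega)
  have h2 := hX₁ (κ * X) (by nlinarith)
  have h3 := tfn_mult (fun Y => |CR ω N 1 Y| / (Y : ℝ) ^ 2) (fun Y => by positivity) hκ X
  have h4 : Real.log ((κ * X : ℕ) : ℝ) ≤ 2 * Real.log X := by
    have h5 : κ * X ≤ X ^ 2 := by
      rw [pow_two]; exact Nat.mul_le_mul_right _ (by omega)
    have h6 : ((κ * X : ℕ) : ℝ) ≤ (X : ℝ) ^ 2 := by exact_mod_cast h5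
    have h7 : (0 : ℝ) < ((κ * X : ℕ) : ℝ) := by
      push_cast; positivity
    have h8 := Real.log_le_log h7 h6
    rw [Real.log_pow] at h8
    push_cast at h8 ⊢
    exact h8
  have h5 : ∑ x ∈ Finset.Icc 1 X, |SW α β x| / (x : ℝ) ^ 2 =
      ∑ x ∈ Finset.Icc 1 X, (|SW α β x| - (1 / 4) * |CR ω N 1 (κ * x)|) / (x : ℝ) ^ 2 +
      (κ : ℝ) ^ 2 / 4 * ∑ x ∈ Finset.Icc 1 X, |CR ω N 1 (κ * x)| / ((κ * x : ℕ) : ℝ) ^ 2 := by
    rw [Finset.mul_sum, ← Finset.sum_add_distrib]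
    refine Finset.sum_congr rfl fun x hx => ?_
    rw [Finset.mem_Icc] at hx
    have hx0 : (0 : ℝ) < x := by exact_mod_cast hx.1
    push_cast
    field_simp
    ring
  rw [h5]
  have h6 : (κ : ℝ) ^ 2 / 4 * ∑ x ∈ Finset.Icc 1 X, |CR ω N 1 (κ * x)| / ((κ * x : ℕ) : ℝ) ^ 2 ≤
      ε / 2 * Real.log X := by
    calc (κ : ℝ) ^ 2 / 4 * ∑ x ∈ Finset.Icc 1 X, |CR ω N 1 (κ * x)| / ((κ * x : ℕ) : ℝ) ^ 2
        ≤ (κ : ℝ) ^ 2 / 4 * (ε / (κ : ℝ) ^ 2 * (2 * Real.log X)) := by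
          refine mul_le_mul_of_nonneg_left ?_ (by positivity)
          exact h3.trans (h2.trans (mul_le_mul_of_nonneg_left h4 (by positivity)))
      _ = ε / 2 * Real.log X := by field_simp; ring
  linarith

end Pool.Agent.T2
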