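import Pool.Agent.Lib_helper39.TB.FSB
import Pool.Agent.Lib_helper39.TB.TCB
import Pool.Agent.Lib_helper10.T2F.APC
import Pool.Agent.Lib_helper10.T2F.ADS
import Pool.Agent.Lib_helper10.T2F.ASL
import Pool.Agent.Lib_helper10.T2F.AFI
import Pool.Agent.Lib_helper10.T2F.BPR

/-! T2', the entropy decrement, averaged over all scales -/

namespace Pool.Agent.T2

open Filter Topology

theorem tpa_sub (η : ℝ) (hη : 0 < η) (hη1 : η ≤ 1) (P : ℕ) : QP η P ⊆ PP P := by
  classical
  intro p hp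
  rw [zbi_QP η hη.le, Finset.mem_filter, Finset.mem_Ioc] at hp
  obtain ⟨⟨h1, h2⟩, h3⟩ := hp
  have h5 := (Nat.le_floor_iff (by positivity)).1 h2
  have h6 : (p : ℝ) ≤ ((2 * P : ℕ) : ℝ) := by
    push_cast
    have : (0 : ℝ) ≤ P := Nat.cast_nonneg _
    nlinarith
  unfold PP
  rw [Finset.mem_filter, Finset.mem_Ioc]
  exact ⟨⟨h1, by exact_mod_cast h6⟩, h3⟩

open Classical in
theorem tpa_log (Q : Finset ℕ) (hQ : Pset Q) :
    Real.log ((Fintype.piFinset (fun p : Q => Ep (p : ℕ))).card : ℝ) =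
      ∑ p ∈ Q, Real.log ((Ep p).card : ℝ) := by
  rw [Fintype.card_piFinset]
  push_cast
  rw [Real.log_prod, ← Finset.sum_coe_sort Q]
  intro i _
  have h := (Ep_count (hQ i i.2).1 1 0 isCoprime_one_left).1
  have h2 := (hQ i i.2).1.two_le
  have h3 : 4 ≤ (i : ℕ) ^ 2 := by nlinarith
  have h4 : (Ep (i : ℕ)).card ≠ 0 := by omega
  exact_mod_cast h4

open Classical in
theorem tpa_frames (η : ℝ) (hη : 0 < η) (hη1 : η ≤ 1) (P L : ℕ) (h : 6 * P ≤ L) :
    Real.log ((Fintype.piFinset (fun p : QP η P => Ep (p : ℕ))).card : ℝ) ≤ L := by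
  have h1 := log_frames P L h
  have e1 : (Fintype.piFinset (fun p : PP P => Ep (p : ℕ))).card =
      (Fintype.piFinset (fun p : PP P => Ep (p : ℕ))).card := rfl
  rw [tpa_log _ (PP_set P)] at h1
  rw [tpa_log _ (zbi_Pset η hη.le P)]
  refine le_trans (Finset.sum_le_sum_of_subset_of_nonneg (tpa_sub η hη hη1 P) ?_) h1
  intro p _ _
  rcases Nat.eq_zero_or_pos (Ep p).card with h0 | h0
  · rw [h0]; simp
  · exact Real.log_nonneg (by exact_mod_cast h0)

open Classical in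
theorem tpa_step (η : ℝ) (hη : 0 < η) (hη1 : η ≤ 1) (N Y P m L : ℕ) (hP : 6 * P ≤ L) :
    cE (PN Y) (Wd (nx Y) sgb (m * L)) (Wd (nx Y) (ltr N Y) (m * L)) ≤
      L + m * (cE (PN Y) (Wd (nx Y) sgb L) (Wd (nx Y) (ltr N Y) L) - MI (QP η P) N L Y) := by
  have hQ := zbi_Pset η hη.le P
  have h := dec_step (PN Y) (nx Y) (fun x hx => nx_mem hx) (nx_inj Y) (ltr N Y) sgb
    (fr (QP η P) Y) (Fintype.piFinset (fun p : QP η P => Ep (p : ℕ))) (by
      intro x hx
      rw [Fintype.mem_piFinset]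
      intro p
      exact fr_mem hQ hx p) (by
      intro x hx x' hx' h1 h2
      exact fr_next hx hx' h1 h2) m L
  have h2 := tpa_frames η hη hη1 P L hP
  have e1 : cE (PN Y) (Wd (nx Y) sgb L) (Wd (nx Y) (ltr N Y) L) - MI (QP η P) N L Y =
      cE (PN Y) (Wd (nx Y) sgb L) (fun u => (fr (QP η P) Y u, Wd (nx Y) (ltr N Y) L u)) := by
    unfold MI
    ring
  rw [e1]
  linarith

theorem tpa_pairs {B N : ℕ} {ω : ℕ → ℕ → ℝ} (hω : WOK B N ω) {L Y p : ℕ} (hB : 1 ≤ B)
    (hN : 1 ≤ N) (hp : 1 ≤ p) (hpL : 2 * p * B ≤ L / 2) (hL : 16 * (L + 1) ^ 2 ≤ Y) :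
    ∑ u ∈ PN Y, FC ω N L Y p u * th p u = ((p : ℝ) + 1) * CRd ω N p Y - CR ω N p Y := by
  classical
  have h := FC_pairs hω hB hN hp hpL hL (th p)
  have e1 : ∑ u ∈ PN Y, FC ω N L Y p u * th p u = ∑ u ∈ PN Y, th p u * FC ω N L Y p u :=
    Finset.sum_congr rfl fun u _ => mul_comm _ _
  rw [e1, h]
  unfold CRd CR
  have e2 : (PN Y ×ˢ PN Y).filter (fun t : G × G => det t.1 t.2 = (p : ℤ) ∧ 0 < ip t.1 t.2 ∧
      pel p ∣ t.1) = ((PN Y ×ˢ PN Y).filter (fun t : G × G => det t.1 t.2 = (p : ℤ) ∧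
        0 < ip t.1 t.2)).filter (fun t => pel p ∣ t.1) := by
    rw [Finset.filter_filter]
    refine Finset.filter_congr fun t _ => ?_
    tauto
  rw [e2, Finset.sum_filter (fun t : G × G => pel p ∣ t.1), Finset.mul_sum,
    ← Finset.sum_sub_distrib]
  refine Finset.sum_congr rfl fun t _ => ?_
  unfold th
  split_ifs <;> ring

theorem part_A2 {B N : ℕ} {ω : ℕ → ℕ → ℝ} (hω : WOK B N ω) (hB : 1 ≤ B) (hN : 1 ≤ N)
    (η ε : ℝ) (hη : 0 < η) (hη1 : η ≤ 1) (hε : 0 < ε) (P₀ : ℕ) :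
    ∃ (Q : Finset ℕ) (X₀ : ℕ), (∀ P ∈ Q, P₀ ≤ P) ∧ ∀ X : ℕ, X₀ ≤ X → ∃ P ∈ Q,
      ∑ Y ∈ Finset.Icc 1 X, |∑ p ∈ QP η P, (((p : ℝ) + 1) * CRd ω N p Y - CR ω N p Y)| /
        (Y : ℝ) ^ 2 ≤ ε * ((QP η P).card : ℝ) * Real.log X := by
  classical
  obtain ⟨c, hc, hlow⟩ := qp_lower
  obtain ⟨P₁, hP₁⟩ := hlow η hη hη1
  obtain ⟨Cs, hCs, hscale⟩ := scale_boundC
  have hBr : (1 : ℝ) ≤ B := by exact_mod_cast hB
  -- the parameters
  obtain ⟨M, hM⟩ := exists_nat_gt (16 * Cs * B / ε + 1)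
  have hM1 : (1 : ℝ) ≤ M := by
    have : 0 ≤ 16 * Cs * B / ε := by positivity
    linarith
  have hM1' : 1 ≤ M := by exact_mod_cast hM1
  have hMε : Cs * B / M ≤ ε / 16 := by
    rw [div_le_iff₀ (by linarith)]
    have : 16 * Cs * B / ε ≤ M := by linarith
    rw [div_le_iff₀ hε] at this
    linarith
  set R : ℝ := 100 * (B : ℝ) ^ 2 * M with hR
  have hR0 : 0 < R := by positivity
  set l : ℝ := ε / (16 * Cs * R ^ 2) with hl
  have hl0 : 0 < l := by positivity
  have hlR : Cs * (l * R ^ 2) = ε / 16 := by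
    rw [hl]; field_simp
  set δ : ℝ := ε / (16 * Cs) with hδ
  have hδ0 : 0 < δ := by positivity
  have hδe : Cs * δ = ε / 16 := by rw [hδ]; field_simp
  set εI : ℝ := ε * l * c * η / (Cs * 32 * B * 16) with hεI
  have hεI0 : 0 < εI := by positivity
  set P₂ : ℕ := P₀ + P₁ + 2 with hP₂
  obtain ⟨S, hSL, hS⟩ := scale_list εI hεI0 (16 * B * P₂)
  have hPbig : ∀ L ∈ S, P₂ ≤ L / (16 * B) := by
    intro L hL
    rw [Nat.le_div_iff_mul_le (by positivity)]
    have := hSL L hL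
    nlinarith
  -- thresholds
  have hY : ∀ L : ℕ, ∃ Y₀ : ℕ, L ∈ S → ∀ Y : ℕ, Y₀ ≤ Y →
      |∑ p ∈ QP η (L / (16 * B)), ∑ u ∈ PN Y, FC ω N L Y p u * th p u| ≤
        Cs * Y * (MI (QP η (L / (16 * B))) N L Y / l + l * R ^ 2 * (QP η (L / (16 * B))).card +
          ((QP η (L / (16 * B))).card : ℝ) * (B : ℝ) / M + δ) := by
    intro L
    by_cases hL : L ∈ S
    · have h1 := hPbig L hL
      have h2 : L / (16 * B) * (16 * B) ≤ L := Nat.div_mul_le_self L _
      obtain ⟨Y₀, hY₀⟩ := hscale B N ω hω M L (QP η (L / (16 * B))) hB hN hM1' (by nlinarith)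
        (zbi_Pset η hη.le _) (by
          intro p hp
          have hp' := tpa_sub η hη hη1 _ hp
          simp only [PP, Finset.mem_filter, Finset.mem_Ioc] at hp'
          nlinarith [hp'.1.2]) l δ hl0 hδ0
      exact ⟨Y₀, fun _ => hY₀⟩
    · exact ⟨0, fun h => absurd h hL⟩
  choose Y₀ hY₀ using hY
  set Y₁ : ℕ → ℕ := fun L => Y₀ L + 16 * (L + 1) ^ 2 with hY₁
  set F : ℕ → ℕ → ℝ := fun P Y =>
    |∑ p ∈ QP η P, (((p : ℝ) + 1) * CRd ω N p Y - CR ω N p Y)| with hF
  have hF0 : ∀ P Y, 0 ≤ F P Y := fun P Y => abs_nonneg _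
  set A : ℝ := ∑ L ∈ S, ∑ Y ∈ Finset.range (Y₁ L), F (L / (16 * B)) Y with hA
  have hA0 : 0 ≤ A := Finset.sum_nonneg fun _ _ => Finset.sum_nonneg fun _ _ => hF0 _ _
  obtain ⟨X₀, hX₀⟩ := exists_nat_gt (Real.exp (2 * A / ε + 1))
  refine ⟨S.image (fun L => L / (16 * B)), X₀, ?_, ?_⟩
  · intro P hP
    rw [Finset.mem_image] at hP
    obtain ⟨L, hL, rfl⟩ := hP
    have := hPbig L hL
    omega
  intro X hX
  have hXX : Real.exp (2 * A / ε + 1) < X := lt_of_lt_of_le hX₀ (by exact_mod_cast hX)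
  have hX0 : (0 : ℝ) < X := lt_trans (Real.exp_pos _) hXX
  have hlogX : 2 * A / ε + 1 < Real.log X := by rwa [Real.lt_log_iff_exp_lt hX0]
  have hlog1 : 1 < Real.log X := by
    have : 0 ≤ 2 * A / ε := by positivity
    linarith
  have hAX : A ≤ ε / 2 * Real.log X := by
    have : 2 * A / ε ≤ Real.log X := by linarith
    rw [div_le_iff₀ hε] at this
    linarith
  set W : ℝ := ∑ Y ∈ Finset.Icc 1 X, 1 / (Y : ℝ) with hW
  have hWup : W ≤ 1 + Real.log X := by
    have h6 := harmonic_le_one_add_log X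
    rw [harmonic_eq_sum_Icc] at h6
    push_cast at h6
    simpa [hW, one_div] using h6
  have hWlo : Real.log X ≤ W := by
    have h6 := log_add_one_le_harmonic X
    rw [harmonic_eq_sum_Icc] at h6
    push_cast at h6
    have h7 : Real.log X ≤ Real.log (X + 1) := Real.log_le_log hX0 (by linarith)
    refine h7.trans ?_
    simpa [hW, one_div] using h6
  have hW0 : 0 < W := by linarith
  obtain ⟨L, hL, hI⟩ := hS
    (fun L => (1 / W) * ∑ Y ∈ Finset.Icc 1 X, (1 / (Y : ℝ)) *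
      (cE (PN Y) (Wd (nx Y) sgb L) (Wd (nx Y) (ltr N Y) L) / L))
    (fun L => (1 / W) * ∑ Y ∈ Finset.Icc 1 X, (1 / (Y : ℝ)) * MI (QP η (L / (16 * B))) N L Y)
    (by
      intro L
      refine mul_nonneg (by positivity) (Finset.sum_nonneg (fun k _ => ?_))
      exact mul_nonneg (by positivity) (div_nonneg (cE_nonneg _ _ _) (Nat.cast_nonneg _)))
    (by
      intro L
      have h1 : ∑ Y ∈ Finset.Icc 1 X, (1 / (Y : ℝ)) *
          (cE (PN Y) (Wd (nx Y) sgb L) (Wd (nx Y) (ltr N Y) L) / L) ≤ W := by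
        rw [hW]
        refine Finset.sum_le_sum (fun Y _ => ?_)
        have h2 : cE (PN Y) (Wd (nx Y) sgb L) (Wd (nx Y) (ltr N Y) L) / L ≤ 1 := by
          rcases Nat.eq_zero_or_pos L with h0 | h0
          · subst h0
            simp
          · rw [div_le_one (by exact_mod_cast h0)]
            exact afi_cE_le N L _
        calc (1 / (Y : ℝ)) * (cE (PN Y) (Wd (nx Y) sgb L) (Wd (nx Y) (ltr N Y) L) / L) ≤
            (1 / (Y : ℝ)) * 1 := mul_le_mul_of_nonneg_left h2 (by positivity)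
          _ = 1 / (Y : ℝ) := mul_one _
      calc _ ≤ 1 / W * W := mul_le_mul_of_nonneg_left h1 (by positivity)
        _ = 1 := by field_simp)
    (by
      intro m L hm hL1
      have hm0 : (0 : ℝ) < m := by exact_mod_cast hm
      have hL0 : (0 : ℝ) < L := by exact_mod_cast hL1
      have h6 : 6 * (L / (16 * B)) ≤ L := by
        have h3 : L / (16 * B) * (16 * B) ≤ L := Nat.div_mul_le_self L _
        nlinarith
      have key : ∀ Y ∈ Finset.Icc 1 X, (1 / (Y : ℝ)) *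
          (cE (PN Y) (Wd (nx Y) sgb (m * L)) (Wd (nx Y) (ltr N Y) (m * L)) / ((m * L : ℕ) : ℝ)) ≤
          (1 / (Y : ℝ)) * (cE (PN Y) (Wd (nx Y) sgb L) (Wd (nx Y) (ltr N Y) L) / L) -
            (1 / (Y : ℝ)) * MI (QP η (L / (16 * B))) N L Y / L + (1 / (Y : ℝ)) / m := by
        intro Y _
        have h := tpa_step η hη hη1 N Y (L / (16 * B)) m L h6
        have h2 : cE (PN Y) (Wd (nx Y) sgb (m * L)) (Wd (nx Y) (ltr N Y) (m * L)) /
            ((m * L : ℕ) : ℝ) ≤ cE (PN Y) (Wd (nx Y) sgb L) (Wd (nx Y) (ltr N Y) L) / L -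
            MI (QP η (L / (16 * B))) N L Y / L + 1 / m := by
          rw [div_le_iff₀ (by push_cast; positivity)]
          refine le_trans h (le_of_eq ?_)
          push_cast
          field_simp
          ring
        calc _ ≤ (1 / (Y : ℝ)) * (cE (PN Y) (Wd (nx Y) sgb L) (Wd (nx Y) (ltr N Y) L) / L -
            MI (QP η (L / (16 * B))) N L Y / L + 1 / m) :=
              mul_le_mul_of_nonneg_left h2 (by positivity)
          _ = _ := by ring
      calc (1 / W) * ∑ Y ∈ Finset.Icc 1 X, (1 / (Y : ℝ)) *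
          (cE (PN Y) (Wd (nx Y) sgb (m * L)) (Wd (nx Y) (ltr N Y) (m * L)) / ((m * L : ℕ) : ℝ))
          ≤ (1 / W) * ∑ Y ∈ Finset.Icc 1 X,
          ((1 / (Y : ℝ)) * (cE (PN Y) (Wd (nx Y) sgb L) (Wd (nx Y) (ltr N Y) L) / L) -
            (1 / (Y : ℝ)) * MI (QP η (L / (16 * B))) N L Y / L + (1 / (Y : ℝ)) / m) :=
            mul_le_mul_of_nonneg_left (Finset.sum_le_sum key) (by positivity)
        _ = _ := by
            have e1 : 1 / W * (W / (m : ℝ)) = 1 / m := by field_simp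
            rw [Finset.sum_add_distrib, Finset.sum_sub_distrib, ← Finset.sum_div, ← Finset.sum_div,
              ← hW, mul_add, mul_sub, e1, mul_div_assoc])
  set P : ℕ := L / (16 * B) with hP
  have hPb := hPbig L hL
  rw [← hP] at hPb
  refine ⟨P, Finset.mem_image.2 ⟨L, hL, rfl⟩, ?_⟩
  have hPpos : (0 : ℝ) < P := by
    have : 0 < P := by omega
    exact_mod_cast this
  have hP2 : (2 : ℝ) ≤ P := by
    have : 2 ≤ P := by omega
    exact_mod_cast this
  have hlogP : 0 < Real.log P := Real.log_pos (by linarith)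
  have hcard := hP₁ P (by omega)
  set n : ℝ := ((QP η P).card : ℝ) with hn
  have hn0 : 0 < n := lt_of_lt_of_le (by positivity) hcard
  have hn1 : 1 ≤ n := by
    have h0 := hn0
    rw [hn] at h0 ⊢
    exact_mod_cast h0
  have hPL : P ≤ L := by
    rw [hP]
    exact Nat.div_le_self _ _
  have hLP : (L : ℝ) ≤ 32 * (B : ℝ) * P := by
    have h1 : L < 16 * B * (P + 1) := by
      rw [hP]
      exact Nat.lt_mul_div_succ L (by positivity)
    have h2 : (L : ℝ) < 16 * (B : ℝ) * (P + 1) := by exact_mod_cast h1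
    have h3 : (P : ℝ) + 1 ≤ 2 * P := by linarith
    have h4 : (0 : ℝ) < 16 * (B : ℝ) := by positivity
    nlinarith
  have hLP2 : (L : ℝ) / Real.log L ≤ 32 * (B : ℝ) * (P / Real.log P) := by
    have hL1 : (P : ℝ) ≤ L := by exact_mod_cast hPL
    have h1 : Real.log P ≤ Real.log L := Real.log_le_log hPpos hL1
    calc (L : ℝ) / Real.log L ≤ (32 * (B : ℝ) * P) / Real.log P := by
          gcongr
      _ = _ := by ring
  -- the mutual information
  have hI2 : Cs / l * ∑ Y ∈ Finset.Icc 1 X, (1 / (Y : ℝ)) * MI (QP η P) N L Y ≤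
      ε / 16 * n * W := by
    have h1 : (1 / W) * ∑ Y ∈ Finset.Icc 1 X, (1 / (Y : ℝ)) * MI (QP η P) N L Y ≤
        εI * (32 * (B : ℝ) * (n / (c * η))) := by
      refine le_trans hI ?_
      refine mul_le_mul_of_nonneg_left (le_trans hLP2 ?_) hεI0.le
      refine mul_le_mul_of_nonneg_left ?_ (by positivity)
      rw [le_div_iff₀ (by positivity)]
      calc (P : ℝ) / Real.log P * (c * η) = c * η * P / Real.log P := by ring
        _ ≤ n := hcard
    have h2 : ∑ Y ∈ Finset.Icc 1 X, (1 / (Y : ℝ)) * MI (QP η P) N L Y ≤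
        W * (εI * (32 * (B : ℝ) * (n / (c * η)))) := by
      rw [one_div, inv_mul_le_iff₀ hW0] at h1
      exact h1
    calc _ ≤ Cs / l * (W * (εI * (32 * (B : ℝ) * (n / (c * η))))) :=
          mul_le_mul_of_nonneg_left h2 (by positivity)
      _ = ε / 16 * n * W := by
          rw [hεI]
          field_simp
  -- the estimate at each scale
  have hterm : ∀ Y ∈ Finset.Icc 1 X, F P Y / (Y : ℝ) ^ 2 ≤
      (if Y < Y₁ L then F P Y else 0) + (Cs / l * ((1 / (Y : ℝ)) * MI (QP η P) N L Y) +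
        (3 * (ε / 16) * n) * (1 / (Y : ℝ))) := by
    intro Y hYm
    rw [Finset.mem_Icc] at hYm
    have hY1 : (1 : ℝ) ≤ Y := by exact_mod_cast hYm.1
    have hY0 : (0 : ℝ) < Y := by linarith
    have hMI : 0 ≤ MI (QP η P) N L Y := afi_MI_nonneg _ _ _ _
    have hnn : 0 ≤ Cs / l * ((1 / (Y : ℝ)) * MI (QP η P) N L Y) +
        (3 * (ε / 16) * n) * (1 / (Y : ℝ)) := by positivity
    by_cases hc1 : Y < Y₁ L
    · rw [if_pos hc1]
      have : F P Y / (Y : ℝ) ^ 2 ≤ F P Y := by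
        apply div_le_self (hF0 P Y)
        nlinarith
      linarith
    · rw [if_neg hc1, zero_add]
      have hYb : Y₀ L ≤ Y ∧ 16 * (L + 1) ^ 2 ≤ Y := by
        simp only [hY₁] at hc1
        omega
      have b1 := hY₀ L hL Y hYb.1
      rw [← hP, ← hn] at b1
      have b2 : ∑ p ∈ QP η P, ∑ u ∈ PN Y, FC ω N L Y p u * th p u =
          ∑ p ∈ QP η P, (((p : ℝ) + 1) * CRd ω N p Y - CR ω N p Y) := by
        refine Finset.sum_congr rfl fun p hp => ?_
        have hp' := tpa_sub η hη hη1 _ hp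
        simp only [PP, Finset.mem_filter, Finset.mem_Ioc] at hp'
        refine tpa_pairs hω hB hN hp'.2.1.one_lt.le ?_ hYb.2
        rw [Nat.le_div_iff_mul_le (by norm_num)]
        have h3 : P * (16 * B) ≤ L := Nat.div_mul_le_self L _
        calc 2 * p * B * 2 ≤ 2 * (2 * P) * B * 2 := by
              gcongr
              exact hp'.1.2
          _ ≤ P * (16 * B) := by nlinarith [Nat.zero_le (P * B)]
          _ ≤ L := h3
      rw [b2] at b1
      have b3 : F P Y ≤ Y * (Cs / l * MI (QP η P) N L Y + 3 * (ε / 16) * n) := by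
        refine le_trans b1 ?_
        have e1 : Cs * Y * (MI (QP η P) N L Y / l + l * R ^ 2 * n + n * (B : ℝ) / M + δ) =
            Y * (Cs / l * MI (QP η P) N L Y + Cs * (l * R ^ 2) * n + Cs * B / M * n +
              Cs * δ) := by
          field_simp
        rw [e1, hlR, hδe]
        refine mul_le_mul_of_nonneg_left ?_ hY0.le
        have c3 : Cs * B / M * n ≤ ε / 16 * n := mul_le_mul_of_nonneg_right hMε hn0.le
        have c4 : ε / 16 ≤ ε / 16 * n := by
          have : 0 < ε / 16 := by positivity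
          nlinarith
        linarith
      rw [div_le_iff₀ (by positivity)]
      refine b3.trans (le_of_eq ?_)
      field_simp
  have hsum := Finset.sum_le_sum hterm
  rw [Finset.sum_add_distrib, Finset.sum_add_distrib, ← Finset.mul_sum, ← Finset.mul_sum,
    ← hW] at hsum
  have hsmall : ∑ Y ∈ Finset.Icc 1 X, (if Y < Y₁ L then F P Y else 0) ≤ A := by
    rw [← Finset.sum_filter]
    calc _ ≤ ∑ Y ∈ Finset.range (Y₁ L), F P Y := by
          refine Finset.sum_le_sum_of_subset_of_nonneg (fun Y hYm => ?_) fun _ _ _ => hF0 _ _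
          rw [Finset.mem_filter] at hYm
          exact Finset.mem_range.2 hYm.2
      _ ≤ A := by
          rw [hA]
          exact Finset.single_le_sum (f := fun L => ∑ Y ∈ Finset.range (Y₁ L), F (L / (16 * B)) Y)
            (fun _ _ => Finset.sum_nonneg fun _ _ => hF0 _ _) hL
  have hAn : A ≤ ε / 2 * n * Real.log X := by
    refine hAX.trans ?_
    have : 0 ≤ ε / 2 * Real.log X := by positivity
    nlinarith
  have hWn : (ε / 16 * n * W) + 3 * (ε / 16) * n * W ≤ ε / 2 * n * Real.log X := by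
    have : W ≤ 2 * Real.log X := by linarith
    have h0 : 0 ≤ ε / 4 * n := by positivity
    calc (ε / 16 * n * W) + 3 * (ε / 16) * n * W = ε / 4 * n * W := by ring
      _ ≤ ε / 4 * n * (2 * Real.log X) := mul_le_mul_of_nonneg_left this h0
      _ = _ := by ring
  have e9 : ε * n * Real.log X = ε / 2 * n * Real.log X + ε / 2 * n * Real.log X := by ring
  rw [e9]
  linarith

end Pool.Agent.T2
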