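import Pool.Agent.Lib_helper39.TB.TBW
import Pool.Agent.Lib_helper39.TB.TDS
import Pool.Agent.Lib_helper39.TB.TPA

/-!
# T2', block TMN: the weighted sums over pairs of determinant one are small on average
(MP_892e4c_nt)
-/

namespace Pool.Agent.T2

open Filter Topology

theorem tmn_blocks (f : ℕ → ℝ) (hf : ∀ Y, 0 ≤ f Y) {P X X' : ℕ} (hP : 1 ≤ P)
    (hX : P * (X + 1) ≤ X' + 1) : ∑ Y ∈ Finset.Icc 1 X,
      ∑ Z ∈ Finset.Ico (P * Y) (P * (Y + 1)), f Z ≤ ∑ Z ∈ Finset.Icc 1 X', f Z := by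
  classical
  rw [← Finset.sum_biUnion]
  · refine Finset.sum_le_sum_of_subset_of_nonneg ?_ fun _ _ _ => hf _
    intro Z hZ
    rw [Finset.mem_biUnion] at hZ
    obtain ⟨Y, hY, hZ⟩ := hZ
    rw [Finset.mem_Icc] at hY ⊢
    rw [Finset.mem_Ico] at hZ
    have h1 : P * (Y + 1) ≤ P * (X + 1) := Nat.mul_le_mul_left _ (by omega)
    have h2 : 0 < P * Y := Nat.mul_pos hP hY.1
    omega
  · intro a _ b _ hab
    rw [Function.onFun, Finset.disjoint_left]
    intro Z h1 h2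
    rw [Finset.mem_Ico] at h1 h2
    apply hab
    have e1 : Z / P = a := by
      rw [Nat.div_eq_iff (by omega)]
      have : P * (a + 1) = a * P + P := by ring
      have h3 : P * a = a * P := mul_comm _ _
      constructor <;> omega
    have e2 : Z / P = b := by
      rw [Nat.div_eq_iff (by omega)]
      have : P * (b + 1) = b * P + P := by ring
      have h3 : P * b = b * P := mul_comm _ _
      constructor <;> omega
    exact e1.symm.trans e2

theorem tmn_step {C : ℝ} {B N : ℕ} {ω : ℕ → ℕ → ℝ} {η : ℝ} {P Y Z : ℕ} (hP : 1 ≤ P)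
    (hC : 0 ≤ C) (hη : 0 < η) (hη1 : η ≤ 1) (hcard : 0 < (QP η P).card)
    (h : ∀ p ∈ QP η P, |CRd ω N p Z - CR ω N 1 Y| ≤ C * B * ((N : ℝ) * η + 1 / p) * Y) :
    |CR ω N 1 Y| ≤ (|∑ p ∈ QP η P, (((p : ℝ) + 1) * CRd ω N p Z - CR ω N p Z)| +
      |∑ p ∈ QP η P, CR ω N p Z|) / ((QP η P).card * P) + C * B * ((N : ℝ) * η + 1 / P) * Y := by
  set A := |∑ p ∈ QP η P, (((p : ℝ) + 1) * CRd ω N p Z - CR ω N p Z)| with hA
  set D := |∑ p ∈ QP η P, CR ω N p Z| with hD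
  set T : ℝ := ∑ p ∈ QP η P, ((p : ℝ) + 1) with hT
  set K : ℝ := C * B * ((N : ℝ) * η + 1 / P) * Y with hK
  have hP0 : (0 : ℝ) < P := by exact_mod_cast hP
  have hn0 : (0 : ℝ) < (QP η P).card := by exact_mod_cast hcard
  have hpP : ∀ p ∈ QP η P, (P : ℝ) ≤ p := by
    intro p hp
    have hp' := tpa_sub η hη hη1 _ hp
    simp only [PP, Finset.mem_filter, Finset.mem_Ioc] at hp'
    exact_mod_cast hp'.1.1.le
  have hTl : (QP η P).card * (P : ℝ) ≤ T := by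
    rw [hT, ← nsmul_eq_mul, ← Finset.sum_const]
    refine Finset.sum_le_sum fun p hp => ?_
    have := hpP p hp
    linarith
  have hT0 : 0 < T := lt_of_lt_of_le (by positivity) hTl
  have h1 : T * CR ω N 1 Y = (∑ p ∈ QP η P, (((p : ℝ) + 1) * CRd ω N p Z - CR ω N p Z)) +
      (∑ p ∈ QP η P, CR ω N p Z) - ∑ p ∈ QP η P, ((p : ℝ) + 1) *
        (CRd ω N p Z - CR ω N 1 Y) := by
    rw [hT, Finset.sum_mul, ← Finset.sum_add_distrib, ← Finset.sum_sub_distrib]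
    refine Finset.sum_congr rfl fun p _ => ?_
    ring
  have h2 : |∑ p ∈ QP η P, ((p : ℝ) + 1) * (CRd ω N p Z - CR ω N 1 Y)| ≤ T * K := by
    refine (Finset.abs_sum_le_sum_abs _ _).trans ?_
    rw [hT, Finset.sum_mul]
    refine Finset.sum_le_sum fun p hp => ?_
    rw [abs_mul, abs_of_nonneg (by positivity : (0 : ℝ) ≤ (p : ℝ) + 1)]
    refine mul_le_mul_of_nonneg_left ((h p hp).trans ?_) (by positivity)
    rw [hK]
    refine mul_le_mul_of_nonneg_right ?_ (Nat.cast_nonneg _)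
    refine mul_le_mul_of_nonneg_left ?_ (by positivity)
    have h3 : 1 / (p : ℝ) ≤ 1 / P := one_div_le_one_div_of_le hP0 (hpP p hp)
    linarith
  have h3 : T * |CR ω N 1 Y| ≤ A + D + T * K := by
    have h4 : T * |CR ω N 1 Y| = |T * CR ω N 1 Y| := by
      rw [abs_mul, abs_of_pos hT0]
    rw [h4, h1]
    refine (abs_sub _ _).trans ?_
    have h5 := abs_add_le (∑ p ∈ QP η P, (((p : ℝ) + 1) * CRd ω N p Z - CR ω N p Z))
      (∑ p ∈ QP η P, CR ω N p Z)
    linarith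
  have h4 : |CR ω N 1 Y| ≤ (A + D) / T + K := by
    rw [div_add' _ _ _ hT0.ne', le_div_iff₀ hT0]
    linarith
  refine h4.trans (add_le_add_left ?_ _)
  exact div_le_div_of_nonneg_left (by positivity) (by positivity) hTl

/-- the weighted sums over pairs of determinant one are small on average -/
theorem main_w {B N : ℕ} {ω : ℕ → ℕ → ℝ} (hω : WOK B N ω) (hB : 1 ≤ B) (hN : 1 ≤ N)
    (ε : ℝ) (hε : 0 < ε) : ∃ X₀ : ℕ, ∀ X : ℕ, X₀ ≤ X →
      ∑ Y ∈ Finset.Icc 1 X, |CR ω N 1 Y| / (Y : ℝ) ^ 2 ≤ ε * Real.log X := by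
  classical
  obtain ⟨C, hC, hdil⟩ := dil_shift
  obtain ⟨c, hc, hlow⟩ := qp_lower
  have hNr : (1 : ℝ) ≤ N := by exact_mod_cast hN
  have hBr : (1 : ℝ) ≤ B := by exact_mod_cast hB
  have hC0 : (0 : ℝ) < C := by linarith
  obtain ⟨η₀, hη₀, hbil⟩ := bil_w hω hN (ε / 32) (by positivity)
  -- the parameter η
  set η : ℝ := min (min 1 (1 / N)) (min η₀ (ε / (12 * C * B * N))) with hη
  have hη0 : 0 < η := lt_min (lt_min one_pos (by positivity)) (lt_min hη₀ (by positivity))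
  have hη1 : η ≤ 1 := (min_le_left _ _).trans (min_le_left _ _)
  have hηN : (N : ℝ) * η ≤ 1 := by
    have : η ≤ 1 / N := (min_le_left _ _).trans (min_le_right _ _)
    rw [le_div_iff₀ (by positivity)] at this
    linarith
  have hηη : η ≤ η₀ := (min_le_right _ _).trans (min_le_left _ _)
  have hηε : C * B * (N * η) ≤ ε / 12 := by
    have : η ≤ ε / (12 * C * B * N) := (min_le_right _ _).trans (min_le_right _ _)
    rw [le_div_iff₀ (by positivity)] at this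
    linarith
  obtain ⟨P₀, hP₀⟩ := hbil η hη0 hηη
  obtain ⟨P₁, hP₁⟩ := hlow η hη0 hη1
  obtain ⟨P₂, hP₂⟩ := exists_nat_gt (12 * C * B / ε)
  obtain ⟨Y₀, hY₀⟩ := hdil B N ω hω hB hN η hη0 hηN
  obtain ⟨Q, X₁, hQ, hA⟩ := part_A2 hω hB hN η (ε / 32) hη0 hη1 (by positivity)
    (P₀ + P₁ + P₂ + 2)
  have hX : ∀ P ∈ Q, ∃ X₀ : ℕ, ∀ X : ℕ, X₀ ≤ X → ∑ Y ∈ Finset.Icc 1 X,
      |∑ p ∈ QP η P, CR ω N p Y| / (Y : ℝ) ^ 2 ≤ ε / 32 * ((QP η P).card : ℝ) * Real.log X :=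
    fun P hP => hP₀ P (by have := hQ P hP; omega)
  choose! X₂ hX₂ using hX
  obtain ⟨X₃, hX₃⟩ := tbw_max Q X₂
  obtain ⟨P₃, hP₃⟩ := tbw_max Q id
  -- the small values of Y
  set K : ℝ := C * B * ((N : ℝ) * η + 1 / (P₂ + 1 : ℕ)) with hK
  have hK0 : 0 < K := by positivity
  have hKε : K ≤ ε / 6 := by
    have h1 : C * B * (1 / ((P₂ + 1 : ℕ) : ℝ)) ≤ ε / 12 := by
      rw [mul_one_div, div_le_iff₀ (by positivity)]
      rw [div_lt_iff₀ hε] at hP₂
      push_cast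
      nlinarith
    rw [hK, mul_add]
    linarith
  set F : ℕ → ℝ := fun Y => if Y < Y₀ then |CR ω N 1 Y| else K * Y with hF
  obtain ⟨X₄, hX₄⟩ := tcb_tail F K hK0 Y₀ (by
    intro Y hY
    rw [hF]
    simp only
    rw [if_neg (by omega)])
  refine ⟨X₁ + X₃ + X₄ + 2 * P₃ + 4, fun X hX => ?_⟩
  have hX1 : (1 : ℝ) ≤ X := by exact_mod_cast (by omega : 1 ≤ X)
  have hlog : 0 ≤ Real.log X := Real.log_nonneg hX1
  -- the large scale
  set X' : ℕ := (P₃ + 1) * (X + 1) with hX'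
  have hXX' : X ≤ X' := by rw [hX']; nlinarith
  have hX'0 : (0 : ℝ) < X' := by exact_mod_cast (by omega : 0 < X')
  have hlog' : Real.log X' ≤ 2 * Real.log X := by
    have h1 : X' ≤ X ^ 2 := by
      rw [hX']
      nlinarith
    have h2 : (X' : ℝ) ≤ (X : ℝ) ^ 2 := by exact_mod_cast h1
    have h3 := Real.log_le_log hX'0 h2
    rw [Real.log_pow] at h3
    push_cast at h3
    exact h3
  obtain ⟨P, hPQ, hAP⟩ := hA X' (by omega)
  have hBP := hX₂ P hPQ X' (by have := hX₃ P hPQ; omega)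
  have hPge := hQ P hPQ
  have hPle : P ≤ P₃ := hP₃ P hPQ
  have hP1 : 1 ≤ P := by omega
  have hP0 : (0 : ℝ) < P := by exact_mod_cast hP1
  have hn0 : (0 : ℝ) < (QP η P).card := by
    have h1 := hP₁ P (by omega)
    have h2 : (2 : ℝ) ≤ P := by exact_mod_cast (by omega : 2 ≤ P)
    have h3 : 0 < Real.log P := Real.log_pos (by linarith)
    exact lt_of_lt_of_le (by positivity) h1
  have hncard : 0 < (QP η P).card := by exact_mod_cast hn0
  set n : ℝ := ((QP η P).card : ℝ) with hn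
  set f : ℕ → ℝ := fun Z => |∑ p ∈ QP η P, (((p : ℝ) + 1) * CRd ω N p Z - CR ω N p Z)| +
    |∑ p ∈ QP η P, CR ω N p Z| with hf
  have hf0 : ∀ Z, 0 ≤ f Z := fun Z => add_nonneg (abs_nonneg _) (abs_nonneg _)
  -- the pointwise bound
  have hpoint : ∀ Y : ℕ, 1 ≤ Y → |CR ω N 1 Y| ≤ F Y + 1 / (n * P ^ 2) *
      ∑ Z ∈ Finset.Ico (P * Y) (P * (Y + 1)), f Z := by
    intro Y hY
    have hs0 : 0 ≤ 1 / (n * P ^ 2) * ∑ Z ∈ Finset.Ico (P * Y) (P * (Y + 1)), f Z :=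
      mul_nonneg (by positivity) (Finset.sum_nonneg fun Z _ => hf0 Z)
    rw [hF]
    simp only
    split_ifs with h
    · linarith
    · have h1 : ∀ Z ∈ Finset.Ico (P * Y) (P * (Y + 1)),
          |CR ω N 1 Y| ≤ f Z / (n * P) + K * Y := by
        intro Z hZ
        rw [Finset.mem_Ico] at hZ
        have h2 := tmn_step (C := C) (B := B) (N := N) (ω := ω) (η := η) (P := P) (Y := Y)
          (Z := Z) hP1 hC0.le hη0 hη1 hncard
          (fun p hp => hY₀ Y (by omega) P p Z hP1 hp hZ.1 hZ.2)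
        refine h2.trans (add_le_add_right ?_ _)
        refine mul_le_mul_of_nonneg_right ?_ (Nat.cast_nonneg _)
        rw [hK]
        refine mul_le_mul_of_nonneg_left ?_ (by positivity)
        have h3 : ((P₂ + 1 : ℕ) : ℝ) ≤ P := by exact_mod_cast (by omega : P₂ + 1 ≤ P)
        have h4 : 1 / (P : ℝ) ≤ 1 / ((P₂ + 1 : ℕ) : ℝ) :=
          one_div_le_one_div_of_le (by positivity) h3
        linarith
      have h2 := Finset.sum_le_sum h1
      rw [Finset.sum_const, Nat.card_Ico, Finset.sum_add_distrib, Finset.sum_const, Nat.card_Ico,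
        ← Finset.sum_div] at h2
      have e1 : P * (Y + 1) - P * Y = P := by
        rw [mul_add, mul_one]; omega
      rw [e1, nsmul_eq_mul, nsmul_eq_mul] at h2
      set S := ∑ Z ∈ Finset.Ico (P * Y) (P * (Y + 1)), f Z with hS
      have h3 : |CR ω N 1 Y| ≤ (S / (n * P) + P * (K * Y)) / P := by
        rw [le_div_iff₀ hP0]; linarith
      refine h3.trans (le_of_eq ?_)
      field_simp
      ring
  have h1 : ∑ Y ∈ Finset.Icc 1 X, |CR ω N 1 Y| / (Y : ℝ) ^ 2 ≤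
      ∑ Y ∈ Finset.Icc 1 X, (F Y / (Y : ℝ) ^ 2 + 4 / n *
        ∑ Z ∈ Finset.Ico (P * Y) (P * (Y + 1)), f Z / (Z : ℝ) ^ 2) := by
    refine Finset.sum_le_sum fun Y hY => ?_
    rw [Finset.mem_Icc] at hY
    have hY0 : (0 : ℝ) < Y := by exact_mod_cast hY.1
    have h2 := div_le_div_of_nonneg_right (hpoint Y hY.1) (by positivity : (0 : ℝ) ≤ (Y : ℝ) ^ 2)
    refine h2.trans ?_
    rw [add_div]
    refine add_le_add_right ?_ _
    rw [mul_div_assoc, Finset.sum_div, Finset.mul_sum, Finset.mul_sum]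
    refine Finset.sum_le_sum fun Z hZ => ?_
    rw [Finset.mem_Ico] at hZ
    have hZ1 : 1 ≤ Z := le_trans (Nat.mul_pos hP1 hY.1) hZ.1
    have hZ0 : (0 : ℝ) < Z := by exact_mod_cast hZ1
    have h3 : (Z : ℝ) ≤ 2 * (P * Y) := by
      have h4 : Z ≤ 2 * (P * Y) := by
        have h5 : P * (Y + 1) ≤ P * (2 * Y) := Nat.mul_le_mul_left _ (by omega)
        have h6 : P * (2 * Y) = 2 * (P * Y) := by ring
        omega
      exact_mod_cast h4
    have h4 : (Z : ℝ) ^ 2 ≤ 4 * (P ^ 2 * Y ^ 2) := by nlinarith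
    have e1 : 1 / (n * (P : ℝ) ^ 2) * (f Z / (Y : ℝ) ^ 2) = f Z / (n * ((P : ℝ) ^ 2 * Y ^ 2)) := by
      field_simp
    have e2 : 4 / n * (f Z / (Z : ℝ) ^ 2) = f Z * 4 / (n * (Z : ℝ) ^ 2) := by
      field_simp
    rw [e1, e2, div_le_div_iff₀ (by positivity) (by positivity)]
    have h5 := mul_le_mul_of_nonneg_left h4 (mul_nonneg (hf0 Z) hn0.le)
    linarith
  refine h1.trans ?_
  rw [Finset.sum_add_distrib, ← Finset.mul_sum]
  have h2 := tmn_blocks (fun Z => f Z / (Z : ℝ) ^ 2) (fun Z => div_nonneg (hf0 Z) (by positivity))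
    (P := P) (X := X) (X' := X') hP1 (by
      have : P * (X + 1) ≤ (P₃ + 1) * (X + 1) := Nat.mul_le_mul_right _ (by omega)
      omega)
  have h3 : ∑ Z ∈ Finset.Icc 1 X', f Z / (Z : ℝ) ^ 2 ≤ ε / 16 * n * Real.log X' := by
    have e1 : ∑ Z ∈ Finset.Icc 1 X', f Z / (Z : ℝ) ^ 2 =
        ∑ Z ∈ Finset.Icc 1 X', |∑ p ∈ QP η P, (((p : ℝ) + 1) * CRd ω N p Z - CR ω N p Z)| /
          (Z : ℝ) ^ 2 + ∑ Z ∈ Finset.Icc 1 X', |∑ p ∈ QP η P, CR ω N p Z| / (Z : ℝ) ^ 2 := by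
      rw [← Finset.sum_add_distrib]
      refine Finset.sum_congr rfl fun Z _ => ?_
      rw [hf]
      simp only
      rw [add_div]
    rw [e1]
    linarith
  have h4 := hX₄ X (by omega)
  have h5 : 4 / n * ∑ Y ∈ Finset.Icc 1 X, ∑ Z ∈ Finset.Ico (P * Y) (P * (Y + 1)),
      f Z / (Z : ℝ) ^ 2 ≤ ε / 2 * Real.log X := by
    calc 4 / n * ∑ Y ∈ Finset.Icc 1 X, ∑ Z ∈ Finset.Ico (P * Y) (P * (Y + 1)), f Z / (Z : ℝ) ^ 2
        ≤ 4 / n * (ε / 16 * n * Real.log X') :=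
          mul_le_mul_of_nonneg_left (h2.trans h3) (by positivity)
      _ = ε / 4 * Real.log X' := by field_simp; ring
      _ ≤ ε / 4 * (2 * Real.log X) := mul_le_mul_of_nonneg_left hlog' (by positivity)
      _ = ε / 2 * Real.log X := by ring
  have h6 : 3 * K * Real.log X ≤ ε / 2 * Real.log X :=
    mul_le_mul_of_nonneg_right (by linarith) hlog
  linarith

end Pool.Agent.T2
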