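import Pool.Agent.Lib_helper39.TB.Defs
import Pool.Agent.Lib_helper10.T2F.ZCO
import Pool.Agent.Lib_helper10.T2F.ANX

/-!
# T2', block TRF: the sum over `n` as a sum over pairs of determinant one (MP_892e4c_nt)
-/

namespace Pool.Agent.T2

open Filter Topology

open Classical in
/-- the pairs of determinant one in the ratio window, of inner product at most `x` -/
noncomputable def trgT (α β : ℝ) (x Y : ℕ) : Finset (G × G) :=
  (PN Y ×ˢ PN Y).filter (fun t => det t.1 t.2 = 1 ∧ 0 < ip t.1 t.2 ∧ ip t.1 t.2 ≤ (x : ℤ) ∧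
    α * (ip t.1 t.2 : ℝ) < (nn t.1 : ℝ) ∧ (nn t.1 : ℝ) ≤ β * (ip t.1 t.2 : ℝ))

theorem trg_prod {v w : G} (h : det v w = 1) : (nn v : ℝ) * nn w = (ip v w : ℝ) ^ 2 + 1 := by
  have h1 := ip_sq_add v w
  rw [h] at h1
  have h2 : (((nn v : ℤ) * nn w : ℤ) : ℝ) = ((ip v w ^ 2 + 1 ^ 2 : ℤ) : ℝ) := by rw [h1]
  push_cast at h2
  linarith

/-- the sizes of the two elements -/
theorem trg_size {α β : ℝ} (hα : 0 < α) {κ x n : ℕ} (h1 : β ≤ κ) (h2 : 2 / α ≤ κ) (hn : 1 ≤ n)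
    (hnx : n ≤ x) {v w : G} (hd : det v w = 1) (hi : ip v w = n) (ha : α * n < (nn v : ℝ))
    (hb : (nn v : ℝ) ≤ β * n) : nn v ≤ κ * x ∧ nn w ≤ κ * x := by
  have hn1 : (1 : ℝ) ≤ n := by exact_mod_cast hn
  have hnx' : (n : ℝ) ≤ x := by exact_mod_cast hnx
  have hκ0 : (0 : ℝ) ≤ κ := Nat.cast_nonneg _
  have e := trg_prod hd
  rw [hi] at e
  push_cast at e
  have hv0 : (0 : ℝ) < nn v := lt_trans (by positivity) ha
  constructor
  · have : (nn v : ℝ) ≤ κ * x := hb.trans (by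
      calc β * n ≤ κ * n := mul_le_mul_of_nonneg_right h1 (by positivity)
        _ ≤ κ * x := mul_le_mul_of_nonneg_left hnx' hκ0)
    exact_mod_cast this
  · have h3 : α * n * nn w ≤ 2 * n ^ 2 := by
      have : α * n * nn w ≤ nn v * nn w := mul_le_mul_of_nonneg_right ha.le (Nat.cast_nonneg _)
      nlinarith
    have h4 : (nn w : ℝ) ≤ 2 / α * n := by
      rw [div_mul_eq_mul_div, le_div_iff₀ hα]
      have h5 : n * (nn w * α) ≤ n * (2 * (n : ℝ)) := by nlinarith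
      exact le_of_mul_le_mul_left h5 (by linarith)
    have : (nn w : ℝ) ≤ κ * x := h4.trans (by
      calc 2 / α * n ≤ κ * n := mul_le_mul_of_nonneg_right h2 (by positivity)
        _ ≤ κ * x := mul_le_mul_of_nonneg_left hnx' hκ0)
    exact_mod_cast this

open Classical in
theorem trg_fiber {α β : ℝ} (hα : 0 < α) {κ x n : ℕ} (h1 : β ≤ κ) (h2 : 2 / α ≤ κ) (hn : 1 ≤ n)
    (hnx : n ≤ x) : ((trgT α β x (κ * x)).filter (fun t => ip t.1 t.2 = n)).card =
      (zcoV α β n).card := by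
  apply Finset.card_bij (fun t _ => t.1)
  · intro t ht
    unfold trgT at ht
    rw [Finset.mem_filter, Finset.mem_filter] at ht
    obtain ⟨⟨-, h3, h4, h5, h7, h8⟩, h9⟩ := ht
    rw [zco_mem]
    rw [h9] at h7 h8
    push_cast at h7 h8
    refine ⟨prm_ne (zco_prm h3).1, h8, ?_, h7⟩
    refine ⟨t.2, ?_⟩
    rw [zco_star_mul, h9, h3]
  · intro t ht s hs hts
    unfold trgT at ht hs
    rw [Finset.mem_filter, Finset.mem_filter] at ht hs
    have h3t : det t.1 t.2 = 1 := ht.1.2.1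
    have h3s : det s.1 s.2 = 1 := hs.1.2.1
    have e1 := zco_star_mul t.1 t.2
    have e2 := zco_star_mul s.1 s.2
    rw [ht.2, h3t] at e1
    rw [hs.2, h3s, ← hts] at e2
    have h0 : star t.1 ≠ 0 := by
      intro h
      apply prm_ne (zco_prm h3t).1
      have := congrArg star h
      simpa using this
    have h5 : t.2 = s.2 := mul_left_cancel₀ h0 (e1.trans e2.symm)
    exact Prod.ext hts h5
  · intro v hv
    rw [zco_mem] at hv
    obtain ⟨h3, h4, ⟨w, hw⟩, h5⟩ := hv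
    have e := zco_star_mul v w
    rw [← hw] at e
    have e1 : ip v w = n := (congrArg Zsqrtd.re e).symm
    have e2 : det v w = 1 := (congrArg Zsqrtd.im e).symm
    have hp := zco_prm e2
    obtain ⟨s1, s2⟩ := trg_size hα h1 h2 hn hnx e2 e1 h5 h4
    refine ⟨(v, w), ?_, rfl⟩
    rw [Finset.mem_filter]
    refine ⟨?_, e1⟩
    unfold trgT
    rw [Finset.mem_filter, Finset.mem_product]
    refine ⟨⟨mem_PN.2 ⟨hp.1, s1⟩, mem_PN.2 ⟨hp.2, s2⟩⟩, e2, ?_, ?_, ?_, ?_⟩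
    · show 0 < ip v w
      rw [e1]; exact_mod_cast hn
    · show ip v w ≤ x
      rw [e1]; exact_mod_cast hnx
    · show α * (ip v w : ℝ) < nn v
      rw [e1]; exact_mod_cast h5
    · show (nn v : ℝ) ≤ β * (ip v w : ℝ)
      rw [e1]; exact_mod_cast h4

open Classical in
theorem trg_group (α β : ℝ) (x Y : ℕ) (g : G × G → ℝ) : ∑ t ∈ trgT α β x Y, g t =
    ∑ n ∈ Finset.Icc 1 x, ∑ t ∈ (trgT α β x Y).filter (fun t => ip t.1 t.2 = n), g t := by
  have h2 : ∀ t ∈ trgT α β x Y, (ip t.1 t.2).toNat ∈ Finset.Icc 1 x := by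
    intro t ht
    unfold trgT at ht
    rw [Finset.mem_filter] at ht
    rw [Finset.mem_Icc]
    have h3 := ht.2.2.1
    have h4 := ht.2.2.2.1
    omega
  rw [← Finset.sum_fiberwise_of_maps_to h2]
  apply Finset.sum_congr rfl
  intro n hn
  rw [Finset.mem_Icc] at hn
  apply Finset.sum_congr _ (fun _ _ => rfl)
  ext t
  simp only [Finset.mem_filter]
  constructor
  · rintro ⟨h3, h5⟩
    refine ⟨h3, ?_⟩
    unfold trgT at h3
    rw [Finset.mem_filter] at h3
    have := h3.2.2.1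
    omega
  · rintro ⟨h3, h4⟩
    refine ⟨h3, ?_⟩
    rw [h4]; simp

open Classical in
theorem trg_SW {α β : ℝ} (hα : 0 < α) {κ x : ℕ} (h1 : β ≤ κ) (h2 : 2 / α ≤ κ) :
    SW α β x = (1 / 4) * ∑ t ∈ trgT α β x (κ * x), gl t.1 * gl t.2 := by
  rw [trg_group]
  unfold SW
  rw [Finset.mul_sum]
  refine Finset.sum_congr rfl fun n hn => ?_
  rw [Finset.mem_Icc] at hn
  have h3 : ∑ t ∈ (trgT α β x (κ * x)).filter (fun t => ip t.1 t.2 = n), gl t.1 * gl t.2 =
      ∑ t ∈ (trgT α β x (κ * x)).filter (fun t => ip t.1 t.2 = n), lam (n ^ 2 + 1) := by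
    refine Finset.sum_congr rfl fun t ht => ?_
    unfold trgT at ht
    rw [Finset.mem_filter, Finset.mem_filter] at ht
    exact zco_terms ht.1.2.1 ht.2
  rw [h3, Finset.sum_const, nsmul_eq_mul, trg_fiber hα h1 h2 hn.1 hn.2, zco_card4]
  ring

open Classical in
/-- the number of pairs -/
theorem trg_card {α β : ℝ} (hα : 0 < α) {κ x : ℕ} (h1 : β ≤ κ) (h2 : 2 / α ≤ κ) :
    ∑ n ∈ Finset.Icc 1 x, Wdiv α β n = (1 / 4) * ((trgT α β x (κ * x)).card : ℝ) := by
  have h0 : ((trgT α β x (κ * x)).card : ℝ) = ∑ t ∈ trgT α β x (κ * x), (1 : ℝ) := by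
    rw [Finset.sum_const, nsmul_eq_mul, mul_one]
  rw [h0, trg_group, Finset.mul_sum]
  refine Finset.sum_congr rfl fun n hn => ?_
  rw [Finset.mem_Icc] at hn
  rw [Finset.sum_const, nsmul_eq_mul, trg_fiber hα h1 h2 hn.1 hn.2, zco_card4]
  ring

end Pool.Agent.T2
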