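import Pool.Agent.Lib_helper39.TB.TRF
import Pool.Agent.Lib_helper39.TB.TCB

/-!
# T2', block TRI: the quantised window, inequalities (MP_892e4c_nt)
-/

namespace Pool.Agent.T2

open Filter Topology

open Classical in
/-- the quantised window -/
noncomputable def trw (α β : ℝ) (κ B N c d : ℕ) : ℝ :=
  if N ≤ B * c ∧ N ≤ B * d ∧ c < N ∧ d < N ∧ κ ^ 2 * (c * d) ≤ N ^ 2 ∧
    α ^ 2 * (d : ℝ) < (c : ℝ) ∧ (c : ℝ) ≤ β ^ 2 * (d : ℝ) then 1 else 0

theorem trw_WOK (α β : ℝ) (κ B N : ℕ) : WOK B N (trw α β κ B N) where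
  bd := by
    intro c d
    unfold trw
    split_ifs <;> simp
  supp := by
    intro c d h
    unfold trw at h
    split_ifs at h with h1
    · exact ⟨h1.1, h1.2.1, h1.2.2.1, h1.2.2.2.1⟩
    · exact absurd rfl h

theorem trg_cell {N Y : ℕ} (hN : 1 ≤ N) (hY : 1 ≤ Y) (u : G) :
    (ce N Y u : ℝ) / N ≤ (nn u : ℝ) / Y ∧ (nn u : ℝ) / Y < ((ce N Y u : ℝ) + 1) / N := by
  have hN0 : (0 : ℝ) < N := by exact_mod_cast hN
  have hY0 : (0 : ℝ) < Y := by exact_mod_cast hY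
  have h1 : ce N Y u * Y ≤ N * nn u := Nat.div_mul_le_self _ _
  have h2 : N * nn u < (ce N Y u + 1) * Y := by
    have := Nat.lt_mul_div_succ (N * nn u) hY
    unfold ce
    rw [mul_comm (N * nn u / Y + 1) Y]
    exact this
  have h1' : (ce N Y u : ℝ) * Y ≤ N * nn u := by exact_mod_cast h1
  have h2' : (N : ℝ) * nn u < ((ce N Y u : ℝ) + 1) * Y := by exact_mod_cast h2
  constructor
  · rw [div_le_div_iff₀ hN0 hY0]; linarith
  · rw [div_lt_div_iff₀ hY0 hN0]; linarith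

theorem trg_ce_le {N Y : ℕ} (hY : 1 ≤ Y) {u : G} (hu : nn u ≤ Y) : ce N Y u ≤ N := by
  unfold ce
  exact Nat.div_le_of_le_mul (by rw [mul_comm]; exact Nat.mul_le_mul_right _ hu)

/-- the boundary `ip = x` -/
theorem trg_A {κ N x : ℕ} (hκ : 1 ≤ κ) (hN : 1 ≤ N) (hx : 1 ≤ x) {v w : G}
    (hd : det v w = 1) (hi : 0 < ip v w) (hv : nn v ≤ κ * x) (hw : nn w ≤ κ * x)
    (h : ¬ (ip v w ≤ (x : ℤ) ↔ κ ^ 2 * (ce N (κ * x) v * ce N (κ * x) w) ≤ N ^ 2)) :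
    |(κ : ℝ) ^ 2 * ((nn v : ℝ) / (κ * x : ℕ) * ((nn w : ℝ) / (κ * x : ℕ))) - 1| ≤
      3 * (κ : ℝ) ^ 2 / N + 1 / (x : ℝ) ^ 2 := by
  have hκ1 : (1 : ℝ) ≤ κ := by exact_mod_cast hκ
  have hN1 : (1 : ℝ) ≤ N := by exact_mod_cast hN
  have hx1 : (1 : ℝ) ≤ x := by exact_mod_cast hx
  have hN0 : (0 : ℝ) < N := by linarith
  have hY1 : 1 ≤ κ * x := Nat.mul_pos hκ hx
  set c := ce N (κ * x) v with hc
  set d := ce N (κ * x) w with hdd
  obtain ⟨v1, v2⟩ := trg_cell hN hY1 v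
  obtain ⟨w1, w2⟩ := trg_cell hN hY1 w
  rw [← hc] at v1 v2
  rw [← hdd] at w1 w2
  have c1 : (c : ℝ) ≤ N := by exact_mod_cast trg_ce_le hY1 hv
  have d1 : (d : ℝ) ≤ N := by exact_mod_cast trg_ce_le hY1 hw
  set s : ℝ := (nn v : ℝ) / (κ * x : ℕ) with hs
  set u : ℝ := (nn w : ℝ) / (κ * x : ℕ) with hu
  have hs0 : 0 ≤ s := by positivity
  have hu0 : 0 ≤ u := by positivity
  have e := trg_prod hd
  set n : ℝ := (ip v w : ℝ) with hn
  have hn0 : 0 < n := by rw [hn]; exact_mod_cast hi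
  have e1 : (κ : ℝ) ^ 2 * (s * u) = (n ^ 2 + 1) / (x : ℝ) ^ 2 := by
    rw [hs, hu, ← e]
    push_cast
    field_simp
  set Q : ℝ := (c : ℝ) * d / (N : ℝ) ^ 2 with hQ
  have q1 : Q ≤ s * u := by
    have : (c : ℝ) / N * (d / N) ≤ s * u := mul_le_mul v1 w1 (by positivity) hs0
    calc Q = (c : ℝ) / N * (d / N) := by rw [hQ]; field_simp
      _ ≤ _ := this
  have q2 : s * u ≤ Q + 3 / N := by
    have h1 : s * u ≤ ((c : ℝ) + 1) / N * (((d : ℝ) + 1) / N) :=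
      mul_le_mul v2.le w2.le hu0 (by positivity)
    refine h1.trans ?_
    have h2 : ((c : ℝ) + 1) / N * (((d : ℝ) + 1) / N) = Q + ((c : ℝ) + d + 1) / (N : ℝ) ^ 2 := by
      rw [hQ]; field_simp; ring
    rw [h2]
    have h3 : ((c : ℝ) + d + 1) / (N : ℝ) ^ 2 ≤ 3 / N := by
      rw [div_le_div_iff₀ (by positivity) hN0]
      nlinarith
    linarith
  have hQc : κ ^ 2 * (c * d) ≤ N ^ 2 ↔ (κ : ℝ) ^ 2 * Q ≤ 1 := by
    rw [hQ, ← mul_div_assoc, div_le_one (by positivity)]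
    constructor
    · intro h; exact_mod_cast h
    · intro h; exact_mod_cast h
  rw [hQc] at h
  have hk2 : (0 : ℝ) < (κ : ℝ) ^ 2 := by positivity
  have q1' := mul_le_mul_of_nonneg_left q1 hk2.le
  have q2' : (κ : ℝ) ^ 2 * (s * u) ≤ (κ : ℝ) ^ 2 * Q + 3 * (κ : ℝ) ^ 2 / N := by
    have := mul_le_mul_of_nonneg_left q2 hk2.le
    rw [mul_add] at this
    have e3 : (κ : ℝ) ^ 2 * (3 / N) = 3 * (κ : ℝ) ^ 2 / N := by ring
    linarith
  have p1 : 0 ≤ 3 * (κ : ℝ) ^ 2 / N := by positivity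
  have p2 : 0 ≤ 1 / (x : ℝ) ^ 2 := by positivity
  by_cases h1 : ip v w ≤ (x : ℤ)
  · have h2 : ¬ (κ : ℝ) ^ 2 * Q ≤ 1 := fun h3 => h ⟨fun _ => h3, fun _ => h1⟩
    push Not at h2
    have h3 : n ≤ x := by rw [hn]; exact_mod_cast h1
    have h4 : (κ : ℝ) ^ 2 * (s * u) ≤ 1 + 1 / (x : ℝ) ^ 2 := by
      rw [e1, add_div]
      have : n ^ 2 / (x : ℝ) ^ 2 ≤ 1 := by
        rw [div_le_one (by positivity)]
        exact pow_le_pow_left₀ hn0.le h3 2
      linarith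
    rw [abs_le]
    constructor <;> linarith
  · have h2 : (κ : ℝ) ^ 2 * Q ≤ 1 := by
      by_contra h3
      exact h ⟨fun h4 => absurd h4 h1, fun h4 => absurd h4 h3⟩
    push Not at h1
    have h3 : (x : ℝ) < n := by rw [hn]; exact_mod_cast h1
    have h4 : 1 ≤ (κ : ℝ) ^ 2 * (s * u) := by
      rw [e1, le_div_iff₀ (by positivity), one_mul]
      have : (x : ℝ) ^ 2 ≤ n ^ 2 := pow_le_pow_left₀ (by linarith) h3.le 2
      linarith
    rw [abs_le]
    constructor <;> linarith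

theorem trg_A2 {κ r₀ e s u : ℝ} (hκ : 1 ≤ κ) (hr : 0 < r₀) (hs : r₀ ≤ Real.sqrt s) (hs0 : 0 ≤ s)
    (hu0 : 0 ≤ u) (he : 0 ≤ e) (h : |κ ^ 2 * (s * u) - 1| ≤ e) :
    |Real.sqrt u - 1 / (κ * Real.sqrt s)| ≤ e / r₀ := by
  set ρ := Real.sqrt s with hρ
  set σ := Real.sqrt u with hσ
  have hρ0 : 0 < ρ := lt_of_lt_of_le hr hs
  have hσ0 : 0 ≤ σ := Real.sqrt_nonneg _
  have e1 : s = ρ ^ 2 := (Real.sq_sqrt hs0).symm
  have e2 : u = σ ^ 2 := (Real.sq_sqrt hu0).symm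
  have hκ0 : 0 < κ := by linarith
  have h1 : |κ * ρ * σ - 1| ≤ e := by
    have e3 : κ ^ 2 * (s * u) - 1 = (κ * ρ * σ - 1) * (κ * ρ * σ + 1) := by rw [e1, e2]; ring
    rw [e3, abs_mul] at h
    have h2 : 1 ≤ |κ * ρ * σ + 1| := by
      rw [abs_of_nonneg (by positivity)]
      have : 0 ≤ κ * ρ * σ := by positivity
      linarith
    have h3 := mul_le_mul_of_nonneg_left h2 (abs_nonneg (κ * ρ * σ - 1))
    linarith
  have e4 : σ - 1 / (κ * ρ) = (κ * ρ * σ - 1) / (κ * ρ) := by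
    field_simp
  rw [e4, abs_div, abs_of_pos (by positivity : 0 < κ * ρ)]
  apply div_le_div₀ he h1 hr
  nlinarith

/-- the boundary of the ratio window -/
theorem trg_B {γ : ℝ} (hγ : 0 < γ) {N Y : ℕ} (hN : 1 ≤ N) (hY : 1 ≤ Y) {v w : G}
    (hd : det v w = 1) (hi : 0 < ip v w)
    (h : ¬ (γ * (ip v w : ℝ) < (nn v : ℝ) ↔ γ ^ 2 * (ce N Y w : ℝ) < (ce N Y v : ℝ))) :
    |γ ^ 2 * ((nn w : ℝ) / Y) - (nn v : ℝ) / Y| ≤ (1 + γ ^ 2) / N + γ ^ 2 / Y := by
  have hN1 : (1 : ℝ) ≤ N := by exact_mod_cast hN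
  have hY1 : (1 : ℝ) ≤ Y := by exact_mod_cast hY
  have hN0 : (0 : ℝ) < N := by linarith
  have hY0 : (0 : ℝ) < Y := by linarith
  obtain ⟨v1, v2⟩ := trg_cell hN hY v
  obtain ⟨w1, w2⟩ := trg_cell hN hY w
  set c : ℝ := (ce N Y v : ℝ) with hc
  set d : ℝ := (ce N Y w : ℝ) with hdd
  have e := trg_prod hd
  set n : ℝ := (ip v w : ℝ) with hn
  have hn0 : 0 < n := by rw [hn]; exact_mod_cast hi
  have ha1 : (1 : ℝ) ≤ nn v := by exact_mod_cast nn_pos.2 (prm_ne (zco_prm hd).1)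
  set a : ℝ := (nn v : ℝ) with ha
  set b : ℝ := (nn w : ℝ) with hb
  have hb0 : 0 ≤ b := Nat.cast_nonneg _
  have hg2 : 0 < γ ^ 2 := by positivity
  have p1 : 0 ≤ 1 / (N : ℝ) := by positivity
  have p2 : 0 ≤ γ ^ 2 / N := by positivity
  have p3 : 0 ≤ γ ^ 2 / Y := by positivity
  have ed : (1 + γ ^ 2) / (N : ℝ) = 1 / N + γ ^ 2 / N := add_div _ _ _
  rw [ed]
  have v2' : a / Y < c / N + 1 / N := by rw [← add_div]; exact v2
  have w2' : b / Y < d / N + 1 / N := by rw [← add_div]; exact w2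
  by_cases h1 : γ * n < a
  · have h2 : ¬ γ ^ 2 * d < c := fun h3 => h ⟨fun _ => h3, fun _ => h1⟩
    push Not at h2
    have h3 : γ ^ 2 * (b / Y) ≤ a / Y + γ ^ 2 / Y := by
      rw [← mul_div_assoc, ← add_div, div_le_div_iff_of_pos_right hY0]
      have h4 : (γ * n) ^ 2 < a ^ 2 := pow_lt_pow_left₀ h1 (by positivity) two_ne_zero
      have h5 : a * (γ ^ 2 * b) ≤ a * (a + γ ^ 2) := by nlinarith
      exact le_of_mul_le_mul_left h5 (by linarith)
    have h4 : a / Y ≤ γ ^ 2 * (b / Y) + 1 / N := by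
      have h5 : c / N ≤ γ ^ 2 * (d / N) := by
        rw [← mul_div_assoc]
        exact div_le_div_of_nonneg_right h2 hN0.le
      have h6 := mul_le_mul_of_nonneg_left w1 hg2.le
      linarith
    rw [abs_le]
    constructor <;> linarith
  · have h2 : γ ^ 2 * d < c := by
      by_contra h3
      exact h ⟨fun h4 => absurd h4 h1, fun h4 => absurd h4 h3⟩
    push Not at h1
    have h3 : a / Y ≤ γ ^ 2 * (b / Y) := by
      rw [← mul_div_assoc, div_le_div_iff_of_pos_right hY0]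
      have h4 : a ^ 2 ≤ (γ * n) ^ 2 := pow_le_pow_left₀ (by linarith) h1 2
      have h5 : a * a ≤ a * (γ ^ 2 * b) := by nlinarith
      exact le_of_mul_le_mul_left h5 (by linarith)
    have h4 : γ ^ 2 * (b / Y) ≤ a / Y + γ ^ 2 / N := by
      have h5 : γ ^ 2 * (d / N) ≤ c / N := by
        rw [← mul_div_assoc]
        exact div_le_div_of_nonneg_right h2.le hN0.le
      have h6 := mul_le_mul_of_nonneg_left w2'.le hg2.le
      rw [mul_add] at h6
      have h7 : γ ^ 2 * (1 / (N : ℝ)) = γ ^ 2 / N := by ring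
      linarith
    rw [abs_le]
    constructor <;> linarith

theorem trg_B2 {γ r₀ e s u : ℝ} (hγ : 0 < γ) (hr : 0 < r₀) (hs : r₀ ≤ Real.sqrt s) (hs0 : 0 ≤ s)
    (hu0 : 0 ≤ u) (h : |γ ^ 2 * u - s| ≤ e) :
    |Real.sqrt u - Real.sqrt s / γ| ≤ e / (γ * r₀) := by
  set ρ := Real.sqrt s with hρ
  set σ := Real.sqrt u with hσ
  have hρ0 : 0 < ρ := lt_of_lt_of_le hr hs
  have hσ0 : 0 ≤ σ := Real.sqrt_nonneg _
  have e1 : s = ρ ^ 2 := (Real.sq_sqrt hs0).symm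
  have e2 : u = σ ^ 2 := (Real.sq_sqrt hu0).symm
  have h1 : |γ * σ - ρ| * r₀ ≤ e := by
    have e3 : γ ^ 2 * u - s = (γ * σ - ρ) * (γ * σ + ρ) := by rw [e1, e2]; ring
    rw [e3, abs_mul] at h
    have h2 : r₀ ≤ |γ * σ + ρ| := by
      rw [abs_of_nonneg (by positivity)]
      have : 0 ≤ γ * σ := by positivity
      linarith
    have h3 := mul_le_mul_of_nonneg_left h2 (abs_nonneg (γ * σ - ρ))
    linarith
  have e4 : σ - ρ / γ = (γ * σ - ρ) / γ := by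
    field_simp
  rw [e4, abs_div, abs_of_pos hγ, div_le_div_iff₀ hγ (by positivity)]
  have := mul_le_mul_of_nonneg_left h1 hγ.le
  linarith

/-- a pair for which the two windows differ -/
theorem trg_incl {α β : ℝ} (hα : 0 < α) (hβ : α < β) {κ B N x : ℕ} (h1 : β < κ) (h2 : 2 / α < κ)
    (hB : 1 ≤ B) (hBN : B ≤ N) (hx : 1 ≤ x) {t : G × G} (ht1 : t.1 ∈ PN (κ * x))
    (ht2 : t.2 ∈ PN (κ * x)) (hd : det t.1 t.2 = 1) (hi : 0 < ip t.1 t.2)
    (h : ¬ (t ∈ trgT α β x (κ * x) ↔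
      trw α β κ B N (ce N (κ * x) t.1) (ce N (κ * x) t.2) = 1)) :
    (t ∈ trgT α β x (κ * x) ∧ (B * nn t.1 < 2 * (κ * x) ∨ B * nn t.2 < 2 * (κ * x))) ∨
    (κ * x ≤ B * nn t.1 ∧ (¬ (ip t.1 t.2 ≤ (x : ℤ) ↔
      κ ^ 2 * (ce N (κ * x) t.1 * ce N (κ * x) t.2) ≤ N ^ 2) ∨
      ¬ (α * (ip t.1 t.2 : ℝ) < (nn t.1 : ℝ) ↔
        α ^ 2 * (ce N (κ * x) t.2 : ℝ) < (ce N (κ * x) t.1 : ℝ)) ∨
      ¬ (β * (ip t.1 t.2 : ℝ) < (nn t.1 : ℝ) ↔
        β ^ 2 * (ce N (κ * x) t.2 : ℝ) < (ce N (κ * x) t.1 : ℝ)))) := by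
  classical
  obtain ⟨v, w⟩ := t
  simp only at ht1 ht2 hd hi h ⊢
  set Y := κ * x with hY
  have hN : 1 ≤ N := hB.trans hBN
  have hκ0 : (0 : ℝ) < κ := lt_trans (hα.trans hβ) h1
  have hκ : 1 ≤ κ := by exact_mod_cast hκ0
  have hY1 : 1 ≤ Y := Nat.mul_pos hκ hx
  have hx0 : (0 : ℝ) < x := by exact_mod_cast hx
  have memT : (v, w) ∈ trgT α β x Y ↔ ip v w ≤ (x : ℤ) ∧ α * (ip v w : ℝ) < (nn v : ℝ) ∧
      (nn v : ℝ) ≤ β * (ip v w : ℝ) := by
    unfold trgT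
    rw [Finset.mem_filter, Finset.mem_product]
    constructor
    · rintro ⟨-, -, -, a1, a2, a3⟩
      exact ⟨a1, a2, a3⟩
    · rintro ⟨a1, a2, a3⟩
      exact ⟨⟨ht1, ht2⟩, hd, hi, a1, a2, a3⟩
  by_cases hT : (v, w) ∈ trgT α β x Y
  · -- the pair is in the window
    have hw : ¬ trw α β κ B N (ce N Y v) (ce N Y w) = 1 := fun h3 => h ⟨fun _ => h3, fun _ => hT⟩
    obtain ⟨a1, a2, a3⟩ := memT.1 hT
    have hw' : ¬ (N ≤ B * ce N Y v ∧ N ≤ B * ce N Y w ∧ ce N Y v < N ∧ ce N Y w < N ∧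
        κ ^ 2 * (ce N Y v * ce N Y w) ≤ N ^ 2 ∧ α ^ 2 * (ce N Y w : ℝ) < (ce N Y v : ℝ) ∧
        (ce N Y v : ℝ) ≤ β ^ 2 * (ce N Y w : ℝ)) := by
      intro h3
      apply hw
      unfold trw
      rw [if_pos h3]
    -- small elements
    have small : ∀ z : G, B * ce N Y z < N → B * nn z < 2 * Y := by
      intro z hz
      have h3 : N * nn z < (ce N Y z + 1) * Y := by
        have := Nat.lt_mul_div_succ (N * nn z) hY1
        unfold ce
        rw [mul_comm (N * nn z / Y + 1) Y]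
        exact this
      have h4 : B * (N * nn z) < B * ((ce N Y z + 1) * Y) := Nat.mul_lt_mul_of_pos_left h3 hB
      have h5 : B * ((ce N Y z + 1) * Y) ≤ (N + N) * Y := by
        have : B * (ce N Y z + 1) ≤ N + N := by
          rw [mul_add, mul_one]
          omega
        calc B * ((ce N Y z + 1) * Y) = (B * (ce N Y z + 1)) * Y := by ring
          _ ≤ _ := Nat.mul_le_mul_right _ this
      have h6 : N * (B * nn z) < N * (2 * Y) := by
        calc N * (B * nn z) = B * (N * nn z) := by ring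
          _ < (N + N) * Y := lt_of_lt_of_le h4 h5
          _ = N * (2 * Y) := by ring
      exact Nat.lt_of_mul_lt_mul_left h6
    by_cases s1 : B * nn v < 2 * Y
    · exact Or.inl ⟨hT, Or.inl s1⟩
    by_cases s2 : B * nn w < 2 * Y
    · exact Or.inl ⟨hT, Or.inr s2⟩
    right
    have l1 : N ≤ B * ce N Y v := by
      by_contra hc
      exact s1 (small v (by omega))
    have l2 : N ≤ B * ce N Y w := by
      by_contra hc
      exact s2 (small w (by omega))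
    have hn1 : (1 : ℝ) ≤ ip v w := by exact_mod_cast hi
    have hnx : (ip v w : ℝ) ≤ x := by exact_mod_cast a1
    have hYr : (Y : ℝ) = κ * x := by rw [hY]; push_cast; ring
    have bigv : nn v < Y := by
      have : (nn v : ℝ) < Y := by
        rw [hYr]
        calc (nn v : ℝ) ≤ β * (ip v w : ℝ) := a3
          _ < κ * (ip v w : ℝ) := mul_lt_mul_of_pos_right h1 (by linarith)
          _ ≤ κ * x := mul_le_mul_of_nonneg_left hnx hκ0.le
      exact_mod_cast this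
    have bigw : nn w < Y := by
      have e := trg_prod hd
      have h3 : α * (ip v w : ℝ) * nn w ≤ 2 * (ip v w : ℝ) ^ 2 := by
        have : α * (ip v w : ℝ) * nn w ≤ nn v * nn w :=
          mul_le_mul_of_nonneg_right a2.le (Nat.cast_nonneg _)
        nlinarith
      have h4 : (nn w : ℝ) ≤ 2 / α * (ip v w : ℝ) := by
        rw [div_mul_eq_mul_div, le_div_iff₀ hα]
        have h5 : (ip v w : ℝ) * (nn w * α) ≤ (ip v w : ℝ) * (2 * (ip v w : ℝ)) := by nlinarith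
        exact le_of_mul_le_mul_left h5 (by linarith)
      have : (nn w : ℝ) < Y := by
        rw [hYr]
        calc (nn w : ℝ) ≤ 2 / α * (ip v w : ℝ) := h4
          _ < κ * (ip v w : ℝ) := mul_lt_mul_of_pos_right h2 (by linarith)
          _ ≤ κ * x := mul_le_mul_of_nonneg_left hnx hκ0.le
      exact_mod_cast this
    have ceN : ∀ z : G, nn z < Y → ce N Y z < N := by
      intro z hz
      unfold ce
      rw [Nat.div_lt_iff_lt_mul hY1]
      exact Nat.mul_lt_mul_of_pos_left hz hN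
    refine ⟨tcb_large hN l1 rfl, ?_⟩
    by_contra hc
    push Not at hc
    obtain ⟨c1, c2, c3⟩ := hc
    refine hw' ⟨l1, l2, ceN v bigv, ceN w bigw, c1.1 a1, c2.1 a2, ?_⟩
    by_contra h4
    push Not at h4
    have := c3.2 h4
    linarith
  · -- the pair is not in the window
    have hw : trw α β κ B N (ce N Y v) (ce N Y w) = 1 := by
      by_contra h3
      exact h ⟨fun h4 => absurd h4 hT, fun h4 => absurd h4 h3⟩
    have hw' : N ≤ B * ce N Y v ∧ N ≤ B * ce N Y w ∧ ce N Y v < N ∧ ce N Y w < N ∧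
        κ ^ 2 * (ce N Y v * ce N Y w) ≤ N ^ 2 ∧ α ^ 2 * (ce N Y w : ℝ) < (ce N Y v : ℝ) ∧
        (ce N Y v : ℝ) ≤ β ^ 2 * (ce N Y w : ℝ) := by
      by_contra h3
      unfold trw at hw
      rw [if_neg h3] at hw
      exact zero_ne_one hw
    obtain ⟨b1, b2, b3, b4, b5, b6, b7⟩ := hw'
    right
    refine ⟨tcb_large hN b1 rfl, ?_⟩
    by_contra hc
    push Not at hc
    obtain ⟨c1, c2, c3⟩ := hc
    apply hT
    rw [memT]
    refine ⟨c1.2 b5, c2.2 b6, ?_⟩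
    by_contra h4
    push Not at h4
    have := c3.1 h4
    linarith

end Pool.Agent.T2
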